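import Pool.Agent.N264.EC.Def

/-!
# The profile of the packets

The profile is the curl of `(0, 0, a(y₀) b(y₁) c(y₂))`; adapted from `Pool.Agent.N976.SC.T1`.
-/

set_option autoImplicit false

namespace Pool.Agent.N264.EC

namespace A

open Set Filter Topology MeasureTheory Metric
open scoped ContDiff

/-- the curl of a product stream function -/
noncomputable def H (a b c : ℝ → ℝ) (y : V) : V :=
  ![a (y 0) * deriv b (y 1) * c (y 2), -(deriv a (y 0) * b (y 1) * c (y 2)), 0]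

theorem co (i : Fin 3) : ContDiff ℝ ∞ (fun y : V => y i) :=
  (ContinuousLinearMap.proj i : V →L[ℝ] ℝ).contDiff

theorem sm_deriv {b : ℝ → ℝ} (hb : ContDiff ℝ ∞ b) : ContDiff ℝ ∞ (deriv b) :=
  (contDiff_infty_iff_deriv.1 hb).2

theorem H_smooth {a b c : ℝ → ℝ} (ha : ContDiff ℝ ∞ a) (hb : ContDiff ℝ ∞ b)
    (hc : ContDiff ℝ ∞ c) : ContDiff ℝ ∞ (H a b c) := by
  rw [contDiff_pi]
  intro i
  fin_cases i
  · exact ((ha.comp (co 0)).mul ((sm_deriv hb).comp (co 1))).mul (hc.comp (co 2))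
  · exact ((((sm_deriv ha).comp (co 0)).mul (hb.comp (co 1))).mul (hc.comp (co 2))).neg
  · exact contDiff_const

theorem comp_deriv {v : V → V} {y w : V} (hv : DifferentiableAt ℝ v y) (i : Fin 3) :
    HasDerivAt (fun t : ℝ => v (y + t • w) i) ((fderiv ℝ v y w) i) 0 := by
  have h1 : HasDerivAt (fun t : ℝ => v (y + t • w)) (fderiv ℝ v y w) 0 := by
    have h2 : HasDerivAt (fun t : ℝ => y + t • w) w 0 := by
      simpa using ((hasDerivAt_id (0 : ℝ)).smul_const w).const_add y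
    have h3 : HasFDerivAt v (fderiv ℝ v y) (y + (0 : ℝ) • w) := by
      simpa using hv.hasFDerivAt
    exact h3.comp_hasDerivAt 0 h2
  exact (hasDerivAt_pi.1 h1) i

theorem shift {a : ℝ → ℝ} (ha : ContDiff ℝ ∞ a) (x : ℝ) :
    HasDerivAt (fun t : ℝ => a (x + t)) (deriv a x) 0 := by
  have h1 : HasDerivAt a (deriv a x) (x + 0) := by
    rw [add_zero]
    exact (ha.differentiable (by simp) x).hasDerivAt
  exact HasDerivAt.comp_const_add x 0 h1

theorem H_div {a b c : ℝ → ℝ} (ha : ContDiff ℝ ∞ a) (hb : ContDiff ℝ ∞ b)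
    (hc : ContDiff ℝ ∞ c) (y : V) : divg (H a b c) y = 0 := by
  have hd : DifferentiableAt ℝ (H a b c) y := (H_smooth ha hb hc).differentiable (by simp) y
  unfold divg
  rw [Fin.sum_univ_three]
  have e0 : (fderiv ℝ (H a b c) y (Pi.single 0 1)) 0 =
      deriv a (y 0) * deriv b (y 1) * c (y 2) := by
    refine (comp_deriv hd 0).unique ?_
    have e : (fun t : ℝ => H a b c (y + t • Pi.single 0 1) 0) =
        fun t => a (y 0 + t) * deriv b (y 1) * c (y 2) := by
      funext t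
      simp [H]
    rw [e]
    exact ((shift ha (y 0)).mul_const _).mul_const _
  have e1 : (fderiv ℝ (H a b c) y (Pi.single 1 1)) 1 =
      -(deriv a (y 0) * deriv b (y 1) * c (y 2)) := by
    refine (comp_deriv hd 1).unique ?_
    have e : (fun t : ℝ => H a b c (y + t • Pi.single 1 1) 1) =
        fun t => -(deriv a (y 0) * b (y 1 + t) * c (y 2)) := by
      funext t
      simp [H]
    rw [e]
    exact (((shift hb (y 1)).const_mul _).mul_const _).neg
  have e2 : (fderiv ℝ (H a b c) y (Pi.single 2 1)) 2 = 0 := by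
    refine (comp_deriv hd 2).unique ?_
    have e : (fun t : ℝ => H a b c (y + t • Pi.single 2 1) 2) = fun t => 0 := by
      funext t
      simp [H]
    rw [e]
    exact hasDerivAt_const _ _
  rw [e0, e1, e2]
  ring

/-- the vorticity -/
theorem H_vor {a b c : ℝ → ℝ} (ha : ContDiff ℝ ∞ a) (hb : ContDiff ℝ ∞ b)
    (hc : ContDiff ℝ ∞ c) (y : V) :
    (fderiv ℝ (H a b c) y (Pi.single 0 1)) 1 = -(deriv (deriv a) (y 0) * b (y 1) * c (y 2)) ∧
    (fderiv ℝ (H a b c) y (Pi.single 1 1)) 0 = a (y 0) * deriv (deriv b) (y 1) * c (y 2) := by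
  have hd : DifferentiableAt ℝ (H a b c) y := (H_smooth ha hb hc).differentiable (by simp) y
  constructor
  · refine (comp_deriv hd 1).unique ?_
    have e : (fun t : ℝ => H a b c (y + t • Pi.single 0 1) 1) =
        fun t => -(deriv a (y 0 + t) * b (y 1) * c (y 2)) := by
      funext t
      simp [H]
    rw [e]
    exact (((shift (sm_deriv ha) (y 0)).mul_const _).mul_const _).neg
  · refine (comp_deriv hd 0).unique ?_
    have e : (fun t : ℝ => H a b c (y + t • Pi.single 1 1) 0) =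
        fun t => a (y 0) * deriv b (y 1 + t) * c (y 2) := by
      funext t
      simp [H]
    rw [e]
    exact ((shift (sm_deriv hb) (y 1)).const_mul _).mul_const _

/-- Fubini -/
theorem int_prod {f0 f1 f2 g0 g1 g2 : ℝ → ℝ} (hf0 : Integrable f0) (hf1 : Integrable f1)
    (hf2 : Integrable f2) (hg0 : Integrable g0) (hg1 : Integrable g1) (hg2 : Integrable g2) :
    ∫ y : V, (f0 (y 0) * f1 (y 1) * f2 (y 2) - g0 (y 0) * g1 (y 1) * g2 (y 2)) =
      (∫ s, f0 s) * (∫ s, f1 s) * (∫ s, f2 s) - (∫ s, g0 s) * (∫ s, g1 s) * (∫ s, g2 s) := by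
  have e : ∀ f0 f1 f2 : ℝ → ℝ, (fun x : Fin 3 → ℝ => f0 (x 0) * f1 (x 1) * f2 (x 2)) =
      fun x => ∏ i, (![f0, f1, f2] i) (x i) := by
    intro f0 f1 f2
    funext x
    rw [Fin.prod_univ_three]
    rfl
  have hi : ∀ {f0 f1 f2 : ℝ → ℝ}, Integrable f0 → Integrable f1 → Integrable f2 →
      Integrable (fun x : Fin 3 → ℝ => f0 (x 0) * f1 (x 1) * f2 (x 2)) := by
    intro f0 f1 f2 h0 h1 h2
    rw [e]
    refine Integrable.fintype_prod (f := ![f0, f1, f2]) (μ := fun _ => volume) fun i => ?_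
    fin_cases i
    · exact h0
    · exact h1
    · exact h2
  have hv : ∀ f0 f1 f2 : ℝ → ℝ, ∫ x : Fin 3 → ℝ, f0 (x 0) * f1 (x 1) * f2 (x 2) =
      (∫ s, f0 s) * (∫ s, f1 s) * (∫ s, f2 s) := by
    intro f0 f1 f2
    rw [e, integral_fintype_prod_volume_eq_prod, Fin.prod_univ_three]
    rfl
  rw [← hv f0 f1 f2, ← hv g0 g1 g2, ← integral_sub (hi hf0 hf1 hf2) (hi hg0 hg1 hg2)]

theorem csq {q : ℝ → ℝ} (hc : HasCompactSupport q) : HasCompactSupport (fun s => q s ^ 2) := by
  have h := hc.mul_right (f' := q)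
  have e : (fun s => q s ^ 2) = q * q := by
    funext s
    rw [Pi.mul_apply, sq]
  rw [e]
  exact h

theorem sq_int {q : ℝ → ℝ} (hq : Continuous q) (hc : HasCompactSupport q) :
    Integrable (fun s => q s ^ 2) :=
  (hq.pow 2).integrable_of_hasCompactSupport (csq hc)

theorem ip_H {a b c : ℝ → ℝ} (ha : ContDiff ℝ ∞ a) (hb : ContDiff ℝ ∞ b)
    (hc : ContDiff ℝ ∞ c) (ca : HasCompactSupport a) (cb : HasCompactSupport b)
    (cc : HasCompactSupport c) :
    ip (fun y => Am (H a b c y)) (H a b c) =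
      (∫ s, a s ^ 2) * (∫ s, deriv b s ^ 2) * (∫ s, c s ^ 2) -
        (∫ s, deriv a s ^ 2) * (∫ s, b s ^ 2) * (∫ s, c s ^ 2) := by
  rw [← int_prod (sq_int ha.continuous ca) (sq_int (sm_deriv hb).continuous cb.deriv)
    (sq_int hc.continuous cc) (sq_int (sm_deriv ha).continuous ca.deriv) (sq_int hb.continuous cb)
    (sq_int hc.continuous cc)]
  unfold ip
  refine integral_congr_ae (Eventually.of_forall fun y => ?_)
  simp only [Fin.sum_univ_three]
  simp [Am, H]
  ring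

/-- one-dimensional dilation -/
noncomputable def dil (l : ℝ) (q : ℝ → ℝ) (s : ℝ) : ℝ := l⁻¹ * q (l * s)

theorem dil_smooth {l : ℝ} {q : ℝ → ℝ} (hq : ContDiff ℝ ∞ q) : ContDiff ℝ ∞ (dil l q) :=
  contDiff_const.mul (hq.comp (contDiff_const.mul contDiff_id))

theorem dil_deriv {l : ℝ} (hl : l ≠ 0) {q : ℝ → ℝ} (hq : ContDiff ℝ ∞ q) (s : ℝ) :
    deriv (dil l q) s = deriv q (l * s) := by
  have h1 : HasDerivAt q (deriv q (l * s)) (l * s) :=
    (hq.differentiable (by simp) (l * s)).hasDerivAt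
  have h2 : HasDerivAt (fun s : ℝ => l * s) l s := by
    simpa using (hasDerivAt_id s).const_mul l
  have h3 : HasDerivAt (dil l q) (l⁻¹ * (deriv q (l * s) * l)) s := (h1.comp s h2).const_mul l⁻¹
  rw [h3.deriv]
  field_simp

theorem dil_int {l : ℝ} (hl : 0 < l) (q : ℝ → ℝ) :
    ∫ s, dil l q s ^ 2 = l⁻¹ ^ 3 * ∫ s, q s ^ 2 := by
  have h := Measure.integral_comp_mul_left (fun s => q s ^ 2) l
  have e : ∀ s, dil l q s ^ 2 = l⁻¹ ^ 2 * (fun s => q s ^ 2) (l * s) := by
    intro s; unfold dil; ring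
  simp only [e]
  rw [integral_const_mul, h, abs_of_pos (inv_pos.2 hl), smul_eq_mul]
  ring

theorem dil_int' {l : ℝ} (hl : 0 < l) {q : ℝ → ℝ} (hq : ContDiff ℝ ∞ q) :
    ∫ s, deriv (dil l q) s ^ 2 = l⁻¹ * ∫ s, deriv q s ^ 2 := by
  have h := Measure.integral_comp_mul_left (fun s => deriv q s ^ 2) l
  simp only [dil_deriv hl.ne' hq]
  rw [h, abs_of_pos (inv_pos.2 hl), smul_eq_mul]

/-! ### the functions -/

noncomputable def kb : ContDiffBump (0 : ℝ) := ⟨1 / 10, 1 / 5, by norm_num, by norm_num⟩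

noncomputable def ff (s : ℝ) : ℝ := s * kb s

theorem one_of (k : ContDiffBump (0 : ℝ)) {s : ℝ} (hs : |s| ≤ k.rIn) : k s = 1 :=
  k.one_of_mem_closedBall (by rw [mem_closedBall_zero_iff]; exact hs)

theorem zero_of (k : ContDiffBump (0 : ℝ)) {s : ℝ} (hs : k.rOut ≤ |s|) : k s = 0 :=
  k.zero_of_le_dist (by rw [dist_zero_right]; exact hs)

theorem ff_in {s : ℝ} (hs : |s| ≤ 1 / 10) : ff s = s := by
  unfold ff
  rw [one_of kb hs, mul_one]

theorem ff_out {s : ℝ} (hs : 1 / 5 ≤ |s|) : ff s = 0 := by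
  unfold ff
  rw [zero_of kb hs, mul_zero]

theorem ff_sm : ContDiff ℝ ∞ ff := contDiff_id.mul kb.contDiff

theorem ff_deriv {s : ℝ} (hs : |s| < 1 / 10) : deriv ff s = 1 := by
  have h1 : ff =ᶠ[𝓝 s] id := by
    have h2 : {x : ℝ | |x| < 1 / 10} ∈ 𝓝 s := (isOpen_lt continuous_abs continuous_const).mem_nhds hs
    filter_upwards [h2] with x hx
    exact ff_in (le_of_lt hx)
  rw [h1.deriv_eq, deriv_id]

theorem ff_dout {s : ℝ} (hs : 1 / 5 < |s|) : deriv ff s = 0 := by
  have h1 : ff =ᶠ[𝓝 s] fun _ => 0 := by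
    have h2 : {x : ℝ | 1 / 5 < |x|} ∈ 𝓝 s := (isOpen_lt continuous_const continuous_abs).mem_nhds hs
    filter_upwards [h2] with x hx
    exact ff_out (le_of_lt hx)
  rw [h1.deriv_eq, deriv_const]

theorem ff_cs : HasCompactSupport ff := by
  refine HasCompactSupport.intro (isCompact_Icc (a := -(1 / 5)) (b := 1 / 5)) fun s hs => ff_out ?_
  by_contra h1
  push Not at h1
  exact hs ⟨(abs_lt.1 h1).1.le, (abs_lt.1 h1).2.le⟩

noncomputable def gg : ℝ → ℝ := dil (1 / 2) ff

theorem gg_sm : ContDiff ℝ ∞ gg := dil_smooth ff_sm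

theorem gg_out {s : ℝ} (hs : 2 / 5 ≤ |s|) : gg s = 0 := by
  unfold gg dil
  rw [ff_out, mul_zero]
  rw [abs_mul, abs_of_pos (by norm_num : (0 : ℝ) < 1 / 2)]
  linarith

theorem gg_dout {s : ℝ} (hs : 2 / 5 < |s|) : deriv gg s = 0 := by
  unfold gg
  rw [dil_deriv (by norm_num) ff_sm, ff_dout]
  rw [abs_mul, abs_of_pos (by norm_num : (0 : ℝ) < 1 / 2)]
  linarith

theorem gg_cs : HasCompactSupport gg := by
  refine HasCompactSupport.intro (isCompact_Icc (a := -(2 / 5)) (b := 2 / 5)) fun s hs => gg_out ?_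
  by_contra h1
  push Not at h1
  exact hs ⟨(abs_lt.1 h1).1.le, (abs_lt.1 h1).2.le⟩

theorem gg_in {s : ℝ} (hs : |s| < 1 / 5) : gg s = s := by
  unfold gg dil
  rw [ff_in]
  · ring
  · rw [abs_mul, abs_of_pos (by norm_num : (0 : ℝ) < 1 / 2)]
    linarith

theorem gg_deriv {s : ℝ} (hs : |s| < 1 / 5) : deriv gg s = 1 := by
  unfold gg
  rw [dil_deriv (by norm_num) ff_sm, ff_deriv]
  rw [abs_mul, abs_of_pos (by norm_num : (0 : ℝ) < 1 / 2)]
  linarith

theorem gg_dd {s : ℝ} (hs : |s| < 1 / 5) : deriv (deriv gg) s = 0 := by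
  have h1 : deriv gg =ᶠ[𝓝 s] fun _ => 1 := by
    have h2 : {x : ℝ | |x| < 1 / 5} ∈ 𝓝 s := (isOpen_lt continuous_abs continuous_const).mem_nhds hs
    filter_upwards [h2] with x hx
    exact gg_deriv hx
  rw [h1.deriv_eq, deriv_const]

theorem ff_dd : ∃ s, deriv (deriv ff) s ≠ 0 := by
  by_contra h
  push Not at h
  have h1 := is_const_of_deriv_eq_zero ((sm_deriv ff_sm).differentiable (by simp)) h 0 1
  rw [ff_deriv (by norm_num), ff_dout (by norm_num)] at h1
  exact one_ne_zero h1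

end A

open A MeasureTheory in
/-- **The profile.** -/
theorem t_PK : S_PK := by
  refine ⟨H ff gg kb, 1 / 10, ?_⟩
  have kpos : 0 < ∫ s, kb s ^ 2 := by
    refine Continuous.integral_pos_of_hasCompactSupport_nonneg_nonzero (x := 0)
      (kb.continuous.pow 2) (csq kb.hasCompactSupport)
      (fun x => sq_nonneg (kb x)) (pow_ne_zero 2 ?_)
    rw [one_of kb (by rw [abs_zero]; exact kb.rIn_pos.le)]
    norm_num
  have fpos : 0 < ∫ s, ff s ^ 2 := by
    refine Continuous.integral_pos_of_hasCompactSupport_nonneg_nonzero (x := 1 / 20)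
      (ff_sm.continuous.pow 2) (csq ff_cs)
      (fun x => sq_nonneg (ff x)) (pow_ne_zero 2 ?_)
    rw [ff_in (by rw [abs_of_pos (by norm_num)]; norm_num)]
    norm_num
  have dpos : 0 < ∫ s, deriv ff s ^ 2 := by
    refine Continuous.integral_pos_of_hasCompactSupport_nonneg_nonzero (x := 0)
      ((sm_deriv ff_sm).continuous.pow 2) (csq ff_cs.deriv)
      (fun x => sq_nonneg (deriv ff x)) (pow_ne_zero 2 ?_)
    rw [ff_deriv (by norm_num)]
    norm_num
  constructor
  · exact H_smooth ff_sm gg_sm kb.contDiff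
  · exact H_div ff_sm gg_sm kb.contDiff
  · intro y hy
    have h1 : ∃ i, 1 / 2 ≤ |y i| := by
      by_contra h
      push Not at h
      have h2 : ‖y‖ < 1 / 2 := (pi_norm_lt_iff (by norm_num)).2 fun i => h i
      linarith
    obtain ⟨i, hi⟩ := h1
    unfold H
    fin_cases i
    · have e1 : ff (y 0) = 0 := ff_out (le_trans (by norm_num) hi)
      have e2 : deriv ff (y 0) = 0 := ff_dout (lt_of_lt_of_le (by norm_num) hi)
      ext j
      fin_cases j <;> simp [e1, e2]
    · have e1 : gg (y 1) = 0 := gg_out (le_trans (by norm_num) hi)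
      have e2 : deriv gg (y 1) = 0 := gg_dout (lt_of_lt_of_le (by norm_num) hi)
      ext j
      fin_cases j <;> simp [e1, e2]
    · have e1 : kb (y 2) = 0 := zero_of kb (le_trans (by norm_num [kb]) hi)
      ext j
      fin_cases j <;> simp [e1]
  · norm_num
  · norm_num
  · intro y hy
    have h0 := (norm_le_pi_norm y 0).trans_lt hy
    have h1 := (norm_le_pi_norm y 1).trans_lt hy
    have h2 := (norm_le_pi_norm y 2).trans_lt hy
    rw [Real.norm_eq_abs] at h0 h1 h2
    unfold H Am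
    rw [ff_in h0.le, ff_deriv h0, gg_in (by linarith), gg_deriv (by linarith), one_of kb h2.le]
    simp
  · rw [ip_H ff_sm gg_sm kb.contDiff ff_cs gg_cs kb.hasCompactSupport]
    unfold gg
    rw [dil_int (by norm_num), dil_int' (by norm_num) ff_sm]
    have h3 := mul_pos (mul_pos fpos dpos) kpos
    norm_num
    nlinarith
  · obtain ⟨s, hs⟩ := ff_dd
    refine ⟨![s, 1 / 10, 0], ?_⟩
    obtain ⟨e1, e2⟩ := H_vor ff_sm gg_sm kb.contDiff (![s, 1 / 10, 0] : V)
    have k1 : gg (1 / 10) = 1 / 10 := gg_in (by rw [abs_of_pos (by norm_num)]; norm_num)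
    have k2 : deriv (deriv gg) (1 / 10) = 0 := gg_dd (by rw [abs_of_pos (by norm_num)]; norm_num)
    have k3 : kb (0 : ℝ) = 1 := one_of kb (by rw [abs_zero]; exact kb.rIn_pos.le)
    rw [e1, e2]
    simp only [Matrix.cons_val_zero, Matrix.cons_val_one, Matrix.cons_val]
    rw [k1, k2, k3]
    simp [hs]

end Pool.Agent.N264.EC
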