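import Pool.Agent.N264.EC.Def

/-!
# (B) The interactions of the packets

The packets `P n = pk (R n) φ` are orthogonal; their self-interactions `adv (P n) (P n)` and linear
interactions `LL (P n)` are tested with the packets by scaling, integration by parts and the
linearity of the packets with larger scale on the support of the packets with smaller scale.
-/

open Set Filter Topology MeasureTheory
open scoped ContDiff

set_option autoImplicit false

namespace Pool.Agent.N264.EC

namespace B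

/-- smooth fields with compact support -/
structure Sm (v : V → V) : Prop where
  sm : ContDiff ℝ ∞ v
  cs : HasCompactSupport v

lemma Sm.diff {v : V → V} (h : Sm v) : Differentiable ℝ v := h.sm.differentiable (by simp)

lemma Sm.cont {v : V → V} (h : Sm v) : Continuous v := h.sm.continuous

lemma Sm.of_out {v : V → V} (h : ContDiff ℝ ∞ v) {R : ℝ} (h0 : ∀ y, R ≤ ‖y‖ → v y = 0) :
    Sm v := by
  refine ⟨h, HasCompactSupport.of_support_subset_isCompact (isCompact_closedBall (0 : V) R) ?_⟩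
  intro y hy
  simp only [Metric.mem_closedBall, dist_zero_right]
  by_contra hc
  push Not at hc
  exact hy (h0 y hc.le)

lemma Sm.add {v w : V → V} (h : Sm v) (h' : Sm w) : Sm (fun y => v y + w y) :=
  ⟨h.sm.add h'.sm, h.cs.add h'.cs⟩

lemma Sm.smul {v : V → V} (h : Sm v) (a : ℝ) : Sm (fun y => a • v y) :=
  ⟨h.sm.const_smul a, h.cs.mono (by
    intro y hy
    simp only [Function.mem_support] at hy ⊢
    intro h0
    exact hy (by rw [h0, smul_zero]))⟩

lemma Sm.sub {v w : V → V} (h : Sm v) (h' : Sm w) : Sm (fun y => v y - w y) := by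
  have := h.add (h'.smul (-1))
  refine (by simpa [sub_eq_add_neg] using this)

/-- `Am` as a continuous linear map -/
noncomputable def AL : V →L[ℝ] V :=
  LinearMap.toContinuousLinearMap
    { toFun := Am
      map_add' := by
        intro x y
        ext i
        fin_cases i <;> simp [Am]; ring
      map_smul' := by
        intro a x
        ext i
        fin_cases i <;> simp [Am] }

@[simp] lemma AL_apply (y : V) : AL y = Am y := rfl

lemma Am_add (x y : V) : Am (x + y) = Am x + Am y := AL.map_add x y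

lemma Am_smul (a : ℝ) (x : V) : Am (a • x) = a • Am x := AL.map_smul a x

lemma Am_zero : Am 0 = 0 := AL.map_zero

/-- the scalar product -/
noncomputable def dp (x y : V) : ℝ := ∑ i, x i * y i

lemma ip_eq (v w : V → V) : ip v w = ∫ x, dp (v x) (w x) := rfl

lemma dp_eq (x y : V) : dp x y = x 0 * y 0 + x 1 * y 1 + x 2 * y 2 := by
  simp [dp, Fin.sum_univ_three]

lemma dp_comm (x y : V) : dp x y = dp y x := by
  simp only [dp_eq]; ring

lemma dp_add (x y z : V) : dp x (y + z) = dp x y + dp x z := by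
  simp only [dp_eq, Pi.add_apply]; ring

lemma dp_smul (a : ℝ) (x y : V) : dp x (a • y) = a * dp x y := by
  simp only [dp_eq, Pi.smul_apply, smul_eq_mul]; ring

@[simp] lemma dp_zero_right (x : V) : dp x 0 = 0 := by
  simp [dp_eq]

@[simp] lemma dp_zero_left (x : V) : dp 0 x = 0 := by
  simp [dp_eq]

lemma Am_dp (x y : V) : dp (Am x) y = dp x (Am y) := by
  simp [dp_eq, Am]

lemma cont_dp {v w : V → V} (hv : Continuous v) (hw : Continuous w) :
    Continuous (fun y => dp (v y) (w y)) := by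
  simp only [dp_eq]
  fun_prop

lemma cd_dp {v w : V → V} {n : WithTop ℕ∞} (hv : ContDiff ℝ n v) (hw : ContDiff ℝ n w) :
    ContDiff ℝ n (fun y => dp (v y) (w y)) := by
  simp only [dp_eq]
  have h1 : ∀ i : Fin 3, ContDiff ℝ n (fun y => v y i) := fun i => contDiff_pi.1 hv i
  have h2 : ∀ i : Fin 3, ContDiff ℝ n (fun y => w y i) := fun i => contDiff_pi.1 hw i
  exact (((h1 0).mul (h2 0)).add ((h1 1).mul (h2 1))).add ((h1 2).mul (h2 2))

lemma fderiv_coord {v : V → V} {y : V} (hv : DifferentiableAt ℝ v y) (i : Fin 3) (e : V) :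
    fderiv ℝ (fun y => v y i) y e = (fderiv ℝ v y e) i := by
  have h1 : HasFDerivAt v (fderiv ℝ v y) y := hv.hasFDerivAt
  have h2 := (hasFDerivAt_pi'.1 h1 i).fderiv
  rw [h2]
  rfl

lemma fderiv_dp {v w : V → V} {y : V} (hv : DifferentiableAt ℝ v y) (hw : DifferentiableAt ℝ w y)
    (e : V) : fderiv ℝ (fun y => dp (v y) (w y)) y e =
      dp (fderiv ℝ v y e) (w y) + dp (v y) (fderiv ℝ w y e) := by
  have h1 : ∀ i : Fin 3, HasFDerivAt (fun y => v y i)
      ((ContinuousLinearMap.proj (R := ℝ) (φ := fun _ : Fin 3 => ℝ) i).comp (fderiv ℝ v y)) y :=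
    fun i => hasFDerivAt_pi'.1 hv.hasFDerivAt i
  have h2 : ∀ i : Fin 3, HasFDerivAt (fun y => w y i)
      ((ContinuousLinearMap.proj (R := ℝ) (φ := fun _ : Fin 3 => ℝ) i).comp (fderiv ℝ w y)) y :=
    fun i => hasFDerivAt_pi'.1 hw.hasFDerivAt i
  have h3 := ((((h1 0).mul (h2 0)).add ((h1 1).mul (h2 1))).add ((h1 2).mul (h2 2))).fderiv
  have e1 : (fun y => dp (v y) (w y)) = ((fun y => v y 0) * (fun y => w y 0) +
      (fun y => v y 1) * (fun y => w y 1) + (fun y => v y 2) * (fun y => w y 2)) := by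
    ext1 z
    simp [dp_eq]
  rw [e1, h3]
  simp [dp_eq]
  ring

lemma Sm.cAm {v : V → V} (h : Sm v) : Sm (fun y => Am (v y)) := by
  refine ⟨AL.contDiff.comp h.sm, h.cs.mono ?_⟩
  intro y hy
  simp only [Function.mem_support] at hy ⊢
  intro h0
  exact hy (by rw [h0, Am_zero])

lemma cd_fderiv {v : V → V} (h : ContDiff ℝ ∞ v) : ContDiff ℝ ∞ (fderiv ℝ v) :=
  h.fderiv_right (by simp)

lemma Sm.cadv {a b : V → V} (ha : Sm a) (hb : ContDiff ℝ ∞ b) : Sm (adv a b) := by
  refine ⟨(cd_fderiv hb).clm_apply ha.sm, ha.cs.mono ?_⟩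
  intro y hy
  simp only [Function.mem_support] at hy ⊢
  intro h0
  exact hy (by simp [adv, h0])

lemma Sm.cadvA {v : V → V} (h : Sm v) : Sm (adv Am v) := by
  refine ⟨(cd_fderiv h.sm).clm_apply AL.contDiff, (h.cs.fderiv (𝕜 := ℝ)).mono ?_⟩
  intro y hy
  simp only [Function.mem_support] at hy ⊢
  intro h0
  exact hy (by simp [adv, h0])

lemma LL_eq (v : V → V) : LL v = fun y => adv Am v y + Am (v y) := rfl

lemma Sm.cLL {v : V → V} (h : Sm v) : Sm (LL v) := by
  rw [LL_eq]
  exact h.cadvA.add h.cAm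

/-! ### `ip` -/

lemma ip_comm (v w : V → V) : ip v w = ip w v := by
  simp only [ip_eq]
  congr 1
  ext y
  exact dp_comm _ _

lemma integ {w v : V → V} (hw : Continuous w) (hv : Sm v) :
    Integrable (fun y => dp (w y) (v y)) := by
  refine (cont_dp hw hv.cont).integrable_of_hasCompactSupport (hv.cs.mono ?_)
  intro y hy
  simp only [Function.mem_support] at hy ⊢
  intro h0
  exact hy (by rw [h0, dp_zero_right])

lemma ip_add {w v v' : V → V} (hw : Continuous w) (hv : Sm v) (hv' : Sm v') :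
    ip w (fun y => v y + v' y) = ip w v + ip w v' := by
  simp only [ip_eq]
  rw [← integral_add (integ hw hv) (integ hw hv')]
  congr 1
  ext y
  exact dp_add _ _ _

lemma ip_smul (w v : V → V) (a : ℝ) : ip w (fun y => a • v y) = a * ip w v := by
  simp only [ip_eq]
  rw [← integral_const_mul]
  congr 1
  ext y
  exact dp_smul _ _ _

lemma ip_smul_left (w v : V → V) (a : ℝ) : ip (fun y => a • w y) v = a * ip w v := by
  rw [ip_comm, ip_smul, ip_comm]

lemma ip_sub {w v v' : V → V} (hw : Continuous w) (hv : Sm v) (hv' : Sm v') :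
    ip w (fun y => v y - v' y) = ip w v - ip w v' := by
  have h := ip_add hw hv (hv'.smul (-1))
  rw [ip_smul] at h
  have e : (fun y => v y - v' y) = fun y => v y + (-1 : ℝ) • v' y := by
    ext1 y
    rw [neg_one_smul, sub_eq_add_neg]
  rw [e, h]
  ring

lemma ip_Am (v w : V → V) : ip (fun y => Am (v y)) w = ip v (fun y => Am (w y)) := by
  simp only [ip_eq]
  congr 1
  ext y
  exact Am_dp _ _

/-! ### Integration by parts -/

lemma sum_bv (a : V) : a = ∑ i : Fin 3, a i • (Pi.single i (1 : ℝ) : V) := by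
  ext j
  fin_cases j <;> simp [Fin.sum_univ_three]

/-- `∫ (a · ∇) g = 0` for `div a = 0` -/
lemma int_adv {a : V → V} {g : V → ℝ} (ha : ContDiff ℝ 1 a) (hg : ContDiff ℝ 1 g)
    (hd : ∀ y, divg a y = 0) (hc : HasCompactSupport a ∨ HasCompactSupport g) :
    ∫ y, fderiv ℝ g y (a y) = 0 := by
  have hai : ∀ i : Fin 3, ContDiff ℝ 1 (fun y => a y i) := fun i => contDiff_pi.1 ha i
  have hdai : ∀ (i : Fin 3) (y v : V), fderiv ℝ (fun y => a y i) y v = (fderiv ℝ a y v) i :=
    fun i y v => fderiv_coord (ha.differentiable (by simp) y) i v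
  have hag : ∀ i : Fin 3, HasCompactSupport (fun y => a y i) ∨ HasCompactSupport g := by
    intro i
    rcases hc with hc | hc
    · left
      refine hc.mono ?_
      intro y hy
      simp only [Function.mem_support] at hy ⊢
      intro h0
      exact hy (by rw [h0]; rfl)
    · exact Or.inr hc
  have hga : Continuous (fderiv ℝ g) := hg.continuous_fderiv (by simp)
  have hfa : ∀ i, Continuous (fderiv ℝ (fun y => a y i)) := fun i =>
    (hai i).continuous_fderiv (by simp)
  -- products with compact support are integrable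
  have hint : ∀ (f₁ f₂ : V → ℝ), Continuous f₁ → Continuous f₂ →
      (HasCompactSupport f₁ ∨ HasCompactSupport f₂) → Integrable (fun y => f₁ y * f₂ y) := by
    intro f₁ f₂ h1 h2 h3
    refine (h1.mul h2).integrable_of_hasCompactSupport ?_
    rcases h3 with h3 | h3
    · exact h3.mul_right
    · exact h3.mul_left
  have hI1 : ∀ i : Fin 3, Integrable (fun y => a y i * fderiv ℝ g y (Pi.single i 1)) := by
    intro i
    refine hint _ _ (hai i).continuous (hga.clm_apply continuous_const) ?_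
    rcases hag i with h | h
    · exact Or.inl h
    · right
      refine (h.fderiv (𝕜 := ℝ)).mono ?_
      intro y hy
      simp only [Function.mem_support] at hy ⊢
      intro h0
      exact hy (by rw [h0]; rfl)
  have hI2 : ∀ i : Fin 3,
      Integrable (fun y => fderiv ℝ (fun y => a y i) y (Pi.single i 1) * g y) := by
    intro i
    refine hint _ _ ((hfa i).clm_apply continuous_const) hg.continuous ?_
    rcases hag i with h | h
    · left
      refine (h.fderiv (𝕜 := ℝ)).mono ?_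
      intro y hy
      simp only [Function.mem_support] at hy ⊢
      intro h0
      exact hy (by rw [h0]; rfl)
    · exact Or.inr h
  have key : ∀ i : Fin 3, ∫ y, a y i * fderiv ℝ g y (Pi.single i 1) =
      -∫ y, fderiv ℝ (fun y => a y i) y (Pi.single i 1) * g y := by
    intro i
    exact integral_mul_fderiv_eq_neg_fderiv_mul_of_integrable (hI2 i) (hI1 i)
      (hint _ _ (hai i).continuous hg.continuous (hag i))
      (fun x _ => (hai i).differentiable (by simp) x) (fun x _ => hg.differentiable (by simp) x)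
  have e1 : ∀ y, fderiv ℝ g y (a y) = ∑ i : Fin 3, a y i * fderiv ℝ g y (Pi.single i 1) := by
    intro y
    conv_lhs => rw [sum_bv (a y)]
    rw [map_sum]
    refine Finset.sum_congr rfl fun i _ => ?_
    rw [map_smul, smul_eq_mul]
  calc ∫ y, fderiv ℝ g y (a y) = ∫ y, ∑ i : Fin 3, a y i * fderiv ℝ g y (Pi.single i 1) := by
        simp only [e1]
    _ = ∑ i : Fin 3, ∫ y, a y i * fderiv ℝ g y (Pi.single i 1) :=
        integral_finsetSum _ fun i _ => hI1 i
    _ = ∑ i : Fin 3, -∫ y, fderiv ℝ (fun y => a y i) y (Pi.single i 1) * g y :=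
        Finset.sum_congr rfl fun i _ => key i
    _ = -∫ y, ∑ i : Fin 3, fderiv ℝ (fun y => a y i) y (Pi.single i 1) * g y := by
        rw [integral_finsetSum _ fun i _ => hI2 i, Finset.sum_neg_distrib]
    _ = 0 := by
        have : ∀ y, ∑ i : Fin 3, fderiv ℝ (fun y => a y i) y (Pi.single i 1) * g y = 0 := by
          intro y
          rw [← Finset.sum_mul]
          have h1 := hd y
          unfold divg at h1
          simp only [hdai, h1, zero_mul]
        simp only [this, integral_zero, neg_zero]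

/-- antisymmetry of the trilinear form -/
lemma ip_adv_anti {a b c : V → V} (ha : ContDiff ℝ 1 a) (hb : ContDiff ℝ 1 b)
    (hc : ContDiff ℝ 1 c) (hd : ∀ y, divg a y = 0)
    (hcs : HasCompactSupport b ∨ HasCompactSupport c) :
    ip (adv a b) c = -ip (adv a c) b := by
  have hg : ContDiff ℝ 1 (fun y => dp (b y) (c y)) := cd_dp hb hc
  have hgc : HasCompactSupport (fun y => dp (b y) (c y)) := by
    rcases hcs with h | h
    · refine h.mono ?_
      intro y hy
      simp only [Function.mem_support] at hy ⊢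
      intro h0
      exact hy (by rw [h0, dp_zero_left])
    · refine h.mono ?_
      intro y hy
      simp only [Function.mem_support] at hy ⊢
      intro h0
      exact hy (by rw [h0, dp_zero_right])
  have h1 := int_adv ha hg hd (Or.inr hgc)
  have h2 : ∀ y, fderiv ℝ (fun y => dp (b y) (c y)) y (a y) =
      dp (adv a b y) (c y) + dp (adv a c y) (b y) := by
    intro y
    rw [fderiv_dp (hb.differentiable (by simp) y) (hc.differentiable (by simp) y), dp_comm (b y)]
    rfl
  simp only [h2] at h1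
  have hda : Continuous (adv a b) := (hb.continuous_fderiv (by simp)).clm_apply ha.continuous
  have hda' : Continuous (adv a c) := (hc.continuous_fderiv (by simp)).clm_apply ha.continuous
  have i1 : Integrable (fun y => dp (adv a b y) (c y)) := by
    refine (cont_dp hda hc.continuous).integrable_of_hasCompactSupport ?_
    rcases hcs with h | h
    · refine (h.fderiv (𝕜 := ℝ)).mono ?_
      intro y hy
      simp only [Function.mem_support] at hy ⊢
      intro h0
      exact hy (by simp [adv, h0])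
    · refine h.mono ?_
      intro y hy
      simp only [Function.mem_support] at hy ⊢
      intro h0
      exact hy (by rw [h0, dp_zero_right])
  have i2 : Integrable (fun y => dp (adv a c y) (b y)) := by
    refine (cont_dp hda' hb.continuous).integrable_of_hasCompactSupport ?_
    rcases hcs with h | h
    · refine h.mono ?_
      intro y hy
      simp only [Function.mem_support] at hy ⊢
      intro h0
      exact hy (by rw [h0, dp_zero_right])
    · refine (h.fderiv (𝕜 := ℝ)).mono ?_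
      intro y hy
      simp only [Function.mem_support] at hy ⊢
      intro h0
      exact hy (by simp [adv, h0])
  rw [integral_add i1 i2] at h1
  simp only [ip_eq]
  linarith

/-- symmetric linear fields are gradients, hence orthogonal to solenoidal fields -/
lemma ip_Y {c : V → V} (hc : Sm c) (hd : ∀ y, divg c y = 0) (M : V →L[ℝ] V)
    (hM : ∀ x y, dp (M x) y = dp x (M y)) : ip (fun y => M y) c = 0 := by
  have hg : ContDiff ℝ 1 (fun y => (1 / 2 : ℝ) * dp (M y) y) :=
    contDiff_const.mul (cd_dp M.contDiff contDiff_id)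
  have h1 := int_adv (hc.sm.of_le (by simp)) hg hd (Or.inl hc.cs)
  have h2 : ∀ y, fderiv ℝ (fun y => (1 / 2 : ℝ) * dp (M y) y) y (c y) = dp (M y) (c y) := by
    intro y
    have h4 : DifferentiableAt ℝ (fun y => dp (M y) y) y :=
      (cd_dp (n := 1) M.contDiff contDiff_id).differentiable (by simp) y
    rw [fderiv_const_mul h4, smul_apply,
      fderiv_dp (v := fun y => M y) (w := fun y => y) M.differentiableAt differentiableAt_id]
    have h5 : fderiv ℝ (fun y => M y) y = M := M.fderiv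
    have h6 : fderiv ℝ (fun y : V => y) y = ContinuousLinearMap.id ℝ V := fderiv_id
    rw [h5, h6, hM (c y) y]
    simp only [ContinuousLinearMap.id_apply, smul_eq_mul]
    rw [dp_comm (c y)]
    ring
  simp only [h2] at h1
  exact h1

lemma ip_A {c : V → V} (hc : Sm c) (hd : ∀ y, divg c y = 0) : ip Am c = 0 :=
  ip_Y hc hd AL fun x y => Am_dp x y

lemma ip_AA {c : V → V} (hc : Sm c) (hd : ∀ y, divg c y = 0) : ip (fun y => Am (Am y)) c = 0 :=
  ip_Y hc hd (AL.comp AL) fun x y => by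
    simp only [ContinuousLinearMap.comp_apply, AL_apply]
    rw [Am_dp, Am_dp]

lemma div_Am (y : V) : divg Am y = 0 := by
  have h1 : fderiv ℝ Am y = AL := AL.fderiv
  unfold divg
  rw [h1]
  simp [Fin.sum_univ_three, Am]

/-! ### Dilations -/

lemma Sm.cpk {v : V → V} (h : Sm v) {R : ℝ} (hR : 0 < R) : Sm (pk R v) := by
  have h1 : ContDiff ℝ ∞ (fun y : V => v (R ^ 2 • y)) := by
    have := h.sm
    fun_prop
  have h2 : IsClosedEmbedding (fun y : V => R ^ 2 • y) :=
    (Homeomorph.smulOfNeZero (R ^ 2) (by positivity)).isClosedEmbedding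
  exact Sm.smul ⟨h1, h.cs.comp_isClosedEmbedding h2⟩ (R ^ 3)

lemma ip_pk {R : ℝ} (hR : 0 < R) (v w : V → V) : ip (pk R v) (pk R w) = ip v w := by
  have h0 : ip (pk R v) (pk R w) = R ^ 6 * ∫ y : V, dp (v (R ^ 2 • y)) (w (R ^ 2 • y)) := by
    rw [ip_eq, ← integral_const_mul]
    congr 1
    ext y
    unfold pk
    rw [dp_smul, dp_comm, dp_smul, dp_comm]
    ring
  rw [h0]
  have h1 := Measure.integral_comp_smul (μ := (volume : Measure V))
    (fun y => dp (v y) (w y)) (R ^ 2)
  rw [h1]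
  have h2 : Module.finrank ℝ V = 3 := by simp
  rw [h2]
  have h3 : |((R ^ 2) ^ 3)⁻¹| = (R ^ 6)⁻¹ := by
    rw [abs_of_pos (by positivity)]
    congr 1
    ring
  rw [h3, smul_eq_mul, ← mul_assoc, mul_inv_cancel₀ (by positivity), one_mul]
  rfl

lemma fderiv_pk {v : V → V} (h : Differentiable ℝ v) (R : ℝ) (y : V) :
    fderiv ℝ (pk R v) y = R ^ 5 • fderiv ℝ v (R ^ 2 • y) := by
  have h1 : HasFDerivAt (fun y : V => R ^ 2 • y) (R ^ 2 • ContinuousLinearMap.id ℝ V) y :=
    (hasFDerivAt_id (𝕜 := ℝ) y).fun_const_smul (R ^ 2)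
  have h2 : HasFDerivAt v (fderiv ℝ v (R ^ 2 • y)) (R ^ 2 • y) := (h _).hasFDerivAt
  have h3 := ((h2.comp y h1).fun_const_smul (R ^ 3)).fderiv
  have e : pk R v = fun y => R ^ 3 • (v ∘ fun y => R ^ 2 • y) y := rfl
  rw [e, h3]
  ext1 z
  simp only [smul_apply, ContinuousLinearMap.comp_apply, ContinuousLinearMap.id_apply, map_smul,
    smul_smul]
  congr 1
  ring

lemma adv_pk {a b : V → V} (hb : Differentiable ℝ b) (R : ℝ) :
    adv (pk R a) (pk R b) = fun y => R ^ 5 • pk R (adv a b) y := by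
  ext1 y
  simp only [adv, fderiv_pk hb, pk]
  rw [smul_apply, map_smul]

lemma Am_pk (v : V → V) (R : ℝ) : (fun y => Am (pk R v y)) = pk R (fun y => Am (v y)) := by
  ext1 y
  simp only [pk, Am_smul]

lemma divg_pk {v : V → V} (h : Differentiable ℝ v) (hd : ∀ y, divg v y = 0) (R : ℝ) (y : V) :
    divg (pk R v) y = 0 := by
  have h1 := hd (R ^ 2 • y)
  simp only [divg, fderiv_pk h] at h1 ⊢
  simp only [smul_apply, Pi.smul_apply, smul_eq_mul, ← Finset.mul_sum, h1, mul_zero]

/-! ### Packets -/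

section packets

variable {φ : V → V} {ρ : ℝ}

lemma Sφ (h : Pk φ ρ) : Sm φ := Sm.of_out h.sm h.out

lemma Dφ_out (h : Pk φ ρ) {y : V} (hy : 1 / 2 ≤ ‖y‖) : fderiv ℝ φ y = 0 := by
  have hcl : IsClosed {z : V | fderiv ℝ φ z = 0} :=
    isClosed_eq ((cd_fderiv h.sm).continuous) continuous_const
  have hsub : (Metric.closedBall (0 : V) (1 / 2))ᶜ ⊆ {z : V | fderiv ℝ φ z = 0} := by
    intro z hz
    have h1 : φ =ᶠ[𝓝 z] fun _ => 0 := by
      filter_upwards [Metric.isClosed_closedBall.isOpen_compl.mem_nhds hz] with x hx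
      refine h.out x ?_
      simp only [mem_compl_iff, Metric.mem_closedBall, dist_zero_right, not_le] at hx
      exact hx.le
    change fderiv ℝ φ z = 0
    rw [h1.fderiv_eq]
    simp
  have h2 := closure_minimal hsub hcl
  rw [closure_compl, interior_closedBall (0 : V) (by norm_num : (1 / 2 : ℝ) ≠ 0)] at h2
  exact h2 (by simpa using hy)

lemma pk_out (h : Pk φ ρ) {R : ℝ} {y : V} (hy : 1 / 2 ≤ R ^ 2 * ‖y‖) : pk R φ y = 0 := by
  unfold pk
  rw [h.out _ (by rwa [norm_smul, Real.norm_of_nonneg (sq_nonneg R)]), smul_zero]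

lemma Dpk_out (h : Pk φ ρ) {R : ℝ} {y : V} (hy : 1 / 2 ≤ R ^ 2 * ‖y‖) :
    fderiv ℝ (pk R φ) y = 0 := by
  rw [fderiv_pk (Sφ h).diff, Dφ_out h (by rwa [norm_smul, Real.norm_of_nonneg (sq_nonneg R)]),
    smul_zero]

lemma φ_lin (h : Pk φ ρ) {y : V} (hy : ‖y‖ < ρ) : fderiv ℝ φ y = AL := by
  have h1 : φ =ᶠ[𝓝 y] AL := by
    have : {z : V | ‖z‖ < ρ} ∈ 𝓝 y := (isOpen_lt continuous_norm continuous_const).mem_nhds hy
    filter_upwards [this] with z hz
    exact h.lin z hz
  rw [h1.fderiv_eq]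
  exact AL.fderiv

lemma reg (h : Pk φ ρ) {r s : ℝ} (hrs : r ^ 2 ≤ 2 * ρ * s ^ 2) {y : V}
    (hy : s ^ 2 * ‖y‖ < 1 / 2) : ‖r ^ 2 • y‖ < ρ := by
  rw [norm_smul, Real.norm_of_nonneg (sq_nonneg r)]
  have h0 := h.ρ0
  calc r ^ 2 * ‖y‖ ≤ 2 * ρ * s ^ 2 * ‖y‖ := mul_le_mul_of_nonneg_right hrs (norm_nonneg y)
    _ = 2 * ρ * (s ^ 2 * ‖y‖) := by ring
    _ < 2 * ρ * (1 / 2) := by
        refine mul_lt_mul_of_pos_left hy (by linarith)
    _ = ρ := by ring

/-- the packet with the larger scale is linear on the support of the packet with smaller scale -/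
lemma pk_lin (h : Pk φ ρ) {r s : ℝ} (hrs : r ^ 2 ≤ 2 * ρ * s ^ 2) {y : V}
    (hy : s ^ 2 * ‖y‖ < 1 / 2) : pk r φ y = r ^ 5 • Am y ∧ fderiv ℝ (pk r φ) y = r ^ 5 • AL := by
  have h1 := reg h hrs hy
  constructor
  · unfold pk
    rw [h.lin _ h1, Am_smul, smul_smul]
    congr 1
    ring
  · rw [fderiv_pk (Sφ h).diff, φ_lin h h1]

/-- test with the packet of larger scale -/
lemma ip_lin (h : Pk φ ρ) {r s : ℝ} (hrs : r ^ 2 ≤ 2 * ρ * s ^ 2) {F : V → V}
    (hF : ∀ y, 1 / 2 ≤ s ^ 2 * ‖y‖ → F y = 0) : ip (pk r φ) F = r ^ 5 * ip Am F := by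
  rw [← ip_smul_left]
  simp only [ip_eq]
  congr 1
  ext y
  rcases le_or_gt (1 / 2) (s ^ 2 * ‖y‖) with hy | hy
  · rw [hF y hy, dp_zero_right, dp_zero_right]
  · rw [(pk_lin h hrs hy).1]

lemma ip_congr_supp (h : Pk φ ρ) {s : ℝ} {F G : V → V}
    (hF : ∀ y, s ^ 2 * ‖y‖ < 1 / 2 → F y = G y) : ip (pk s φ) F = ip (pk s φ) G := by
  simp only [ip_eq]
  congr 1
  ext y
  rcases le_or_gt (1 / 2) (s ^ 2 * ‖y‖) with hy | hy
  · rw [pk_out h hy, dp_zero_left, dp_zero_left]
  · rw [hF y hy]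

variable (h : Pk φ ρ)

include h

lemma Spk {R : ℝ} (hR : 0 < R) : Sm (pk R φ) := (Sφ h).cpk hR

lemma div_pk (R : ℝ) (y : V) : divg (pk R φ) y = 0 := divg_pk (Sφ h).diff h.div R y

omit h in
/-- `b` -/
lemma ip_Ab {R : ℝ} (hR : 0 < R) :
    ip (fun y => Am (pk R φ y)) (pk R φ) = ip (fun y => Am (φ y)) φ := by
  rw [Am_pk, ip_pk hR]

lemma N_lt {r s : ℝ} (hs : 0 < s) (hrs : r ^ 2 ≤ 2 * ρ * s ^ 2) :
    ip (pk r φ) (pk s φ) = 0 := by
  rw [ip_lin h hrs (fun y hy => pk_out h hy), ip_A (Spk h hs) (div_pk h s), mul_zero]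

/-! #### self-interaction -/

lemma E_eq {s : ℝ} (hs : 0 < s) : ip (pk s φ) (adv (pk s φ) (pk s φ)) = 0 := by
  have h0 := Spk h hs
  have h1 := ip_adv_anti (h0.sm.of_le (by simp)) (h0.sm.of_le (by simp)) (h0.sm.of_le (by simp))
    (div_pk h s) (Or.inl h0.cs)
  rw [ip_comm]
  linarith

lemma E_lt {r s : ℝ} (hs : 0 < s) (hrs : r ^ 2 ≤ 2 * ρ * s ^ 2) :
    ip (pk r φ) (adv (pk s φ) (pk s φ)) = r ^ 5 * -ip (fun y => Am (φ y)) φ := by
  have h0 := Spk h hs
  rw [ip_lin h hrs (fun y hy => by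
    unfold adv
    rw [pk_out h hy, map_zero])]
  congr 1
  rw [ip_comm, ip_adv_anti (c := Am) (h0.sm.of_le (by simp)) (h0.sm.of_le (by simp))
    AL.contDiff (div_pk h s) (Or.inl h0.cs)]
  have h1 : adv (pk s φ) Am = fun y => Am (pk s φ y) := by
    ext1 y
    unfold adv
    have h2 : fderiv ℝ Am y = AL := AL.fderiv
    rw [h2]
    rfl
  rw [h1, ip_Ab hs]

lemma E_gt {r s : ℝ} (hr : 0 < r) (hsr : s ^ 2 ≤ 2 * ρ * r ^ 2) :
    ip (pk r φ) (adv (pk s φ) (pk s φ)) = 0 := by
  have h1 : ip (pk r φ) (adv (pk s φ) (pk s φ)) =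
      ip (pk r φ) (fun y => (s ^ 5 * s ^ 5) • Am (Am y)) := by
    refine ip_congr_supp h fun y hy => ?_
    have h2 := pk_lin h hsr hy
    unfold adv
    rw [h2.1, h2.2, smul_apply, map_smul, smul_smul, AL_apply]
  rw [h1, ip_smul, ip_comm, ip_AA (Spk h hr) (div_pk h r), mul_zero]

/-! #### linear interaction -/

lemma L_eq {s : ℝ} (hs : 0 < s) :
    ip (pk s φ) (LL (pk s φ)) = ip (fun y => Am (φ y)) φ := by
  have h0 := Spk h hs
  rw [LL_eq, ip_add h0.cont h0.cadvA h0.cAm]
  have h1 := ip_adv_anti (a := Am) AL.contDiff (h0.sm.of_le (by simp)) (h0.sm.of_le (by simp))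
    div_Am (Or.inl h0.cs)
  have h2 : ip (pk s φ) (adv Am (pk s φ)) = 0 := by
    rw [ip_comm]
    linarith
  rw [h2, zero_add, ip_comm, ip_Ab hs]

lemma L_lt {r s : ℝ} (hs : 0 < s) (hrs : r ^ 2 ≤ 2 * ρ * s ^ 2) :
    ip (pk r φ) (LL (pk s φ)) = 0 := by
  have h0 := Spk h hs
  rw [ip_lin h hrs (fun y hy => by
    unfold LL
    rw [pk_out h hy, Dpk_out h hy, Am_zero, zero_apply, zero_add])]
  rw [LL_eq, ip_add (w := Am) AL.continuous h0.cadvA h0.cAm]
  have h1 : adv Am Am = fun y => Am (Am y) := by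
    ext1 y
    unfold adv
    have h2 : fderiv ℝ Am y = AL := AL.fderiv
    rw [h2]
    rfl
  have h2 : ip Am (adv Am (pk s φ)) = 0 := by
    rw [ip_comm, ip_adv_anti (a := Am) (c := Am) AL.contDiff (h0.sm.of_le (by simp)) AL.contDiff
      div_Am (Or.inl h0.cs), h1, ip_AA h0 (div_pk h s), neg_zero]
  have h3 : ip Am (fun y => Am (pk s φ y)) = 0 := by
    have := ip_Am Am (pk s φ)
    rw [← this]
    exact ip_AA h0 (div_pk h s)
  rw [h2, h3, add_zero, mul_zero]

lemma L_gt {r s : ℝ} (hr : 0 < r) (hsr : s ^ 2 ≤ 2 * ρ * r ^ 2) :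
    ip (pk r φ) (LL (pk s φ)) = 0 := by
  have h1 : ip (pk r φ) (LL (pk s φ)) = ip (pk r φ) (fun y => (2 * s ^ 5) • Am (Am y)) := by
    refine ip_congr_supp h fun y hy => ?_
    have h2 := pk_lin h hsr hy
    unfold LL
    rw [h2.1, h2.2, smul_apply, AL_apply, Am_smul, two_mul, add_smul]
  rw [h1, ip_smul, ip_comm, ip_AA (Spk h hr) (div_pk h r), mul_zero]

/-! #### the cross terms -/

lemma cross {r s : ℝ} (hrs : r ^ 2 ≤ 2 * ρ * s ^ 2) (y : V) :
    adv (pk r φ) (pk s φ) y + adv (pk s φ) (pk r φ) y = r ^ 5 • LL (pk s φ) y := by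
  unfold adv LL
  rcases le_or_gt (1 / 2) (s ^ 2 * ‖y‖) with hy | hy
  · rw [pk_out h hy, Dpk_out h hy]
    simp [Am_zero]
  · have h2 := pk_lin h hrs hy
    rw [h2.1, h2.2, smul_apply, map_smul, smul_add, AL_apply]

/-! #### the norm -/

lemma b_le_M : -ip (fun y => Am (φ y)) φ ≤ ip φ φ := by
  have h0 := Sφ h
  have h1 : -ip (fun y => Am (φ y)) φ = ∫ y, -dp (Am (φ y)) (φ y) := by
    rw [integral_neg]
    rfl
  rw [h1, ip_eq]
  refine integral_mono (integ h0.cAm.cont h0).neg (integ h0.cont h0) fun y => ?_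
  simp only [dp_eq, Am, Matrix.cons_val_zero, Matrix.cons_val_one, Matrix.cons_val]
  nlinarith [sq_nonneg (φ y 0), sq_nonneg (φ y 1), sq_nonneg (φ y 2)]

end packets

end B

/-- (B) The interactions of the packets. -/
theorem t_TBL : S_TBL := by
  intro φ ρ h
  have hb := h.bpos
  have hbM := B.b_le_M h
  set b : ℝ := -ip (fun y => Am (φ y)) φ with hbdef
  set M : ℝ := ip φ φ with hM
  have hb0 : 0 < b := by rw [hbdef]; linarith
  have hM0 : 0 < M := by linarith
  refine ⟨b / M, M, by positivity, hM0, ?_⟩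
  intro R hR1 hR2
  have hRp : ∀ n, 0 < R n := fun n => lt_of_lt_of_le one_pos (hR1 n)
  have hβ : b / M * M = b := div_mul_cancel₀ _ hM0.ne'
  have hmono : ∀ n, R n ^ 2 ≤ R (n + 1) ^ 2 := by
    intro n
    have h1 := hR2 n
    have h2 := h.ρ1
    have h3 : 2 * ρ * R (n + 1) ^ 2 ≤ 1 * R (n + 1) ^ 2 :=
      mul_le_mul_of_nonneg_right (by linarith) (sq_nonneg _)
    linarith
  have hmon : Monotone (fun n => R n ^ 2) := monotone_nat_of_le_succ hmono
  have hlt : ∀ m n, m < n → R m ^ 2 ≤ 2 * ρ * R n ^ 2 := by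
    intro m n hmn
    refine (hR2 m).trans ?_
    have h1 : R (m + 1) ^ 2 ≤ R n ^ 2 := hmon (Nat.succ_le_of_lt hmn)
    exact mul_le_mul_of_nonneg_left h1 (by have := h.ρ0; linarith)
  have hN : ∀ m n, ip (pk (R m) φ) (pk (R n) φ) = if m = n then M else 0 := by
    intro m n
    rcases lt_trichotomy m n with hmn | hmn | hmn
    · rw [if_neg hmn.ne, B.N_lt h (hRp n) (hlt m n hmn)]
    · rw [if_pos hmn, hmn, B.ip_pk (hRp n)]
    · rw [if_neg hmn.ne', B.ip_comm, B.N_lt h (hRp m) (hlt n m hmn)]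
  have hE : ∀ m n, ip (pk (R m) φ) (adv (pk (R n) φ) (pk (R n) φ)) =
      if m < n then R m ^ 5 * b else 0 := by
    intro m n
    rcases lt_trichotomy m n with hmn | hmn | hmn
    · rw [if_pos hmn, B.E_lt h (hRp n) (hlt m n hmn)]
    · rw [if_neg (by omega), hmn, B.E_eq h (hRp n)]
    · rw [if_neg (by omega), B.E_gt h (hRp m) (hlt n m hmn)]
  have hL : ∀ m n, ip (pk (R m) φ) (LL (pk (R n) φ)) = if m = n then -b else 0 := by
    intro m n
    rcases lt_trichotomy m n with hmn | hmn | hmn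
    · rw [if_neg hmn.ne, B.L_lt h (hRp n) (hlt m n hmn)]
    · rw [if_pos hmn, hmn, B.L_eq h (hRp n), hbdef, neg_neg]
    · rw [if_neg hmn.ne', B.L_gt h (hRp m) (hlt n m hmn)]
  have hS : ∀ n, B.Sm (pk (R n) φ) := fun n => B.Spk h (hRp n)
  have hSE : ∀ n, B.Sm (adv (pk (R n) φ) (pk (R n) φ)) := fun n => (hS n).cadv (hS n).sm
  refine ⟨hN, ?_, ?_, ?_⟩
  · intro m n
    rcases n with _ | n
    · change ip (pk (R m) φ) (adv (pk (R 0) φ) (pk (R 0) φ)) = 0
      rw [hE, if_neg (by omega)]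
    · change ip (pk (R m) φ) (fun y => adv (pk (R (n + 1)) φ) (pk (R (n + 1)) φ) y
        - adv (pk (R n) φ) (pk (R n) φ) y - (b / M * R n ^ 5) • pk (R n) φ y) = 0
      rw [B.ip_sub (hS m).cont ((hSE (n + 1)).sub (hSE n)) ((hS n).smul _),
        B.ip_sub (hS m).cont (hSE (n + 1)) (hSE n), B.ip_smul, hE, hE, hN]
      rcases lt_trichotomy m n with hmn | hmn | hmn
      · rw [if_pos (by omega), if_pos hmn, if_neg hmn.ne]
        ring
      · subst hmn
        rw [if_pos (by omega), if_neg (by omega), if_pos rfl]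
        linear_combination (-(R m ^ 5)) * hβ
      · rw [if_neg (by omega), if_neg (by omega), if_neg hmn.ne']
        ring
  · intro m n
    change ip (pk (R m) φ) (fun y => LL (pk (R n) φ) y + (b / M) • pk (R n) φ y) = 0
    rw [B.ip_add (hS m).cont (hS n).cLL ((hS n).smul _), B.ip_smul, hL, hN]
    rcases eq_or_ne m n with hmn | hmn
    · rw [if_pos hmn, if_pos hmn]
      linarith
    · rw [if_neg hmn, if_neg hmn]
      ring
  · intro m n hmn y
    exact B.cross h (hlt m n hmn) y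

end Pool.Agent.N264.EC
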