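import Pool.Agent.N264.EC.Def

/-!
# The series of packets (another proof of `S_SER`)
-/

open Set Filter Topology MeasureTheory
open scoped ContDiff

set_option autoImplicit false

namespace Pool.Agent.N264.EC

namespace C2

lemma pk_smooth {φ : V → V} (hφ : ContDiff ℝ ∞ φ) (R : ℝ) : ContDiff ℝ ∞ (pk R φ) := by
  unfold pk
  exact (hφ.comp (contDiff_const_smul (R ^ 2))).const_smul (R ^ 3)

lemma pk_iter {φ : V → V} (hφ : ContDiff ℝ ∞ φ) {R : ℝ} (hR : 0 ≤ R) (m : ℕ) (y : V) :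
    ‖iteratedFDeriv ℝ m (pk R φ) y‖ ≤ R ^ (3 + 2 * m) * ‖iteratedFDeriv ℝ m φ (R ^ 2 • y)‖ := by
  have h0 : pk R φ = fun z => R ^ 3 • (φ ∘ (R ^ 2 • ContinuousLinearMap.id ℝ V)) z := by
    funext z
    simp [pk]
  have h1 : ContDiffAt ℝ m (φ ∘ (R ^ 2 • ContinuousLinearMap.id ℝ V)) y :=
    ((hφ.comp (R ^ 2 • ContinuousLinearMap.id ℝ V).contDiff).of_le
      (by exact_mod_cast le_top)).contDiffAt
  rw [h0, iteratedFDeriv_const_smul_apply' h1,
    ContinuousLinearMap.iteratedFDeriv_comp_right (R ^ 2 • ContinuousLinearMap.id ℝ V) hφ y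
      (by exact_mod_cast le_top), norm_smul, Real.norm_eq_abs, abs_of_nonneg (pow_nonneg hR 3)]
  have h2 := (iteratedFDeriv ℝ m φ ((R ^ 2 • ContinuousLinearMap.id ℝ V) y)).norm_compContinuousLinearMap_le
    (fun _ : Fin m => R ^ 2 • ContinuousLinearMap.id ℝ V)
  have h3 : ∏ _i : Fin m, ‖R ^ 2 • ContinuousLinearMap.id ℝ V‖ ≤ (R ^ 2) ^ m := by
    rw [Finset.prod_const, Finset.card_univ, Fintype.card_fin]
    refine pow_le_pow_left₀ (norm_nonneg _) ?_ m
    rw [norm_smul, Real.norm_eq_abs, abs_of_nonneg (pow_nonneg hR 2)]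
    calc R ^ 2 * ‖ContinuousLinearMap.id ℝ V‖ ≤ R ^ 2 * 1 :=
          mul_le_mul_of_nonneg_left ContinuousLinearMap.norm_id_le (pow_nonneg hR 2)
      _ = R ^ 2 := mul_one _
  calc R ^ 3 * _ ≤ R ^ 3 * (‖iteratedFDeriv ℝ m φ ((R ^ 2 • ContinuousLinearMap.id ℝ V) y)‖ *
        (R ^ 2) ^ m) := by
        refine mul_le_mul_of_nonneg_left (h2.trans ?_) (pow_nonneg hR 3)
        exact mul_le_mul_of_nonneg_left h3 (norm_nonneg _)
    _ = R ^ (3 + 2 * m) * ‖iteratedFDeriv ℝ m φ (R ^ 2 • y)‖ := by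
        rw [pow_add, pow_mul]
        simp only [smul_apply, ContinuousLinearMap.id_apply]
        ring

lemma exists_bd {φ : V → V} (hφ : ContDiff ℝ ∞ φ) (ho : ∀ y, 1 / 2 ≤ ‖y‖ → φ y = 0) (m : ℕ) :
    ∃ C : ℝ, 0 ≤ C ∧ ∀ y, ‖iteratedFDeriv ℝ m φ y‖ ≤ C := by
  have hc : HasCompactSupport φ := by
    refine HasCompactSupport.intro (isCompact_closedBall (0 : V) (1 / 2)) fun y hy => ho y ?_
    rw [Metric.mem_closedBall, dist_zero_right, not_le] at hy
    exact hy.le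
  obtain ⟨C, hC⟩ := (hφ.continuous_iteratedFDeriv (m := m)
    (by exact_mod_cast le_top)).bounded_above_of_compact_support (hc.iteratedFDeriv m)
  exact ⟨max C 0, le_max_right _ _, fun y => (hC y).trans (le_max_left _ _)⟩

/-- bounds for the iterated derivatives of the profile -/
lemma pk_bd {φ : V → V} (hφ : ContDiff ℝ ∞ φ) (ho : ∀ y, 1 / 2 ≤ ‖y‖ → φ y = 0) (m : ℕ) :
    ∃ C : ℝ, 0 ≤ C ∧ ∀ R : ℝ, 0 ≤ R → ∀ y, ‖iteratedFDeriv ℝ m (pk R φ) y‖ ≤ R ^ (3 + 2 * m) * C := by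
  obtain ⟨C, hC0, hC⟩ := exists_bd hφ ho m
  exact ⟨C, hC0, fun R hR y => (pk_iter hφ hR m y).trans
    (mul_le_mul_of_nonneg_left (hC _) (pow_nonneg hR _))⟩

lemma R_pos {R : ℕ → ℝ} (hR : ∀ n, 2 ^ n ≤ R n) (n : ℕ) : 0 < R n :=
  lt_of_lt_of_le (pow_pos two_pos n) (hR n)

lemma inv_R_le {R : ℕ → ℝ} (hR : ∀ n, 2 ^ n ≤ R n) (n : ℕ) : (R n)⁻¹ ≤ (1 / 2 : ℝ) ^ n := by
  rw [one_div, inv_pow]
  exact inv_anti₀ (pow_pos two_pos n) (hR n)

lemma geo (M : ℝ) : Summable fun n : ℕ => M * (1 / 2 : ℝ) ^ n :=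
  (summable_geometric_of_lt_one (by norm_num) (by norm_num)).mul_left M

/-- `R ^ j |a| ≤ M (1/2)^n` if `R ^ (j+1) |a| ≤ M` -/
lemma dec_one {R : ℕ → ℝ} (hR : ∀ n, 2 ^ n ≤ R n) {j n : ℕ} {a M : ℝ}
    (h : R n ^ (j + 1) * |a| ≤ M) : R n ^ j * |a| ≤ M * (1 / 2 : ℝ) ^ n := by
  have h0 := R_pos hR n
  have hM : 0 ≤ M := le_trans (by positivity) h
  have h1 : R n ^ j * |a| = (R n ^ (j + 1) * |a|) * (R n)⁻¹ := by
    field_simp
    ring
  rw [h1]
  exact mul_le_mul h (inv_R_le hR n) (inv_nonneg.2 h0.le) hM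

/-- rapid decay for all times -/
def RapG (R : ℕ → ℝ) (x : ℕ → ℝ → ℝ) : Prop :=
  ∀ k j : ℕ, ∃ M : ℝ, ∀ t n, R n ^ j * |iteratedDeriv k (x n) t| ≤ M

lemma exists_cut {b' b : ℝ} (h : b' < b) : ∃ η : ℝ → ℝ, ContDiff ℝ ∞ η ∧ (∀ t ≤ b', η t = 1) ∧
    (∀ t, b ≤ t → η t = 0) ∧ ∀ k : ℕ, ∃ M : ℝ, 0 ≤ M ∧ ∀ t, |iteratedDeriv k η t| ≤ M := by
  have hb : 0 < b - b' := sub_pos.2 h
  have hs : ContDiff ℝ ∞ fun t : ℝ => Real.smoothTransition ((b - t) / (b - b')) :=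
    Real.smoothTransition.contDiff.comp ((contDiff_const.sub contDiff_id).div_const _)
  have h1 : ∀ t ≤ b', Real.smoothTransition ((b - t) / (b - b')) = 1 := fun t ht =>
    Real.smoothTransition.one_of_one_le ((one_le_div hb).2 (by linarith))
  have h0 : ∀ t, b ≤ t → Real.smoothTransition ((b - t) / (b - b')) = 0 := fun t ht =>
    Real.smoothTransition.zero_of_nonpos (div_nonpos_of_nonpos_of_nonneg (by linarith) hb.le)
  refine ⟨_, hs, h1, h0, fun k => ?_⟩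
  have hcont : Continuous (iteratedDeriv k fun t : ℝ => Real.smoothTransition ((b - t) / (b - b'))) :=
    hs.continuous_iteratedDeriv k (by exact_mod_cast le_top)
  obtain ⟨C, hC⟩ := (isCompact_Icc (a := b') (b := b)).exists_bound_of_continuousOn
    hcont.continuousOn
  refine ⟨max C 1, le_max_of_le_right zero_le_one, fun t => ?_⟩
  rcases lt_or_ge t b' with ht | ht
  · have e : (fun t : ℝ => Real.smoothTransition ((b - t) / (b - b'))) =ᶠ[𝓝 t] fun _ => 1 := by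
      filter_upwards [Iio_mem_nhds ht] with s hs
      exact h1 s (le_of_lt hs)
    rw [e.iteratedDeriv_eq k, iteratedDeriv_const]
    split_ifs
    · simp
    · simp
  · rcases lt_or_ge b t with ht' | ht'
    · have e : (fun t : ℝ => Real.smoothTransition ((b - t) / (b - b'))) =ᶠ[𝓝 t] fun _ => 0 := by
        filter_upwards [Ioi_mem_nhds ht'] with s hs
        exact h0 s (le_of_lt hs)
      rw [e.iteratedDeriv_eq k, iteratedDeriv_const]
      split_ifs
      · simp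
      · simp
    · exact (hC t ⟨ht, ht'⟩).trans (le_max_left _ _)

lemma rapG_cut {R : ℕ → ℝ} (hR : ∀ n, 2 ^ n ≤ R n) {x : ℕ → ℝ → ℝ} (hx : ∀ n, ContDiff ℝ ∞ (x n))
    (hr : RapI R x) {b : ℝ} (hb : b < 0) {η : ℝ → ℝ} (hη : ContDiff ℝ ∞ η)
    (h0 : ∀ t, b ≤ t → η t = 0) (hbd : ∀ k : ℕ, ∃ M : ℝ, 0 ≤ M ∧ ∀ t, |iteratedDeriv k η t| ≤ M) :
    RapG R fun n t => η t * x n t := by
  intro k j
  choose A hA0 hA using hbd
  choose B hB using fun i : ℕ => hr i j b hb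
  refine ⟨∑ i ∈ Finset.range (k + 1), (k.choose i : ℝ) * A i * |B (k - i)|, fun t n => ?_⟩
  have hRn := R_pos hR n
  rcases le_or_gt t b with ht | ht
  · have h1 := norm_iteratedFDeriv_mul_le (𝕜 := ℝ) (N := ∞) (n := k) hη (hx n) t
      (by exact_mod_cast le_top)
    simp only [norm_iteratedFDeriv_eq_norm_iteratedDeriv, Real.norm_eq_abs] at h1
    calc R n ^ j * |iteratedDeriv k (fun t => η t * x n t) t|
        ≤ R n ^ j * ∑ i ∈ Finset.range (k + 1), (k.choose i : ℝ) * |iteratedDeriv i η t| *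
          |iteratedDeriv (k - i) (x n) t| := mul_le_mul_of_nonneg_left h1 (by positivity)
      _ = ∑ i ∈ Finset.range (k + 1), (k.choose i : ℝ) * |iteratedDeriv i η t| *
          (R n ^ j * |iteratedDeriv (k - i) (x n) t|) := by
          rw [Finset.mul_sum]
          exact Finset.sum_congr rfl fun i _ => by ring
      _ ≤ ∑ i ∈ Finset.range (k + 1), (k.choose i : ℝ) * A i * |B (k - i)| := by
          refine Finset.sum_le_sum fun i _ => ?_
          refine mul_le_mul ?_ ((hB (k - i) t ht n).trans (le_abs_self _)) (by positivity)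
            (mul_nonneg (Nat.cast_nonneg _) (hA0 i))
          exact mul_le_mul_of_nonneg_left (hA i t) (Nat.cast_nonneg _)
  · have e : (fun t => η t * x n t) =ᶠ[𝓝 t] fun _ => 0 := by
      filter_upwards [Ioi_mem_nhds ht] with s hs
      rw [h0 s (le_of_lt hs), zero_mul]
    rw [e.iteratedDeriv_eq k, iteratedDeriv_const]
    have : 0 ≤ ∑ i ∈ Finset.range (k + 1), (k.choose i : ℝ) * A i * |B (k - i)| :=
      Finset.sum_nonneg fun i _ => mul_nonneg (mul_nonneg (Nat.cast_nonneg _) (hA0 i))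
        (abs_nonneg _)
    split_ifs
    · simpa using this
    · simpa using this

lemma hleI (m : ℕ) : ((m : ℕ) : WithTop ℕ∞) ≤ ((⊤ : ℕ∞) : WithTop ℕ∞) := by
  exact_mod_cast le_top

/-- the terms of the series -/
lemma term_bd {R : ℕ → ℝ} (hR : ∀ n, 2 ^ n ≤ R n) {φ : V → V} (hφ : ContDiff ℝ ∞ φ)
    (ho : ∀ y, 1 / 2 ≤ ‖y‖ → φ y = 0) {g : ℕ → ℝ → ℝ} (hg : ∀ n, ContDiff ℝ ∞ (g n))
    (hr : RapG R g) (k : ℕ) : ∃ M : ℝ, ∀ n (z : ℝ × V),
      ‖iteratedFDeriv ℝ k (fun z : ℝ × V => g n z.1 • pk (R n) φ z.2) z‖ ≤ M * (1 / 2 : ℝ) ^ n := by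
  choose A hA0 hA using pk_bd hφ ho
  choose B hB using fun i j : ℕ => hr i (j + 1)
  refine ⟨∑ i ∈ Finset.range (k + 1), (k.choose i : ℝ) * (B i (3 + 2 * (k - i)) * A (k - i)),
    fun n z => ?_⟩
  have hRn := R_pos hR n
  have c1 : ContDiff ℝ ∞ fun z : ℝ × V => g n z.1 := (hg n).comp contDiff_fst
  have c2 : ContDiff ℝ ∞ fun z : ℝ × V => pk (R n) φ z.2 := (pk_smooth hφ _).comp contDiff_snd
  have h1 := norm_iteratedFDeriv_smul_le (𝕜 := ℝ) (N := ∞) (n := k) c1 c2 z (by exact_mod_cast le_top)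
  refine h1.trans ?_
  rw [Finset.sum_mul]
  refine Finset.sum_le_sum fun i _ => ?_
  have b1 : ‖iteratedFDeriv ℝ i (fun z : ℝ × V => g n z.1) z‖ ≤ |iteratedDeriv i (g n) z.1| := by
    have e : (fun z : ℝ × V => g n z.1) = g n ∘ (ContinuousLinearMap.fst ℝ ℝ V) := rfl
    rw [e, ContinuousLinearMap.iteratedFDeriv_comp_right (ContinuousLinearMap.fst ℝ ℝ V) (hg n) z
      (by exact_mod_cast le_top)]
    refine (ContinuousMultilinearMap.norm_compContinuousLinearMap_le _ _).trans ?_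
    have h3 : ∏ _i : Fin i, ‖ContinuousLinearMap.fst ℝ ℝ V‖ ≤ 1 :=
      Finset.prod_le_one (fun _ _ => norm_nonneg _) fun _ _ => ContinuousLinearMap.norm_fst_le _ _ _
    calc _ ≤ ‖iteratedFDeriv ℝ i (g n) (ContinuousLinearMap.fst ℝ ℝ V z)‖ * 1 :=
          mul_le_mul_of_nonneg_left h3 (norm_nonneg _)
      _ = |iteratedDeriv i (g n) z.1| := by
          rw [mul_one, norm_iteratedFDeriv_eq_norm_iteratedDeriv, Real.norm_eq_abs]
          rfl
  have b2 : ‖iteratedFDeriv ℝ (k - i) (fun z : ℝ × V => pk (R n) φ z.2) z‖ ≤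
      R n ^ (3 + 2 * (k - i)) * A (k - i) := by
    have e : (fun z : ℝ × V => pk (R n) φ z.2) = pk (R n) φ ∘ (ContinuousLinearMap.snd ℝ ℝ V) := rfl
    rw [e, ContinuousLinearMap.iteratedFDeriv_comp_right (ContinuousLinearMap.snd ℝ ℝ V)
      (pk_smooth hφ _) z (hleI (k - i))]
    refine (ContinuousMultilinearMap.norm_compContinuousLinearMap_le _ _).trans ?_
    have h3 : ∏ _i : Fin (k - i), ‖ContinuousLinearMap.snd ℝ ℝ V‖ ≤ 1 :=
      Finset.prod_le_one (fun _ _ => norm_nonneg _) fun _ _ => ContinuousLinearMap.norm_snd_le _ _ _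
    calc _ ≤ ‖iteratedFDeriv ℝ (k - i) (pk (R n) φ) (ContinuousLinearMap.snd ℝ ℝ V z)‖ * 1 :=
          mul_le_mul_of_nonneg_left h3 (norm_nonneg _)
      _ ≤ _ := by
          rw [mul_one]
          exact hA _ _ hRn.le _
  calc (k.choose i : ℝ) * ‖iteratedFDeriv ℝ i (fun z : ℝ × V => g n z.1) z‖ *
        ‖iteratedFDeriv ℝ (k - i) (fun z : ℝ × V => pk (R n) φ z.2) z‖
      ≤ (k.choose i : ℝ) * |iteratedDeriv i (g n) z.1| * (R n ^ (3 + 2 * (k - i)) * A (k - i)) := by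
        refine mul_le_mul (mul_le_mul_of_nonneg_left b1 (Nat.cast_nonneg _)) b2 (norm_nonneg _)
          (by positivity)
    _ = (k.choose i : ℝ) * ((R n ^ (3 + 2 * (k - i)) * |iteratedDeriv i (g n) z.1|) * A (k - i)) := by
        ring
    _ ≤ (k.choose i : ℝ) * ((B i (3 + 2 * (k - i)) * (1 / 2 : ℝ) ^ n) * A (k - i)) := by
        refine mul_le_mul_of_nonneg_left (mul_le_mul_of_nonneg_right ?_ (hA0 _)) (Nat.cast_nonneg _)
        exact dec_one hR (hB i (3 + 2 * (k - i)) z.1 n)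
    _ = (k.choose i : ℝ) * (B i (3 + 2 * (k - i)) * A (k - i)) * (1 / 2 : ℝ) ^ n := by ring

lemma smooth_G {R : ℕ → ℝ} (hR : ∀ n, 2 ^ n ≤ R n) {φ : V → V} (hφ : ContDiff ℝ ∞ φ)
    (ho : ∀ y, 1 / 2 ≤ ‖y‖ → φ y = 0) {g : ℕ → ℝ → ℝ} (hg : ∀ n, ContDiff ℝ ∞ (g n))
    (hr : RapG R g) : ContDiff ℝ ∞ (fun z : ℝ × V => ser R φ (fun n => g n z.1) z.2) := by
  choose M hM using term_bd hR hφ ho hg hr
  unfold ser
  refine contDiff_tsum (v := fun k n => M k * (1 / 2 : ℝ) ^ n) (fun n => ?_) (fun k _ => geo _)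
    (fun k n z _ => hM k n z)
  exact ((hg n).comp contDiff_fst).smul ((pk_smooth hφ _).comp contDiff_snd)

lemma first {R : ℕ → ℝ} (hR : ∀ n, 2 ^ n ≤ R n) {φ : V → V} (hφ : ContDiff ℝ ∞ φ)
    (ho : ∀ y, 1 / 2 ≤ ‖y‖ → φ y = 0) {x : ℕ → ℝ → ℝ} (hx : ∀ n, ContDiff ℝ ∞ (x n)) :
    ContDiffOn ℝ ∞ (fun z : ℝ × V => ser R φ (fun n => x n z.1) z.2) (univ ×ˢ {y | y ≠ 0}) := by
  rintro ⟨t₀, y₀⟩ ⟨-, hy₀⟩
  refine ContDiffAt.contDiffWithinAt ?_
  have hy : 0 < ‖y₀‖ := norm_pos_iff.2 hy₀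
  obtain ⟨N, hN⟩ := pow_unbounded_of_one_lt (1 / ‖y₀‖) (one_lt_two : (1 : ℝ) < 2)
  have key : (fun z : ℝ × V => ser R φ (fun n => x n z.1) z.2) =ᶠ[𝓝 (t₀, y₀)]
      fun z => ∑ n ∈ Finset.range N, x n z.1 • pk (R n) φ z.2 := by
    have hopen : IsOpen {z : ℝ × V | ‖y₀‖ / 2 < ‖z.2‖} :=
      isOpen_lt continuous_const continuous_snd.norm
    filter_upwards [hopen.mem_nhds (show ‖y₀‖ / 2 < ‖y₀‖ by linarith)] with z hz
    unfold ser
    refine tsum_eq_sum fun n hn => ?_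
    have hn' : N ≤ n := by simpa using hn
    have h2 : pk (R n) φ z.2 = 0 := by
      unfold pk
      rw [ho, smul_zero]
      rw [norm_smul, Real.norm_eq_abs, abs_of_nonneg (sq_nonneg _)]
      have h3 : (2 : ℝ) ^ N ≤ R n := (pow_le_pow_right₀ one_le_two hn').trans (hR n)
      have h4 : 1 / ‖y₀‖ < R n := lt_of_lt_of_le hN h3
      have h5 : 1 ≤ R n := le_trans (one_le_pow₀ one_le_two) (hR n)
      have h6 : R n ≤ R n ^ 2 := by nlinarith
      have h7 : 1 < R n * ‖y₀‖ := by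
        rw [div_lt_iff₀ hy] at h4
        exact h4
      have hz' : ‖y₀‖ / 2 < ‖z.2‖ := hz
      calc (1 / 2 : ℝ) ≤ R n * (‖y₀‖ / 2) := by linarith
        _ ≤ R n ^ 2 * ‖z.2‖ := mul_le_mul h6 hz'.le (by positivity) (by positivity)
    rw [h2, smul_zero]
  refine ContDiffAt.congr_of_eventuallyEq ?_ key
  exact (ContDiff.sum fun n _ => ((hx n).comp contDiff_fst).smul
    ((pk_smooth hφ _).comp contDiff_snd)).contDiffAt

lemma rapI_summable {R : ℕ → ℝ} (hR : ∀ n, 2 ^ n ≤ R n) {x : ℕ → ℝ → ℝ} (hr : RapI R x) (k j : ℕ)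
    {b : ℝ} (hb : b < 0) : ∃ M : ℝ, ∀ t ≤ b, ∀ n,
      R n ^ j * |iteratedDeriv k (x n) t| ≤ M * (1 / 2 : ℝ) ^ n := by
  obtain ⟨M, hM⟩ := hr k (j + 1) b hb
  exact ⟨M, fun t ht n => dec_one hR (hM t ht n)⟩

theorem t_SER : S_SER := by
  intro R φ hR hφ ho
  obtain ⟨A, hA0, hA⟩ := pk_bd hφ ho 0
  have hA' : ∀ n y, ‖pk (R n) φ y‖ ≤ R n ^ 3 * A := fun n y => by
    have := hA (R n) (R_pos hR n).le y
    rwa [norm_iteratedFDeriv_zero, mul_zero, add_zero] at this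
  obtain ⟨A1, hA10, hA1⟩ := pk_bd hφ ho 1
  have hA1' : ∀ n y, ‖fderiv ℝ (pk (R n) φ) y‖ ≤ R n ^ 5 * A1 := fun n y => by
    have := hA1 (R n) (R_pos hR n).le y
    rwa [norm_iteratedFDeriv_one] at this
  refine ⟨fun x hx => ⟨first hR hφ ho hx, fun hr => ⟨?_, ?_, ?_, ?_⟩⟩, ?_⟩
  · rintro ⟨t₀, y₀⟩ ⟨ht₀, -⟩
    have ht₀' : t₀ < 0 := ht₀
    refine ContDiffAt.contDiffWithinAt ?_
    obtain ⟨η, hη, h1, h0, hbd⟩ := exists_cut (b' := t₀ / 2) (b := t₀ / 4) (by linarith)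
    have hg := smooth_G hR hφ ho (fun n => hη.mul (hx n))
      (rapG_cut hR hx hr (by linarith : t₀ / 4 < 0) hη h0 hbd)
    refine hg.contDiffAt.congr_of_eventuallyEq ?_
    have hopen : IsOpen {z : ℝ × V | z.1 < t₀ / 2} := isOpen_lt continuous_fst continuous_const
    filter_upwards [hopen.mem_nhds (show t₀ < t₀ / 2 by linarith)] with z hz
    have e : η z.1 = 1 := h1 _ (le_of_lt hz)
    simp only [e, one_mul]
  · intro t ht y
    obtain ⟨M, hM⟩ := rapI_summable hR hr 0 3 ht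
    refine (Summable.of_norm_bounded ((geo M).mul_right A) fun n => ?_).hasSum
    have h1 := hM t le_rfl n
    rw [iteratedDeriv_zero] at h1
    rw [norm_smul, Real.norm_eq_abs]
    calc |x n t| * ‖pk (R n) φ y‖ ≤ |x n t| * (R n ^ 3 * A) :=
          mul_le_mul_of_nonneg_left (hA' n y) (abs_nonneg _)
      _ = (R n ^ 3 * |x n t|) * A := by ring
      _ ≤ _ := mul_le_mul_of_nonneg_right h1 hA0
  · intro t ht y
    obtain ⟨M, hM⟩ := rapI_summable hR hr 1 3 (show t / 2 < 0 by linarith)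
    obtain ⟨M0, hM0⟩ := rapI_summable hR hr 0 3 (show t / 2 < 0 by linarith)
    have hbd : ∀ n, ∀ s ∈ Iio (t / 2), ‖deriv (x n) s • pk (R n) φ y‖ ≤ M * (1 / 2 : ℝ) ^ n * A := by
      intro n s hs
      have h1 := hM s (le_of_lt hs) n
      rw [iteratedDeriv_one] at h1
      rw [norm_smul, Real.norm_eq_abs]
      calc |deriv (x n) s| * ‖pk (R n) φ y‖ ≤ |deriv (x n) s| * (R n ^ 3 * A) :=
            mul_le_mul_of_nonneg_left (hA' n y) (abs_nonneg _)
        _ = (R n ^ 3 * |deriv (x n) s|) * A := by ring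
        _ ≤ _ := mul_le_mul_of_nonneg_right h1 hA0
    have hts : t ∈ Iio (t / 2) := by
      show t < t / 2
      linarith
    have hd := hasDerivAt_tsum_of_isPreconnected (u := fun n => M * (1 / 2 : ℝ) ^ n * A)
      (g := fun n s => x n s • pk (R n) φ y) (g' := fun n s => deriv (x n) s • pk (R n) φ y)
      (t := Iio (t / 2)) (y₀ := t) (y := t) ((geo M).mul_right A) isOpen_Iio
      isPreconnected_Iio (fun n s _ => (((hx n).differentiable (by simp) s).hasDerivAt.smul_const _))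
      hbd hts ?_ hts
    · have h2 : deriv (fun s => ser R φ (fun n => x n s) y) t =
          ∑' n, deriv (x n) t • pk (R n) φ y := hd.deriv
      rw [h2]
      exact (Summable.of_norm_bounded ((geo M).mul_right A) fun n => hbd n t hts).hasSum
    · refine Summable.of_norm_bounded ((geo M0).mul_right A) fun n => ?_
      have h1 := hM0 t (le_of_lt hts) n
      rw [iteratedDeriv_zero] at h1
      rw [norm_smul, Real.norm_eq_abs]
      calc |x n t| * ‖pk (R n) φ y‖ ≤ |x n t| * (R n ^ 3 * A) :=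
            mul_le_mul_of_nonneg_left (hA' n y) (abs_nonneg _)
        _ = (R n ^ 3 * |x n t|) * A := by ring
        _ ≤ _ := mul_le_mul_of_nonneg_right h1 hA0
  · intro t ht y
    obtain ⟨M, hM⟩ := rapI_summable hR hr 0 5 ht
    obtain ⟨M0, hM0⟩ := rapI_summable hR hr 0 3 ht
    have hbd : ∀ n (z : V), ‖x n t • fderiv ℝ (pk (R n) φ) z‖ ≤ M * (1 / 2 : ℝ) ^ n * A1 := by
      intro n z
      have h1 := hM t le_rfl n
      rw [iteratedDeriv_zero] at h1
      rw [norm_smul, Real.norm_eq_abs]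
      calc |x n t| * ‖fderiv ℝ (pk (R n) φ) z‖ ≤ |x n t| * (R n ^ 5 * A1) :=
            mul_le_mul_of_nonneg_left (hA1' n z) (abs_nonneg _)
        _ = (R n ^ 5 * |x n t|) * A1 := by ring
        _ ≤ _ := mul_le_mul_of_nonneg_right h1 hA10
    have hd := hasFDerivAt_tsum (u := fun n => M * (1 / 2 : ℝ) ^ n * A1)
      (f := fun n z => x n t • pk (R n) φ z) (f' := fun n z => x n t • fderiv ℝ (pk (R n) φ) z)
      (x₀ := y) ((geo M).mul_right A1)
      (fun n z => (((pk_smooth hφ (R n)).differentiable (by simp) z).hasFDerivAt.const_smul (x n t)))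
      hbd ?_ y
    · have h2 : fderiv ℝ (ser R φ (fun n => x n t)) y =
          ∑' n, x n t • fderiv ℝ (pk (R n) φ) y := hd.fderiv
      rw [h2]
      exact (Summable.of_norm_bounded ((geo M).mul_right A1) fun n => hbd n y).hasSum
    · refine Summable.of_norm_bounded ((geo M0).mul_right A) fun n => ?_
      have h1 := hM0 t le_rfl n
      rw [iteratedDeriv_zero] at h1
      rw [norm_smul, Real.norm_eq_abs]
      calc |x n t| * ‖pk (R n) φ y‖ ≤ |x n t| * (R n ^ 3 * A) :=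
            mul_le_mul_of_nonneg_left (hA' n y) (abs_nonneg _)
        _ = (R n ^ 3 * |x n t|) * A := by ring
        _ ≤ _ := mul_le_mul_of_nonneg_right h1 hA0
  · intro k
    choose B hB0 hB using pk_bd hφ ho
    refine ⟨3 + 2 * k, B k, fun a ha y => ?_⟩
    have hb : ∀ (m n : ℕ) (z : V), ‖iteratedFDeriv ℝ m (fun w => a n • pk (R n) φ w) z‖ ≤
        R n ^ (3 + 2 * m) * |a n| * B m := by
      intro m n z
      rw [iteratedFDeriv_const_smul_apply' ((pk_smooth hφ (R n)).of_le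
        (by exact_mod_cast le_top)).contDiffAt, norm_smul, Real.norm_eq_abs]
      calc |a n| * ‖iteratedFDeriv ℝ m (pk (R n) φ) z‖ ≤ |a n| * (R n ^ (3 + 2 * m) * B m) :=
            mul_le_mul_of_nonneg_left (hB m (R n) (R_pos hR n).le z) (abs_nonneg _)
        _ = _ := by ring
    have h1 : iteratedFDeriv ℝ k (ser R φ a) y =
        ∑' n, iteratedFDeriv ℝ k (fun w => a n • pk (R n) φ w) y := by
      have h2 := iteratedFDeriv_tsum (𝕜 := ℝ) (N := ⊤) (f := fun n w => a n • pk (R n) φ w)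
        (v := fun m n => R n ^ (3 + 2 * m) * |a n| * B m)
        (fun n => (pk_smooth hφ (R n)).const_smul (a n)) (fun m _ => (ha _).mul_right _)
        (fun m n z _ => hb m n z) (k := k) le_top
      exact congrFun h2 y
    rw [h1]
    have hs : Summable fun n => R n ^ (3 + 2 * k) * |a n| * B k := (ha _).mul_right _
    calc ‖∑' n, iteratedFDeriv ℝ k (fun w => a n • pk (R n) φ w) y‖
        ≤ ∑' n, R n ^ (3 + 2 * k) * |a n| * B k :=
          tsum_of_norm_bounded hs.hasSum fun n => hb k n y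
      _ = B k * ∑' n, R n ^ (3 + 2 * k) * |a n| := by
          rw [tsum_mul_right, mul_comm]

end C2

end Pool.Agent.N264.EC
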