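import Pool.Agent.N264.EC.Def

/-!
Task TE/D: the periodic extension on the torus.
-/

set_option autoImplicit false

namespace Pool.Agent.N264.EC

open MeasureTheory Filter Topology Set

namespace D

theorem half_le_pi : (1 : ℝ) / 2 ≤ Real.pi := by
  have := Real.pi_gt_three
  linarith

theorem lemA (t : ℝ) (k : ℤ) (h : round (t / (2 * Real.pi)) ≠ k) :
    Real.pi ≤ |t - 2 * Real.pi * (k : ℝ)| := by
  by_contra hc
  push Not at hc
  apply h
  have hpi := Real.pi_pos
  have h2 : t / (2 * Real.pi) - (k : ℝ) = (t - 2 * Real.pi * (k : ℝ)) / (2 * Real.pi) := by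
    field_simp
  have h3 : round (t / (2 * Real.pi) - (k : ℝ)) = 0 := by
    rw [round_eq_zero_iff, h2]
    rw [abs_lt] at hc
    constructor
    · rw [le_div_iff₀ (by positivity)]; linarith
    · rw [div_lt_iff₀ (by positivity)]; linarith
  rw [round_sub_intCast] at h3
  linarith

theorem lemB (t : ℝ) (k : ℤ) (h : round (t / (2 * Real.pi)) ≠ k)
    (h1 : |t - 2 * Real.pi * (k : ℝ)| ≤ Real.pi + 1 / 2) :
    1 / 2 ≤ |t - 2 * Real.pi * ((round (t / (2 * Real.pi)) : ℤ) : ℝ)| := by
  set m := round (t / (2 * Real.pi)) with hm
  have hpi := Real.pi_gt_three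
  have h2 : (1 : ℝ) ≤ |((m - k : ℤ) : ℝ)| := by
    have : (1 : ℤ) ≤ |m - k| := Int.one_le_abs (sub_ne_zero.2 h)
    exact_mod_cast this
  have h3 : 2 * Real.pi ≤ |2 * Real.pi * ((m - k : ℤ) : ℝ)| := by
    rw [abs_mul, abs_of_pos (by positivity : 0 < 2 * Real.pi)]
    nlinarith
  have h4 : 2 * Real.pi * ((m - k : ℤ) : ℝ) =
      (t - 2 * Real.pi * (k : ℝ)) - (t - 2 * Real.pi * (m : ℝ)) := by
    push_cast; ring
  rw [h4] at h3
  have h5 := abs_sub (t - 2 * Real.pi * (k : ℝ)) (t - 2 * Real.pi * (m : ℝ))
  linarith

theorem red_add (i : Fin 3) (x : V) : red (x + Pi.single i (2 * Real.pi)) = red x := by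
  have hpi := Real.pi_pos
  funext j
  unfold red
  by_cases h : j = i
  · subst h
    have e : (x + (Pi.single j (2 * Real.pi) : V)) j = x j + 2 * Real.pi := by simp
    rw [e]
    have e2 : (x j + 2 * Real.pi) / (2 * Real.pi) = x j / (2 * Real.pi) + 1 := by
      field_simp
    rw [e2, round_add_one]
    push_cast; ring
  · have e : (x + (Pi.single i (2 * Real.pi) : V)) j = x j := by simp [h]
    rw [e]

theorem per_torus (v : V → V) (hv : ∀ y, 1 / 2 ≤ ‖y‖ → v y = 0) {x : V} (hx : x ∈ torus) :
    per v x = v x := by
  have hpi := Real.pi_gt_three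
  unfold per
  by_cases h : ∀ i, round (x i / (2 * Real.pi)) = 0
  · have : red x = x := by
      funext i; unfold red; rw [h i]; simp
    rw [this]
  · push Not at h
    obtain ⟨i, hi⟩ := h
    have hA := lemA (x i) 0 hi
    have hxi : |x i - 2 * Real.pi * ((0 : ℤ) : ℝ)| ≤ Real.pi + 1 / 2 := by
      have h1 := hx.1 i
      have h2 := hx.2 i
      simp only at h1 h2
      have : |x i| ≤ Real.pi := abs_le.2 ⟨h1, h2⟩
      simp only [Int.cast_zero, mul_zero, sub_zero]
      linarith
    have hB := lemB (x i) 0 hi hxi
    have e1 : v x = 0 := by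
      apply hv
      refine le_trans ?_ (norm_le_pi_norm x i)
      rw [Real.norm_eq_abs]
      simp only [Int.cast_zero, mul_zero, sub_zero] at hA
      linarith
    have e2 : v (red x) = 0 := by
      apply hv
      refine le_trans ?_ (norm_le_pi_norm (red x) i)
      rw [Real.norm_eq_abs]
      exact hB
    rw [e1, e2]

theorem zero_off (v : V → V) (hv : ∀ y, 1 / 2 ≤ ‖y‖ → v y = 0) {x : V} (hx : x ∉ torus) :
    v x = 0 := by
  have hpi := Real.pi_gt_three
  apply hv
  by_contra hc
  push Not at hc
  apply hx
  constructor <;> intro i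
  · have := norm_le_pi_norm x i
    rw [Real.norm_eq_abs] at this
    have h2 := neg_abs_le (x i)
    simp only
    linarith
  · have := norm_le_pi_norm x i
    rw [Real.norm_eq_abs] at this
    have h2 := le_abs_self (x i)
    simp only
    linarith

end D

open D in
theorem t_TOR : S_TOR := by
  refine ⟨?_, ?_, ?_⟩
  · intro v i x
    unfold per
    rw [red_add]
  · intro v w hv
    constructor
    · unfold ipT ip
      have hm : MeasurableSet torus := measurableSet_Icc
      rw [setIntegral_congr_fun hm
        (g := fun x => ∑ i, v x i * w x i) (fun x hx => by simp only [per_torus v hv hx])]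
      apply setIntegral_eq_integral_of_forall_compl_eq_zero
      intro x hx
      simp [zero_off v hv hx]
    · unfold ipT ip
      apply setIntegral_eq_integral_of_forall_compl_eq_zero
      intro x hx
      simp [zero_off v hv hx]
  · intro x
    have hpi := Real.pi_gt_three
    refine ⟨fun i => round (x i / (2 * Real.pi)), ?_, ?_⟩
    · rw [pi_norm_le_iff_of_nonneg Real.pi_pos.le]
      intro i
      rw [Real.norm_eq_abs]
      have h1 := abs_sub_round (x i / (2 * Real.pi))
      have h2 : x i - 2 * Real.pi * ((round (x i / (2 * Real.pi)) : ℤ) : ℝ) =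
          2 * Real.pi * (x i / (2 * Real.pi) - ((round (x i / (2 * Real.pi)) : ℤ) : ℝ)) := by
        field_simp
      simp only [Pi.sub_apply]
      rw [h2, abs_mul, abs_of_pos (by positivity : 0 < 2 * Real.pi)]
      nlinarith
    · filter_upwards [Metric.ball_mem_nhds x (by norm_num : (0:ℝ) < 1 / 2)] with y hy
      rw [Metric.mem_ball, dist_eq_norm] at hy
      by_cases h : ∀ i, round (y i / (2 * Real.pi)) = round (x i / (2 * Real.pi))
      · left
        funext i
        unfold red
        rw [h i]
        rfl
      · right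
        push Not at h
        obtain ⟨i, hi⟩ := h
        have hA := lemA (y i) _ hi
        have hxy : |y i - x i| ≤ 1 / 2 := by
          have := norm_le_pi_norm (y - x) i
          rw [Real.norm_eq_abs] at this
          simp only [Pi.sub_apply] at this
          linarith
        have hx : |x i - 2 * Real.pi * ((round (x i / (2 * Real.pi)) : ℤ) : ℝ)| ≤ Real.pi := by
          have h1 := abs_sub_round (x i / (2 * Real.pi))
          have h2 : x i - 2 * Real.pi * ((round (x i / (2 * Real.pi)) : ℤ) : ℝ) =
              2 * Real.pi * (x i / (2 * Real.pi) - ((round (x i / (2 * Real.pi)) : ℤ) : ℝ)) := by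
            field_simp
          rw [h2, abs_mul, abs_of_pos (by positivity : 0 < 2 * Real.pi)]
          nlinarith
        have hB := lemB (y i) _ hi (by
          have e : y i - 2 * Real.pi * ((round (x i / (2 * Real.pi)) : ℤ) : ℝ) =
            (x i - 2 * Real.pi * ((round (x i / (2 * Real.pi)) : ℤ) : ℝ)) + (y i - x i) := by ring
          rw [e]
          have := abs_add_le (x i - 2 * Real.pi * ((round (x i / (2 * Real.pi)) : ℤ) : ℝ)) (y i - x i)
          linarith)
        constructor
        · refine le_trans ?_ (norm_le_pi_norm (red y) i)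
          rw [Real.norm_eq_abs]
          exact hB
        · refine le_trans ?_ (norm_le_pi_norm _ i)
          rw [Real.norm_eq_abs]
          simp only [Pi.sub_apply]
          linarith

end Pool.Agent.N264.EC
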