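import Mathlib

/-!
# Euler equations on `𝕋³` with sparse workless constraints: definitions and statements of the steps

The packets `pk (R n) φ y = (R n)³ φ((R n)² y)` have compact support and are exactly linear near the
origin, so that a packet with a larger scale is linear on the support of a packet with a smaller
scale. Modulo the constraint fields `r1 n`, `r2 n` the Euler equations for `u = ∑ x n (t) P n` become
`x n' = β (x n ∑_{m<n} (R m)⁵ x m - (R n)⁵ g (n+1)²)` with `g n² = ∑_{m≥n} x m²`, and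
`g n' = β g n ∑_{m<n} (R m)⁵ x m`: this system is triangular and can be solved explicitly.
-/

open Set Filter Topology MeasureTheory
open scoped ContDiff

set_option autoImplicit false

namespace Pool.Agent.N264.EC

/-- The space `ℝ³` (with the maximum norm). -/
abbrev V := Fin 3 → ℝ

/-- `f` is `2π`-periodic in each of the three coordinates, i.e. it is a function on
`𝕋³ = [-π, π]³` with opposite faces identified. -/
def Periodic3 {F : Type*} (f : V → F) : Prop :=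
  ∀ (i : Fin 3) (x : V), f (x + Pi.single i (2 * Real.pi)) = f x

/-- The torus `𝕋³ = [-π, π]³`. -/
def torus : Set V := Icc (fun _ => -Real.pi) (fun _ => Real.pi)

/-- `div v`. -/
noncomputable def divg (v : V → V) (x : V) : ℝ := ∑ i, fderiv ℝ v x (Pi.single i 1) i

/-- `(a · ∇) b`. -/
noncomputable def adv (a b : V → V) (x : V) : V := fderiv ℝ b x (a x)

/-- `∫ v · w` over `ℝ³`. -/
noncomputable def ip (v w : V → V) : ℝ := ∫ x, ∑ i, v x i * w x i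

/-- `∫ v · w` over `𝕋³`. -/
noncomputable def ipT (v w : V → V) : ℝ := ∫ x in torus, ∑ i, v x i * w x i

/-- Classical (`C¹`) solutions, for the times in the interval `I`, of the Euler equations on `𝕋³`
under the constraints `∫ u(t) · r i = 0`. -/
structure Sol {ι : Type} (r : ι → V → V) (I : Set ℝ) (u : ℝ → V → V) : Prop where
  c1 : ContDiffOn ℝ 1 (fun z : ℝ × V => u z.1 z.2) (I ×ˢ univ)
  per : ∀ t ∈ I, Periodic3 (u t)
  div : ∀ t ∈ I, ∀ x, divg (u t) x = 0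
  con : ∀ t ∈ I, ∀ i, ipT (u t) (r i) = 0
  eqn : ∀ t ∈ interior I, ∀ w : V → V, ContDiff ℝ 1 w → Periodic3 w → (∀ x, divg w x = 0) →
    (∀ i, ipT w (r i) = 0) →
    ipT (fun x => deriv (fun s => u s x) t + adv (u t) (u t) x) w = 0

/-! ### Packets -/

/-- `y ↦ (y₀, -y₁, 0)`. -/
noncomputable def Am (y : V) : V := ![y 0, -y 1, 0]

/-- `R³ v(R² y)`. -/
noncomputable def pk (R : ℝ) (v : V → V) (y : V) : V := R ^ 3 • v (R ^ 2 • y)

/-- The profile of the packets. -/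
structure Pk (φ : V → V) (ρ : ℝ) : Prop where
  sm : ContDiff ℝ ∞ φ
  div : ∀ y, divg φ y = 0
  out : ∀ y, 1 / 2 ≤ ‖y‖ → φ y = 0
  ρ0 : 0 < ρ
  ρ1 : ρ ≤ 1 / 2
  lin : ∀ y, ‖y‖ < ρ → φ y = Am y
  bpos : ip (fun y => Am (φ y)) φ < 0
  vor : ∃ y, fderiv ℝ φ y (Pi.single 0 1) 1 ≠ fderiv ℝ φ y (Pi.single 1 1) 0

/-- `(A y · ∇) v + A v`. -/
noncomputable def LL (v : V → V) (y : V) : V := fderiv ℝ v y (Am y) + Am (v y)

/-- The first constraint fields. -/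
noncomputable def r1 (β : ℝ) (R : ℕ → ℝ) (φ : V → V) : ℕ → V → V
  | 0 => adv (pk (R 0) φ) (pk (R 0) φ)
  | n + 1 => fun y => adv (pk (R (n + 1)) φ) (pk (R (n + 1)) φ) y
      - adv (pk (R n) φ) (pk (R n) φ) y - (β * R n ^ 5) • pk (R n) φ y

/-- The second constraint fields. -/
noncomputable def r2 (β : ℝ) (R : ℕ → ℝ) (φ : V → V) (n : ℕ) (y : V) : V :=
  LL (pk (R n) φ) y + β • pk (R n) φ y

/-- The interactions of the packets. -/
structure Tbl (φ : V → V) (β M : ℝ) (R : ℕ → ℝ) : Prop where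
  norm : ∀ m n, ip (pk (R m) φ) (pk (R n) φ) = if m = n then M else 0
  orth1 : ∀ m n, ip (pk (R m) φ) (r1 β R φ n) = 0
  orth2 : ∀ m n, ip (pk (R m) φ) (r2 β R φ n) = 0
  cross : ∀ m n, m < n → ∀ y, adv (pk (R m) φ) (pk (R n) φ) y + adv (pk (R n) φ) (pk (R m) φ) y =
    R m ^ 5 • LL (pk (R n) φ) y

/-! ### Series -/

/-- Rapid decay of all derivatives, uniformly on `(-∞, b]` for all `b < 0`. -/
def RapI (R : ℕ → ℝ) (x : ℕ → ℝ → ℝ) : Prop :=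
  ∀ k j : ℕ, ∀ b < (0 : ℝ), ∃ M : ℝ, ∀ t ≤ b, ∀ n, R n ^ j * |iteratedDeriv k (x n) t| ≤ M

/-- `∑ a n P n`. -/
noncomputable def ser (R : ℕ → ℝ) (v : V → V) (a : ℕ → ℝ) (y : V) : V := ∑' n, a n • pk (R n) v y

/-! ### The reduced system -/

/-- The parameters: scales `R n` and amplitudes `b n` of the velocity gradient. -/
structure Par (R b : ℕ → ℝ) : Prop where
  R0 : R 0 = 1
  R1 : ∀ n, 2 ^ n ≤ R n
  Rm : ∀ n, R n ≤ R (n + 1)
  b0 : ∀ n, 0 < b n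
  dec : ∀ n, b (n + 1) / R (n + 1) ^ 5 < b n / R n ^ 5
  big : Tendsto (fun n => ∑ m ∈ Finset.range n, b m) atTop atTop
  rap : ∀ j : ℕ, ∃ M, ∀ n,
    R (n + 1) ^ j * Real.exp (-(b n / (2 * (1 + ∑ m ∈ Finset.range n, b m)))) ≤ M

/-- The explicit solution of the reduced system; `t = 0` is the time of blow-up. -/
structure Dyn (β : ℝ) (R b : ℕ → ℝ) (x g : ℕ → ℝ → ℝ) : Prop where
  smx : ∀ n, ContDiff ℝ ∞ (x n)
  smg : ∀ n, ContDiff ℝ ∞ (g n)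
  eq : ∀ n t, HasDerivAt (x n)
    (β * (x n t * ∑ m ∈ Finset.range n, R m ^ 5 * x m t - R n ^ 5 * g (n + 1) t ^ 2)) t
  tel : ∀ n t, x n t ^ 2 = g n t ^ 2 - g (n + 1) t ^ 2
  g0 : ∀ t, g 0 t = b 0 / R 0 ^ 5
  fin : ∀ n, g n 0 = b n / R n ^ 5
  pos : ∀ n, ∀ t ≤ 0, 0 < x n t ∧ x n t < g n t ∧ g n t ≤ b n / R n ^ 5
  rapx : RapI R x
  rapg : RapI R g
  lim0 : Tendsto (x 0) atBot (𝓝 (b 0 / R 0 ^ 5))
  lim1 : ∀ j : ℕ, ∀ ε > (0 : ℝ), ∃ t₁ < (0 : ℝ), ∀ t ≤ t₁,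
    Summable (fun n => R (n + 1) ^ j * g (n + 1) t) ∧ ∑' n, R (n + 1) ^ j * g (n + 1) t ≤ ε

/-! ### The torus -/

/-- The representative of `x` modulo `2π ℤ³` in `[-π, π]³`. -/
noncomputable def red (x : V) : V := fun i => x i - 2 * Real.pi * (round (x i / (2 * Real.pi)) : ℤ)

/-- The periodic extension of the restriction of `v` to `[-π, π]³`. -/
noncomputable def per (v : V → V) (x : V) : V := v (red x)

/-! ### Statements of the steps -/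

/-- (A) Existence of the profile. -/
def S_PK : Prop := ∃ (φ : V → V) (ρ : ℝ), Pk φ ρ

/-- (B) The interactions of the packets. -/
def S_TBL : Prop := ∀ (φ : V → V) (ρ : ℝ), Pk φ ρ → ∃ β M : ℝ, 0 < β ∧ 0 < M ∧
  ∀ R : ℕ → ℝ, (∀ n, 1 ≤ R n) → (∀ n, R n ^ 2 ≤ 2 * ρ * R (n + 1) ^ 2) → Tbl φ β M R

/-- (C) The series. -/
def S_SER : Prop := ∀ (R : ℕ → ℝ) (φ : V → V), (∀ n, 2 ^ n ≤ R n) → ContDiff ℝ ∞ φ →
  (∀ y, 1 / 2 ≤ ‖y‖ → φ y = 0) →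
  (∀ x : ℕ → ℝ → ℝ, (∀ n, ContDiff ℝ ∞ (x n)) →
    ContDiffOn ℝ ∞ (fun z : ℝ × V => ser R φ (fun n => x n z.1) z.2) (univ ×ˢ {y | y ≠ 0}) ∧
    (RapI R x →
      ContDiffOn ℝ ∞ (fun z : ℝ × V => ser R φ (fun n => x n z.1) z.2) (Iio 0 ×ˢ univ) ∧
      (∀ t < 0, ∀ y, HasSum (fun n => x n t • pk (R n) φ y) (ser R φ (fun n => x n t) y)) ∧
      (∀ t < 0, ∀ y, HasSum (fun n => deriv (x n) t • pk (R n) φ y)
        (deriv (fun s => ser R φ (fun n => x n s) y) t)) ∧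
      (∀ t < 0, ∀ y, HasSum (fun n => x n t • fderiv ℝ (pk (R n) φ) y)
        (fderiv ℝ (ser R φ (fun n => x n t)) y)))) ∧
  ∀ k : ℕ, ∃ (j : ℕ) (C : ℝ), ∀ a : ℕ → ℝ, (∀ i : ℕ, Summable (fun n => R n ^ i * |a n|)) → ∀ y,
    ‖iteratedFDeriv ℝ k (ser R φ a) y‖ ≤ C * ∑' n, R n ^ j * |a n|

/-- (D) The torus. -/
def S_TOR : Prop :=
  (∀ v : V → V, Periodic3 (per v)) ∧
  (∀ v w : V → V, (∀ y, 1 / 2 ≤ ‖y‖ → v y = 0) → ipT (per v) w = ip v w ∧ ipT w v = ip w v) ∧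
  ∀ x : V, ∃ k : Fin 3 → ℤ, ‖x - fun i => 2 * Real.pi * (k i : ℝ)‖ ≤ Real.pi ∧
    ∀ᶠ y in 𝓝 x, red y = (y - fun i => 2 * Real.pi * (k i : ℝ)) ∨
      (1 / 2 ≤ ‖red y‖ ∧ 1 / 2 ≤ ‖y - fun i => 2 * Real.pi * (k i : ℝ)‖)

/-- (E1) Uniqueness. -/
def S_UNI : Prop := ∀ (ι : Type) (r : ι → V → V) (t₀ T : ℝ) (u v : ℝ → V → V),
  (∀ i, Continuous (r i)) → Sol r (Ico t₀ T) u → Sol r (Ico t₀ T) v → u t₀ = v t₀ →
  ∀ t ∈ Ico t₀ T, u t = v t

/-- (E2) Conservation of the energy. -/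
def S_EN : Prop := ∀ (ι : Type) (r : ι → V → V) (t₀ T : ℝ) (u : ℝ → V → V),
  (∀ i, Continuous (r i)) → Sol r (Ico t₀ T) u → ∀ t ∈ Ico t₀ T, ipT (u t) (u t) = ipT (u t₀) (u t₀)

/-- (F) The reduced system. -/
def S_ODE : Prop := ∀ (β : ℝ) (R b : ℕ → ℝ), 0 < β → Par R b → ∃ x g, Dyn β R b x g

/-- (G) The parameters. -/
def S_SEQ : Prop := ∀ ρ > (0 : ℝ), ∃ R b : ℕ → ℝ, Par R b ∧
  (∀ n, R n ^ 2 ≤ 2 * ρ * R (n + 1) ^ 2) ∧ Real.exp 2 ≤ 2 * R 1 ^ 2 ∧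
  (∀ n, Real.exp (2 * R n ^ 2) ≤ R (n + 2) ^ 2) ∧
  ∀ ε > (0 : ℝ), ∃ C, ∀ n, ∑ m ∈ Finset.range (n + 1), b m ≤ C * R n ^ ε

end Pool.Agent.N264.EC
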