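import Pool.Agent.N264.EC.Def

/-!
# Project TE, part F: the reduced system
-/

open Set Filter Topology MeasureTheory
open scoped ContDiff

set_option autoImplicit false
set_option linter.unusedSectionVars false
set_option linter.unusedVariables false

namespace Pool.Agent.N264.EC

namespace F

/-- the amplitudes at the time of blow-up -/
noncomputable def al (R b : ℕ → ℝ) (n : ℕ) : ℝ := b n / R n ^ 5

/-- the angles at the time of blow-up -/
noncomputable def tau (R b : ℕ → ℝ) (n : ℕ) : ℝ := Real.arcosh (al R b n / al R b (n + 1))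

/-- the tails of the energy -/
noncomputable def G (β : ℝ) (R b : ℕ → ℝ) : ℕ → ℝ → ℝ
  | 0 => fun _ => al R b 0
  | n + 1 => fun t => G β R b n t /
      Real.cosh (tau R b n - β * R n ^ 5 * ∫ s in (0 : ℝ)..t, G β R b n s)

/-- the angles -/
noncomputable def th (β : ℝ) (R b : ℕ → ℝ) (n : ℕ) (t : ℝ) : ℝ :=
  tau R b n - β * R n ^ 5 * ∫ s in (0 : ℝ)..t, G β R b n s

/-- the amplitudes -/
noncomputable def X (β : ℝ) (R b : ℕ → ℝ) (n : ℕ) (t : ℝ) : ℝ :=
  G β R b n t * (Real.sinh (th β R b n t) / Real.cosh (th β R b n t))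

/-- the strain of the larger scales -/
noncomputable def S (β : ℝ) (R b : ℕ → ℝ) (n : ℕ) (t : ℝ) : ℝ :=
  ∑ m ∈ Finset.range n, R m ^ 5 * X β R b m t

variable {β : ℝ} {R b : ℕ → ℝ}

lemma G_succ (n : ℕ) (t : ℝ) :
    G β R b (n + 1) t = G β R b n t / Real.cosh (th β R b n t) := rfl

lemma smooth_int {f : ℝ → ℝ} (hf : ContDiff ℝ ∞ f) :
    ContDiff ℝ ∞ fun t => ∫ s in (0 : ℝ)..t, f s := by
  have h1 : ∀ t, HasDerivAt (fun t => ∫ s in (0 : ℝ)..t, f s) (f t) t := fun t =>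
    (hf.continuous.integral_hasStrictDerivAt 0 t).hasDerivAt
  have h2 : deriv (fun t => ∫ s in (0 : ℝ)..t, f s) = f := funext fun t => (h1 t).deriv
  rw [contDiff_infty_iff_deriv, h2]
  exact ⟨fun t => (h1 t).differentiableAt, hf⟩

lemma G_smooth : ∀ n, ContDiff ℝ ∞ (G β R b n)
  | 0 => contDiff_const
  | n + 1 => by
    have h1 := G_smooth n
    have h2 : ContDiff ℝ ∞ (th β R b n) :=
      contDiff_const.sub (contDiff_const.mul (smooth_int h1))
    exact h1.div (Real.contDiff_cosh.comp h2) fun _ => (Real.cosh_pos _).ne'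

lemma th_smooth (n : ℕ) : ContDiff ℝ ∞ (th β R b n) :=
  contDiff_const.sub (contDiff_const.mul (smooth_int (G_smooth n)))

lemma X_smooth (n : ℕ) : ContDiff ℝ ∞ (X β R b n) :=
  (G_smooth n).mul ((Real.contDiff_sinh.comp (th_smooth n)).div
    (Real.contDiff_cosh.comp (th_smooth n)) fun t => (Real.cosh_pos _).ne')

lemma S_smooth (n : ℕ) : ContDiff ℝ ∞ (S β R b n) :=
  ContDiff.sum fun m _ => contDiff_const.mul (X_smooth m)

lemma th_deriv (n : ℕ) (t : ℝ) :
    HasDerivAt (th β R b n) (-(β * R n ^ 5 * G β R b n t)) t := by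
  have h1 := ((G_smooth (β := β) (R := R) (b := b) n).continuous.integral_hasStrictDerivAt 0
    t).hasDerivAt.const_mul (β * R n ^ 5)
  have h2 := h1.const_sub (tau R b n)
  exact h2

lemma S_succ (n : ℕ) (t : ℝ) :
    S β R b (n + 1) t = S β R b n t + R n ^ 5 * X β R b n t := Finset.sum_range_succ _ _

lemma G_deriv : ∀ (n : ℕ) (t : ℝ),
    HasDerivAt (G β R b n) (β * G β R b n t * S β R b n t) t
  | 0, t => by
    have h : β * G β R b 0 t * S β R b 0 t = 0 := by unfold S; simp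
    rw [h]
    exact hasDerivAt_const t _
  | n + 1, t => by
    have h1 := G_deriv n t
    have h2 := (th_deriv (β := β) (R := R) (b := b) n t).cosh
    have h3 := h1.div h2 (Real.cosh_pos _).ne'
    refine h3.congr_deriv ?_
    have hc := (Real.cosh_pos (th β R b n t)).ne'
    rw [G_succ, S_succ]
    unfold X
    field_simp
    ring

lemma tanh_sq (n : ℕ) (t : ℝ) : X β R b n t ^ 2 = G β R b n t ^ 2 - G β R b (n + 1) t ^ 2 := by
  have hc := (Real.cosh_pos (th β R b n t)).ne'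
  have h1 := Real.cosh_sq (th β R b n t)
  rw [G_succ]
  unfold X
  field_simp
  rw [h1]
  ring

lemma X_deriv (n : ℕ) (t : ℝ) : HasDerivAt (X β R b n)
    (β * (X β R b n t * S β R b n t - R n ^ 5 * G β R b (n + 1) t ^ 2)) t := by
  have h1 := G_deriv (β := β) (R := R) (b := b) n t
  have h2 := (th_deriv (β := β) (R := R) (b := b) n t).cosh
  have h3 := (th_deriv (β := β) (R := R) (b := b) n t).sinh
  have h4 := h1.mul (h3.div h2 (Real.cosh_pos _).ne')
  refine h4.congr_deriv ?_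
  have hc := (Real.cosh_pos (th β R b n t)).ne'
  have h5 := Real.cosh_sq (th β R b n t)
  rw [G_succ]
  unfold X
  simp only [Pi.div_apply]
  field_simp
  rw [h5]
  ring

lemma half_exp_le_cosh (x : ℝ) : Real.exp x / 2 ≤ Real.cosh x := by
  rw [Real.cosh_eq]
  have := Real.exp_pos (-x)
  linarith

/-! ### rapidly decreasing sequences of functions -/

/-- rapid decay of the derivatives up to the order `K` -/
def Fast (R : ℕ → ℝ) (K : ℕ) (c : ℕ → ℝ → ℝ) : Prop :=
  ∀ k ≤ K, ∀ j : ℕ, ∀ b < (0 : ℝ), ∃ M : ℝ, ∀ t ≤ b, ∀ n, R n ^ j * |iteratedDeriv k (c n) t| ≤ M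

/-- boundedness of the derivatives up to the order `K` -/
def Bnd (K : ℕ) (c : ℕ → ℝ → ℝ) : Prop :=
  ∀ k ≤ K, ∀ b < (0 : ℝ), ∃ M : ℝ, ∀ t ≤ b, ∀ n, |iteratedDeriv k (c n) t| ≤ M

lemma Fast.bnd {K : ℕ} {c : ℕ → ℝ → ℝ} (h : Fast R K c) : Bnd K c := by
  intro k hk b hb
  obtain ⟨M, hM⟩ := h k hk 0 b hb
  exact ⟨M, fun t ht n => by simpa using hM t ht n⟩

lemma Fast.mul {K : ℕ} {f g : ℕ → ℝ → ℝ} (hR : ∀ n, 0 < R n) (hf : Fast R K f) (hg : Bnd K g)
    (sf : ∀ n, ContDiff ℝ ∞ (f n)) (sg : ∀ n, ContDiff ℝ ∞ (g n)) :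
    Fast R K fun n t => f n t * g n t := by
  intro k hk j b hb
  have h1 : ∀ i, ∃ M : ℝ, i ≤ k → ∀ t ≤ b, ∀ n, R n ^ j * |iteratedDeriv i (f n) t| ≤ M := by
    intro i
    by_cases hi : i ≤ k
    · obtain ⟨M, hM⟩ := hf i (hi.trans hk) j b hb
      exact ⟨M, fun _ => hM⟩
    · exact ⟨0, fun h => absurd h hi⟩
  have h2 : ∀ i, ∃ M : ℝ, i ≤ k → ∀ t ≤ b, ∀ n, |iteratedDeriv i (g n) t| ≤ M := by
    intro i
    by_cases hi : i ≤ k
    · obtain ⟨M, hM⟩ := hg i (hi.trans hk) b hb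
      exact ⟨M, fun _ => hM⟩
    · exact ⟨0, fun h => absurd h hi⟩
  choose M₁ hM₁ using h1
  choose M₂ hM₂ using h2
  refine ⟨∑ i ∈ Finset.range (k + 1), (k.choose i : ℝ) * (M₁ i * M₂ (k - i)), fun t ht n => ?_⟩
  have e : iteratedDeriv k (fun t => f n t * g n t) t = ∑ i ∈ Finset.range (k + 1),
      (k.choose i : ℝ) * iteratedDeriv i (f n) t * iteratedDeriv (k - i) (g n) t :=
    iteratedDeriv_fun_mul ((sf n).contDiffAt.of_le (mod_cast le_top))
      ((sg n).contDiffAt.of_le (mod_cast le_top))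
  rw [e]
  have hRn := pow_pos (hR n) j
  calc R n ^ j * |∑ i ∈ Finset.range (k + 1),
      (k.choose i : ℝ) * iteratedDeriv i (f n) t * iteratedDeriv (k - i) (g n) t|
      ≤ R n ^ j * ∑ i ∈ Finset.range (k + 1),
        |(k.choose i : ℝ) * iteratedDeriv i (f n) t * iteratedDeriv (k - i) (g n) t| :=
        mul_le_mul_of_nonneg_left (Finset.abs_sum_le_sum_abs _ _) hRn.le
    _ = ∑ i ∈ Finset.range (k + 1), (k.choose i : ℝ) *
        ((R n ^ j * |iteratedDeriv i (f n) t|) * |iteratedDeriv (k - i) (g n) t|) := by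
        rw [Finset.mul_sum]
        refine Finset.sum_congr rfl fun i _ => ?_
        rw [abs_mul, abs_mul, Nat.abs_cast]
        ring
    _ ≤ _ := by
        refine Finset.sum_le_sum fun i hi => ?_
        rw [Finset.mem_range] at hi
        refine mul_le_mul_of_nonneg_left ?_ (Nat.cast_nonneg _)
        have a1 := hM₁ i (by omega) t ht n
        have a2 := hM₂ (k - i) (by omega) t ht n
        exact mul_le_mul a1 a2 (abs_nonneg _) ((mul_nonneg hRn.le (abs_nonneg _)).trans a1)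

lemma Fast.sub {K : ℕ} {f g : ℕ → ℝ → ℝ} (hR : ∀ n, 0 < R n) (hf : Fast R K f) (hg : Fast R K g)
    (sf : ∀ n, ContDiff ℝ ∞ (f n)) (sg : ∀ n, ContDiff ℝ ∞ (g n)) :
    Fast R K fun n t => f n t - g n t := by
  intro k hk j b hb
  obtain ⟨M₁, h1⟩ := hf k hk j b hb
  obtain ⟨M₂, h2⟩ := hg k hk j b hb
  refine ⟨M₁ + M₂, fun t ht n => ?_⟩
  have e : iteratedDeriv k (fun t => f n t - g n t) t =
      iteratedDeriv k (f n) t - iteratedDeriv k (g n) t :=
    iteratedDeriv_fun_sub ((sf n).contDiffAt.of_le (mod_cast le_top))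
      ((sg n).contDiffAt.of_le (mod_cast le_top))
  rw [e]
  have hRn := pow_pos (hR n) j
  calc R n ^ j * |iteratedDeriv k (f n) t - iteratedDeriv k (g n) t| ≤
      R n ^ j * (|iteratedDeriv k (f n) t| + |iteratedDeriv k (g n) t|) :=
        mul_le_mul_of_nonneg_left (abs_sub _ _) hRn.le
    _ = R n ^ j * |iteratedDeriv k (f n) t| + R n ^ j * |iteratedDeriv k (g n) t| := by ring
    _ ≤ M₁ + M₂ := add_le_add (h1 t ht n) (h2 t ht n)

lemma Fast.const_mul {K : ℕ} {f : ℕ → ℝ → ℝ} (hR : ∀ n, 0 < R n) (hf : Fast R K f) (c : ℝ)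
    (p : ℕ) : Fast R K fun n t => c * R n ^ p * f n t := by
  intro k hk j b hb
  obtain ⟨M₁, h1⟩ := hf k hk (j + p) b hb
  refine ⟨|c| * M₁, fun t ht n => ?_⟩
  rw [iteratedDeriv_const_mul_field, abs_mul, abs_mul, abs_of_pos (pow_pos (hR n) p)]
  calc R n ^ j * (|c| * R n ^ p * |iteratedDeriv k (f n) t|) =
      |c| * (R n ^ (j + p) * |iteratedDeriv k (f n) t|) := by ring
    _ ≤ |c| * M₁ := mul_le_mul_of_nonneg_left (h1 t ht n) (abs_nonneg _)

lemma Fast.tail {K : ℕ} {f : ℕ → ℝ → ℝ} (hR : ∀ n, 0 < R n) (hm : ∀ n, R n ≤ R (n + 1))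
    (hf : Fast R K f) : Fast R K fun n => f (n + 1) := by
  intro k hk j b hb
  obtain ⟨M₁, h1⟩ := hf k hk j b hb
  exact ⟨M₁, fun t ht n => (mul_le_mul_of_nonneg_right (pow_le_pow_left₀ (hR n).le (hm n) j)
    (abs_nonneg _)).trans (h1 t ht (n + 1))⟩

lemma Fast.succ {K : ℕ} {f : ℕ → ℝ → ℝ} (h0 : Fast R 0 f) (h : Fast R K fun n => deriv (f n)) :
    Fast R (K + 1) f := by
  intro k hk j b hb
  rcases Nat.eq_zero_or_pos k with rfl | hk0
  · exact h0 0 le_rfl j b hb
  · obtain ⟨k, rfl⟩ : ∃ i, k = i + 1 := ⟨k - 1, by omega⟩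
    obtain ⟨M, hM⟩ := h k (by omega) j b hb
    exact ⟨M, fun t ht n => by rw [iteratedDeriv_succ']; exact hM t ht n⟩

lemma Fast.sum_bnd {K : ℕ} {f : ℕ → ℝ → ℝ} (hR : ∀ n, 2 ^ n ≤ R n) (hf : Fast R K f)
    (sf : ∀ n, ContDiff ℝ ∞ (f n)) :
    Bnd K fun n t => ∑ m ∈ Finset.range n, R m ^ 5 * f m t := by
  intro k hk b hb
  obtain ⟨M, hM⟩ := hf k hk 6 b hb
  have hM0 : 0 ≤ M := le_trans (mul_nonneg (pow_nonneg ((pow_nonneg (by norm_num : (0 : ℝ) ≤ 2)
    0).trans (hR 0)) 6) (abs_nonneg _)) (hM b le_rfl 0)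
  refine ⟨M * 2, fun t ht n => ?_⟩
  have e : iteratedDeriv k (fun t => ∑ m ∈ Finset.range n, R m ^ 5 * f m t) t =
      ∑ m ∈ Finset.range n, R m ^ 5 * iteratedDeriv k (f m) t := by
    rw [iteratedDeriv_fun_sum fun m _ =>
      ((contDiff_const.mul (sf m)).contDiffAt.of_le (mod_cast le_top))]
    exact Finset.sum_congr rfl fun m _ => iteratedDeriv_const_mul_field _ _
  rw [e]
  refine (Finset.abs_sum_le_sum_abs _ _).trans ?_
  have h1 : ∀ m ∈ Finset.range n, |R m ^ 5 * iteratedDeriv k (f m) t| ≤ M * (1 / 2) ^ m := by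
    intro m _
    have hp : (0 : ℝ) < 2 ^ m := by positivity
    have hRm : 0 < R m := hp.trans_le (hR m)
    rw [abs_mul, abs_of_pos (pow_pos hRm 5), one_div, inv_pow, ← div_eq_mul_inv, le_div_iff₀ hp]
    calc R m ^ 5 * |iteratedDeriv k (f m) t| * 2 ^ m ≤
        R m ^ 5 * |iteratedDeriv k (f m) t| * R m :=
          mul_le_mul_of_nonneg_left (hR m) (mul_nonneg (pow_pos hRm 5).le (abs_nonneg _))
      _ = R m ^ 6 * |iteratedDeriv k (f m) t| := by ring
      _ ≤ M := hM t ht m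
  refine (Finset.sum_le_sum h1).trans ?_
  rw [← Finset.mul_sum]
  refine mul_le_mul_of_nonneg_left ?_ hM0
  have h2 := Summable.sum_le_tsum (Finset.range n) (fun i _ => by positivity)
    (summable_geometric_of_lt_one (r := (1 / 2 : ℝ)) (by norm_num) (by norm_num))
  rwa [tsum_geometric_of_lt_one (by norm_num) (by norm_num),
    show (1 - 1 / 2 : ℝ)⁻¹ = 2 by norm_num] at h2

section par

variable (hβ : 0 < β) (hP : Par R b)
include hP

lemma R_pos (n : ℕ) : 0 < R n := lt_of_lt_of_le (by positivity) (hP.R1 n)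

lemma R_one (n : ℕ) : 1 ≤ R n := le_trans (one_le_pow₀ (by norm_num)) (hP.R1 n)

lemma R_mono : Monotone R := monotone_nat_of_le_succ hP.Rm

lemma al_pos (n : ℕ) : 0 < al R b n := div_pos (hP.b0 n) (pow_pos (R_pos hP n) 5)

lemma al_ratio (n : ℕ) : 1 < al R b n / al R b (n + 1) := by
  rw [one_lt_div (al_pos hP (n + 1))]
  exact hP.dec n

lemma tau_pos (n : ℕ) : 0 < tau R b n := by
  unfold tau
  exact Real.arcosh_pos (al_ratio hP n)

lemma cosh_tau (n : ℕ) : Real.cosh (tau R b n) = al R b n / al R b (n + 1) :=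
  Real.cosh_arcosh (al_ratio hP n).le

lemma G_pos : ∀ (n : ℕ) (t : ℝ), 0 < G β R b n t
  | 0, _ => al_pos hP 0
  | n + 1, t => div_pos (G_pos n t) (Real.cosh_pos _)

lemma G_zero (n : ℕ) : G β R b n 0 = al R b n := by
  induction n with
  | zero => rfl
  | succ n ih =>
    rw [G_succ, ih]
    have h : th β R b n 0 = tau R b n := by unfold th; simp
    rw [h, cosh_tau hP]
    have h1 := (al_pos hP n).ne'
    have h2 := (al_pos hP (n + 1)).ne'
    field_simp

lemma G_le_succ (n : ℕ) (t : ℝ) : G β R b (n + 1) t ≤ G β R b n t := by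
  rw [G_succ]
  exact div_le_self (G_pos hP n t).le (Real.one_le_cosh _)

lemma G_anti (t : ℝ) : Antitone fun n => G β R b n t :=
  antitone_nat_of_succ_le fun n => G_le_succ hP n t

lemma X_lt (n : ℕ) (t : ℝ) : X β R b n t < G β R b n t := by
  refine mul_lt_of_lt_one_right (G_pos hP n t) ?_
  rw [div_lt_one (Real.cosh_pos _)]
  exact Real.sinh_lt_cosh _

include hβ

lemma th_ge {n : ℕ} {t : ℝ} (ht : t ≤ 0) : tau R b n ≤ th β R b n t := by
  unfold th
  have h1 : 0 ≤ ∫ s in t..(0 : ℝ), G β R b n s :=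
    intervalIntegral.integral_nonneg ht fun s _ => (G_pos hP n s).le
  rw [intervalIntegral.integral_symm] at h1
  have h2 := pow_pos (R_pos hP n) 5
  nlinarith [mul_pos hβ h2]

lemma th_pos {n : ℕ} {t : ℝ} (ht : t ≤ 0) : 0 < th β R b n t :=
  (tau_pos hP n).trans_le (th_ge hβ hP ht)

lemma X_pos {n : ℕ} {t : ℝ} (ht : t ≤ 0) : 0 < X β R b n t :=
  mul_pos (G_pos hP n t) (div_pos (Real.sinh_pos_iff.2 (th_pos hβ hP ht)) (Real.cosh_pos _))

lemma S_nonneg {n : ℕ} {t : ℝ} (ht : t ≤ 0) : 0 ≤ S β R b n t :=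
  Finset.sum_nonneg fun m _ => mul_nonneg (pow_pos (R_pos hP m) 5).le (X_pos hβ hP ht).le

lemma G_mono (n : ℕ) : MonotoneOn (G β R b n) (Iic 0) := by
  refine monotoneOn_of_deriv_nonneg (convex_Iic 0) (G_smooth n).continuous.continuousOn
    (fun t _ => (G_deriv n t).differentiableAt.differentiableWithinAt) fun t ht => ?_
  rw [interior_Iic, mem_Iio] at ht
  rw [(G_deriv n t).deriv]
  exact mul_nonneg (mul_pos hβ (G_pos hP n t)).le (S_nonneg hβ hP ht.le)

lemma G_le {n : ℕ} {t : ℝ} (ht : t ≤ 0) : G β R b n t ≤ al R b n := by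
  rw [← G_zero (β := β) hP n]
  exact G_mono hβ hP n ht (mem_Iic.2 le_rfl) ht

lemma S_le {n : ℕ} {t : ℝ} (ht : t ≤ 0) : S β R b n t ≤ ∑ m ∈ Finset.range n, b m := by
  refine Finset.sum_le_sum fun m _ => ?_
  have h1 := pow_pos (R_pos hP m) 5
  have h2 := (X_lt hP m t).le.trans (G_le hβ hP ht)
  calc R m ^ 5 * X β R b m t ≤ R m ^ 5 * al R b m := by gcongr
    _ = b m := by unfold al; rw [← mul_div_assoc, mul_div_cancel_left₀ _ h1.ne']

/-- the sums of the amplitudes of the gradients -/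
noncomputable def sig (b : ℕ → ℝ) (n : ℕ) : ℝ := ∑ m ∈ Finset.range n, b m

lemma G_ge {n : ℕ} {t : ℝ} (ht : t ≤ 0) :
    al R b n * Real.exp (β * sig b n * t) ≤ G β R b n t := by
  have hd : ∀ s : ℝ, HasDerivAt (fun s => G β R b n s * Real.exp (-(β * sig b n * s)))
      (β * G β R b n s * (S β R b n s - sig b n) * Real.exp (-(β * sig b n * s))) s := fun s => by
    have h1 := G_deriv (β := β) (R := R) (b := b) n s
    have h2 : HasDerivAt (fun s : ℝ => -(β * sig b n * s)) (-(β * sig b n * 1)) s :=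
      ((hasDerivAt_id s).const_mul (β * sig b n)).neg
    refine (h1.mul h2.exp).congr_deriv ?_
    ring
  have hanti : AntitoneOn (fun s => G β R b n s * Real.exp (-(β * sig b n * s))) (Iic 0) := by
    refine antitoneOn_of_deriv_nonpos (convex_Iic 0)
      (fun s _ => (hd s).continuousAt.continuousWithinAt)
      (fun s _ => (hd s).differentiableAt.differentiableWithinAt) fun s hs => ?_
    rw [interior_Iic, mem_Iio] at hs
    rw [(hd s).deriv]
    refine mul_nonpos_of_nonpos_of_nonneg ?_ (Real.exp_pos _).le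
    exact mul_nonpos_of_nonneg_of_nonpos (mul_pos hβ (G_pos hP n s)).le
      (sub_nonpos.2 (S_le hβ hP hs.le))
  have h1 := hanti ht (mem_Iic.2 le_rfl) ht
  simp only [mul_zero, neg_zero, Real.exp_zero, mul_one, G_zero hP] at h1
  calc al R b n * Real.exp (β * sig b n * t) ≤
      G β R b n t * Real.exp (-(β * sig b n * t)) * Real.exp (β * sig b n * t) := by gcongr
    _ = G β R b n t := by rw [mul_assoc, ← Real.exp_add, neg_add_cancel, Real.exp_zero, mul_one]

lemma th_lower {n : ℕ} (hn : 0 < sig b n) {t : ℝ} (ht : t ≤ 0) :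
    b n / sig b n * (1 - Real.exp (β * sig b n * t)) ≤ th β R b n t := by
  have hd : ∀ s : ℝ, HasDerivAt (fun s => th β R b n s -
      b n / sig b n * (1 - Real.exp (β * sig b n * s)))
      (-(β * R n ^ 5 * G β R b n s) + b n * β * Real.exp (β * sig b n * s)) s := fun s => by
    have h1 := th_deriv (β := β) (R := R) (b := b) n s
    have h2 : HasDerivAt (fun s : ℝ => β * sig b n * s) (β * sig b n * 1) s :=
      (hasDerivAt_id s).const_mul (β * sig b n)
    refine (h1.sub ((h2.exp.const_sub 1).const_mul (b n / sig b n))).congr_deriv ?_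
    field_simp
    ring
  have hanti : AntitoneOn (fun s => th β R b n s -
      b n / sig b n * (1 - Real.exp (β * sig b n * s))) (Iic 0) := by
    refine antitoneOn_of_deriv_nonpos (convex_Iic 0)
      (fun s _ => (hd s).continuousAt.continuousWithinAt)
      (fun s _ => (hd s).differentiableAt.differentiableWithinAt) fun s hs => ?_
    rw [interior_Iic, mem_Iio] at hs
    rw [(hd s).deriv]
    have h1 := G_ge hβ hP (n := n) hs.le
    have h2 := pow_pos (R_pos hP n) 5
    have h3 : b n = R n ^ 5 * al R b n := by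
      unfold al; rw [← mul_div_assoc, mul_div_cancel_left₀ _ h2.ne']
    have h4 : b n * β * Real.exp (β * sig b n * s) =
        β * R n ^ 5 * (al R b n * Real.exp (β * sig b n * s)) := by
      rw [h3]; ring
    rw [h4]
    have h5 := mul_le_mul_of_nonneg_left h1 (mul_pos hβ h2).le
    linarith
  have h1 := hanti ht (mem_Iic.2 le_rfl) ht
  simp only [mul_zero, Real.exp_zero, sub_self, mul_zero, sub_zero] at h1
  have h2 := (tau_pos hP n).trans_le (th_ge hβ hP (n := n) (t := 0) le_rfl)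
  linarith

lemma G_decay {n : ℕ} (hn : 0 < sig b n) {t : ℝ} (ht : t ≤ 0)
    (h : Real.exp (β * sig b n * t) ≤ 1 / 2) :
    G β R b (n + 1) t ≤ 2 * al R b 0 * Real.exp (-(b n / (2 * (1 + sig b n)))) := by
  have h1 := th_lower hβ hP hn ht
  have hb := hP.b0 n
  have h2 : b n / (2 * (1 + sig b n)) ≤ th β R b n t := by
    refine le_trans ?_ h1
    calc b n / (2 * (1 + sig b n)) ≤ b n / (2 * sig b n) := by
          gcongr
          linarith
      _ = b n / sig b n * (1 / 2) := by field_simp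
      _ ≤ b n / sig b n * (1 - Real.exp (β * sig b n * t)) := by
          gcongr
          linarith
  have h3 : Real.exp (b n / (2 * (1 + sig b n))) / 2 ≤ Real.cosh (th β R b n t) :=
    le_trans (by gcongr) (half_exp_le_cosh _)
  have h4 : G β R b n t ≤ al R b 0 := (G_anti hP t (Nat.zero_le n))
  have h5 := al_pos hP 0
  rw [G_succ, Real.exp_neg]
  calc G β R b n t / Real.cosh (th β R b n t) ≤
        al R b 0 / (Real.exp (b n / (2 * (1 + sig b n))) / 2) := by gcongr
    _ = 2 * al R b 0 * (Real.exp (b n / (2 * (1 + sig b n))))⁻¹ := by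
        field_simp

lemma G_rap0 (j : ℕ) {t₀ : ℝ} (ht₀ : t₀ < 0) : ∃ M : ℝ, ∀ t ≤ t₀, ∀ n, R n ^ j * G β R b n t ≤ M := by
  obtain ⟨M', hM'⟩ := hP.rap j
  obtain ⟨N, hN⟩ := eventually_atTop.1 ((tendsto_atTop.1 hP.big
    (max 1 (Real.log 2 / (β * -t₀)))))
  have hM0 : 0 ≤ M' := le_trans (mul_nonneg (pow_pos (R_pos hP 1) j).le (Real.exp_pos _).le) (hM' 0)
  have ha := al_pos hP 0
  refine ⟨R N ^ j * al R b 0 + 2 * al R b 0 * M', fun t ht n => ?_⟩
  have h4 : G β R b n t ≤ al R b 0 := (G_anti hP t (Nat.zero_le n))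
  have hRN := pow_pos (R_pos hP N) j
  rcases le_or_gt n N with hn | hn
  · have h5 : R n ^ j ≤ R N ^ j := pow_le_pow_left₀ (R_pos hP n).le (R_mono hP hn) j
    calc R n ^ j * G β R b n t ≤ R N ^ j * al R b 0 :=
          mul_le_mul h5 h4 (G_pos hP n t).le hRN.le
      _ ≤ _ := le_add_of_nonneg_right (by positivity)
  · obtain ⟨n, rfl⟩ : ∃ k, n = k + 1 := ⟨n - 1, by omega⟩
    have h6 := hN n (by omega)
    have h7 : 1 ≤ sig b n := (le_max_left _ _).trans h6
    have h8 : Real.log 2 / (β * -t₀) ≤ sig b n := (le_max_right _ _).trans h6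
    have h9 : 0 < β * -t₀ := mul_pos hβ (by linarith)
    rw [div_le_iff₀ h9] at h8
    have h10 : Real.exp (β * sig b n * t) ≤ 1 / 2 := by
      have h11 : Real.exp (β * sig b n * t) ≤ Real.exp (-Real.log 2) := by
        refine Real.exp_le_exp.2 ?_
        have h12 : β * sig b n * t ≤ β * sig b n * t₀ :=
          mul_le_mul_of_nonneg_left ht (by positivity)
        linarith
      rw [Real.exp_neg (Real.log 2), Real.exp_log (by norm_num)] at h11
      linarith
    have h13 := G_decay hβ hP (by linarith) (ht.trans ht₀.le) h10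
    have h14 := hM' n
    calc R (n + 1) ^ j * G β R b (n + 1) t ≤ R (n + 1) ^ j *
          (2 * al R b 0 * Real.exp (-(b n / (2 * (1 + sig b n))))) :=
          mul_le_mul_of_nonneg_left h13 (pow_pos (R_pos hP _) j).le
      _ = 2 * al R b 0 * (R (n + 1) ^ j * Real.exp (-(b n / (2 * (1 + sig b n))))) := by ring
      _ ≤ 2 * al R b 0 * M' := mul_le_mul_of_nonneg_left h14 (by positivity)
      _ ≤ _ := le_add_of_nonneg_left (by positivity)

lemma fast0 : Fast R 0 (X β R b) ∧ Fast R 0 (G β R b) := by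
  constructor
  · intro k hk j t₀ ht₀
    obtain rfl : k = 0 := by omega
    obtain ⟨M, hM⟩ := G_rap0 hβ hP j ht₀
    refine ⟨M, fun t ht n => le_trans ?_ (hM t ht n)⟩
    rw [iteratedDeriv_zero, abs_of_pos (X_pos hβ hP (ht.trans ht₀.le))]
    exact mul_le_mul_of_nonneg_left (X_lt hP n t).le (pow_pos (R_pos hP n) j).le
  · intro k hk j t₀ ht₀
    obtain rfl : k = 0 := by omega
    obtain ⟨M, hM⟩ := G_rap0 hβ hP j ht₀
    refine ⟨M, fun t ht n => ?_⟩
    rw [iteratedDeriv_zero, abs_of_pos (G_pos hP n t)]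
    exact hM t ht n

lemma fast : ∀ K : ℕ, Fast R K (X β R b) ∧ Fast R K (G β R b)
  | 0 => fast0 hβ hP
  | K + 1 => by
    obtain ⟨hx, hg⟩ := fast K
    have h0 := fast0 hβ hP
    have hR := R_pos hP
    have hS : Bnd K (S β R b) := hx.sum_bnd hP.R1 X_smooth
    have e1 : (fun n => deriv (X β R b n)) = fun n t =>
        β * R n ^ 0 * (X β R b n t * S β R b n t - 1 * R n ^ 5 * (G β R b (n + 1) t *
          G β R b (n + 1) t)) := by
      funext n t
      rw [(X_deriv n t).deriv]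
      ring
    have e2 : (fun n => deriv (G β R b n)) = fun n t =>
        β * R n ^ 0 * (G β R b n t * S β R b n t) := by
      funext n t
      rw [(G_deriv n t).deriv]
      ring
    constructor
    · refine h0.1.succ ?_
      rw [e1]
      have g1 : Fast R K fun n t => G β R b (n + 1) t * G β R b (n + 1) t :=
        (hg.tail hR hP.Rm).mul hR (hg.tail hR hP.Rm).bnd (fun n => G_smooth (n + 1))
          (fun n => G_smooth (n + 1))
      refine Fast.const_mul hR (Fast.sub hR (hx.mul hR hS X_smooth S_smooth)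
        (g1.const_mul hR 1 5) (fun n => (X_smooth n).mul (S_smooth n)) fun n => ?_) β 0
      exact contDiff_const.mul ((G_smooth (n + 1)).mul (G_smooth (n + 1)))
    · refine h0.2.succ ?_
      rw [e2]
      exact Fast.const_mul hR (hg.mul hR hS G_smooth S_smooth) β 0

lemma th0 (t : ℝ) : th β R b 0 t = tau R b 0 - β * al R b 0 * t := by
  unfold th
  have h : ∫ s in (0 : ℝ)..t, G β R b 0 s = al R b 0 * t := by
    show ∫ s in (0 : ℝ)..t, al R b 0 = _
    rw [intervalIntegral.integral_const, sub_zero, smul_eq_mul, mul_comm]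
  rw [h, hP.R0]
  ring

lemma th0_tendsto : Tendsto (th β R b 0) atBot atTop := by
  have h1 : Tendsto (fun t : ℝ => β * al R b 0 * t) atBot atBot :=
    tendsto_id.const_mul_atBot (mul_pos hβ (al_pos hP 0))
  have h2 : Tendsto (fun t : ℝ => tau R b 0 + -(β * al R b 0 * t)) atBot atTop :=
    tendsto_atTop_add_const_left _ _ (tendsto_neg_atBot_atTop.comp h1)
  refine h2.congr fun t => ?_
  rw [th0 hβ hP]
  ring

lemma cosh_tendsto : Tendsto Real.cosh atTop atTop :=
  tendsto_atTop_mono half_exp_le_cosh (Real.tendsto_exp_atTop.atTop_div_const (by norm_num))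

lemma G1_tendsto : Tendsto (G β R b 1) atBot (𝓝 0) := by
  have h1 : Tendsto (fun t => Real.cosh (th β R b 0 t)) atBot atTop :=
    (cosh_tendsto hβ hP).comp (th0_tendsto hβ hP)
  exact h1.const_div_atTop (al R b 0)

lemma lim0 : Tendsto (X β R b 0) atBot (𝓝 (b 0 / R 0 ^ 5)) := by
  have h1 := G1_tendsto hβ hP
  have h2 : Tendsto (fun t => Real.sqrt (al R b 0 ^ 2 - G β R b 1 t ^ 2)) atBot
      (𝓝 (Real.sqrt (al R b 0 ^ 2 - 0 ^ 2))) :=
    (tendsto_const_nhds.sub (h1.pow 2)).sqrt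
  have h3 : Real.sqrt (al R b 0 ^ 2 - 0 ^ 2) = b 0 / R 0 ^ 5 := by
    rw [zero_pow two_ne_zero, sub_zero, Real.sqrt_sq (al_pos hP 0).le]
    rfl
  rw [h3] at h2
  refine h2.congr' ?_
  filter_upwards [eventually_le_atBot 0] with t ht
  have h4 := tanh_sq (β := β) (R := R) (b := b) 0 t
  have h5 : G β R b 0 t = al R b 0 := rfl
  rw [h5] at h4
  rw [← h4, Real.sqrt_sq (X_pos hβ hP ht).le]

lemma lim1 (j : ℕ) {ε : ℝ} (hε : 0 < ε) : ∃ t₁ < (0 : ℝ), ∀ t ≤ t₁,
    Summable (fun n => R (n + 1) ^ j * G β R b (n + 1) t) ∧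
      ∑' n, R (n + 1) ^ j * G β R b (n + 1) t ≤ ε := by
  obtain ⟨M, hM⟩ := G_rap0 hβ hP (2 * j + 2) (t₀ := -1) (by norm_num)
  have hM0 : 0 ≤ M := (mul_nonneg (pow_pos (R_pos hP 0) _).le (G_pos hP 0 (-1)).le).trans
    (hM (-1) le_rfl 0)
  have h1 : Tendsto (fun t => Real.sqrt (M * G β R b 1 t)) atBot (𝓝 (Real.sqrt (M * 0))) :=
    ((G1_tendsto hβ hP).const_mul M).sqrt
  rw [mul_zero, Real.sqrt_zero] at h1
  obtain ⟨t₁, ht₁⟩ := eventually_atBot.1 (h1.eventually (gt_mem_nhds hε))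
  refine ⟨min t₁ (-1), lt_of_le_of_lt (min_le_right _ _) (by norm_num), fun t ht => ?_⟩
  have ht1 : t ≤ -1 := ht.trans (min_le_right _ _)
  have key : ∀ n, R (n + 1) ^ j * G β R b (n + 1) t ≤
      Real.sqrt (M * G β R b 1 t) * (1 / 2) ^ (n + 1) := by
    intro n
    have hR := R_pos hP (n + 1)
    have hG := G_pos (β := β) hP (n + 1) t
    have h2 : G β R b (n + 1) t ≤ G β R b 1 t := G_anti hP t (by omega)
    have h3 := hM t ht1 (n + 1)
    have h4 : R (n + 1) * (R (n + 1) ^ j * G β R b (n + 1) t) ≤ Real.sqrt (M * G β R b 1 t) := by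
      refine Real.le_sqrt_of_sq_le ?_
      calc (R (n + 1) * (R (n + 1) ^ j * G β R b (n + 1) t)) ^ 2 =
          (R (n + 1) ^ (2 * j + 2) * G β R b (n + 1) t) * G β R b (n + 1) t := by ring
        _ ≤ M * G β R b 1 t := mul_le_mul h3 h2 hG.le hM0
    have h5 : (0 : ℝ) < 2 ^ (n + 1) := by positivity
    rw [one_div, inv_pow, ← div_eq_mul_inv, le_div_iff₀ h5]
    calc R (n + 1) ^ j * G β R b (n + 1) t * 2 ^ (n + 1) ≤
        R (n + 1) ^ j * G β R b (n + 1) t * R (n + 1) :=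
          mul_le_mul_of_nonneg_left (hP.R1 (n + 1)) (mul_pos (pow_pos hR j) hG).le
      _ = R (n + 1) * (R (n + 1) ^ j * G β R b (n + 1) t) := by ring
      _ ≤ _ := h4
  have hgeo : HasSum (fun n : ℕ => Real.sqrt (M * G β R b 1 t) * (1 / 2 : ℝ) ^ (n + 1))
      (Real.sqrt (M * G β R b 1 t) * 1) := by
    refine HasSum.mul_left _ ?_
    have := (hasSum_geometric_of_lt_one (r := (1 / 2 : ℝ)) (by norm_num) (by norm_num)).mul_left
      (1 / 2 : ℝ)
    simp only [← pow_succ'] at this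
    rwa [show (1 / 2 : ℝ) * (1 - 1 / 2)⁻¹ = 1 by norm_num] at this
  have h0 : ∀ n, 0 ≤ R (n + 1) ^ j * G β R b (n + 1) t := fun n =>
    (mul_pos (pow_pos (R_pos hP (n + 1)) j) (G_pos hP (n + 1) t)).le
  have hs : Summable (fun n => R (n + 1) ^ j * G β R b (n + 1) t) :=
    Summable.of_nonneg_of_le h0 key hgeo.summable
  refine ⟨hs, (hs.tsum_le_tsum key hgeo.summable).trans ?_⟩
  rw [hgeo.tsum_eq, mul_one]
  exact (ht₁ t (ht.trans (min_le_left _ _))).le

end par

end F

/-- **The reduced system has an explicit solution.** -/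
theorem t_ODE : S_ODE := by
  intro β R b hβ hP
  refine ⟨F.X β R b, F.G β R b, F.X_smooth, F.G_smooth, fun n t => ?_, F.tanh_sq, fun t => rfl,
    F.G_zero hP, fun n t ht => ⟨F.X_pos hβ hP ht, F.X_lt hP n t, F.G_le hβ hP ht⟩,
    fun k j t₀ ht₀ => (F.fast hβ hP k).1 k le_rfl j t₀ ht₀,
    fun k j t₀ ht₀ => (F.fast hβ hP k).2 k le_rfl j t₀ ht₀, F.lim0 hβ hP,
    fun j ε hε => F.lim1 hβ hP j hε⟩
  exact F.X_deriv n t

end Pool.Agent.N264.EC
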