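import Pool.Agent.N264.EC.Def

/-! # The parameters -/

set_option autoImplicit false

open Set Filter Topology

namespace Pool.Agent.N264.EC

namespace G

/-- `c 0 = K`, `c (n+1) = exp (c n / 4)` -/
noncomputable def cs (K : ℝ) : ℕ → ℝ
  | 0 => K
  | n + 1 => Real.exp (cs K n / 4)

noncomputable def Rs (K : ℝ) : ℕ → ℝ
  | 0 => 1
  | n + 1 => Real.exp (cs K n ^ 2 / 2)

noncomputable def bs (K : ℝ) (n : ℕ) : ℝ := cs K n ^ 4

theorem exp_big {x : ℝ} (hx : 500 ≤ x) : 10 * x ^ 4 ≤ Real.exp (x / 4) := by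
  have h := Real.pow_div_factorial_le_exp (x / 4) (by linarith) 8
  refine le_trans ?_ h
  have h8 : (Nat.factorial 8 : ℝ) = 40320 := by norm_num [Nat.factorial]
  rw [h8]
  have h4 : (500 : ℝ) ^ 4 ≤ x ^ 4 := pow_le_pow_left₀ (by norm_num) hx 4
  have e : (x / 4) ^ 8 / 40320 = x ^ 4 * (x ^ 4 / (65536 * 40320)) := by ring
  rw [e]
  have h5 : 10 ≤ x ^ 4 / (65536 * 40320) := by
    rw [le_div_iff₀ (by norm_num)]
    refine le_trans ?_ h4
    norm_num
  nlinarith [pow_pos (show (0 : ℝ) < x by linarith) 4]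

section

variable {K : ℝ} (hK : 500 ≤ K)
include hK

theorem cs_ge (n : ℕ) : K + n ≤ cs K n := by
  induction n with
  | zero => simp [cs]
  | succ n ih =>
    have h0 : (0 : ℝ) ≤ n := Nat.cast_nonneg n
    have h1 : 500 ≤ cs K n := by linarith
    have h2 := exp_big h1
    have h3 : cs K n ≤ cs K n ^ 4 := le_self_pow₀ (by linarith) (by norm_num)
    simp only [cs]
    push_cast
    linarith

theorem cs_500 (n : ℕ) : 500 ≤ cs K n := by
  have := cs_ge hK n
  have h0 : (0 : ℝ) ≤ n := Nat.cast_nonneg n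
  linarith

theorem cs_succ (n : ℕ) : 10 * cs K n ^ 4 ≤ cs K (n + 1) := exp_big (cs_500 hK n)

theorem cs_lt (n : ℕ) : cs K n + K ≤ cs K (n + 1) := by
  have h1 := cs_succ hK n
  have h2 := cs_500 hK n
  have h3 : cs K n ≤ cs K n ^ 4 := le_self_pow₀ (by linarith) (by norm_num)
  have h4 := cs_ge hK n
  have h0 : (0 : ℝ) ≤ n := Nat.cast_nonneg n
  linarith

theorem sum_le (n : ℕ) : 1 + ∑ m ∈ Finset.range n, bs K m ≤ cs K n := by
  induction n with
  | zero => simp [cs]; linarith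
  | succ n ih =>
    rw [Finset.sum_range_succ]
    have h1 := cs_succ hK n
    have h2 := cs_500 hK n
    have h3 : cs K n ≤ cs K n ^ 4 := le_self_pow₀ (by linarith) (by norm_num)
    simp only [bs] at ih ⊢
    linarith

theorem bs_ge (n : ℕ) : 1 ≤ bs K n := one_le_pow₀ (by linarith [cs_500 hK n])

omit hK in
theorem bs_succ (n : ℕ) : bs K (n + 1) = Real.exp (cs K n) := by
  simp only [bs, cs]
  rw [← Real.exp_nat_mul]
  congr 1
  push_cast
  ring

omit hK in
theorem Rs_pos (n : ℕ) : 0 < Rs K n := by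
  rcases n with _ | n
  · simp [Rs]
  · exact Real.exp_pos _

theorem par : Par (Rs K) (bs K) where
  R0 := rfl
  R1 := by
    intro n
    rcases n with _ | n
    · simp [Rs]
    · have h1 := cs_ge hK n
      have h0 : (0 : ℝ) ≤ n := Nat.cast_nonneg n
      have h2 : ((n : ℝ) + 1) ≤ cs K n ^ 2 / 2 := by nlinarith
      have h3 : (2 : ℝ) ^ (n + 1) ≤ Real.exp (n + 1) := by
        have h4 : (2 : ℝ) ≤ Real.exp 1 := by linarith [Real.add_one_le_exp 1]
        calc (2 : ℝ) ^ (n + 1) ≤ Real.exp 1 ^ (n + 1) := pow_le_pow_left₀ (by norm_num) h4 _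
          _ = Real.exp (n + 1) := by rw [← Real.exp_nat_mul]; push_cast; ring_nf
      exact h3.trans (Real.exp_le_exp.2 h2)
  Rm := by
    intro n
    rcases n with _ | n
    · simp only [Rs]
      exact Real.one_le_exp (by positivity)
    · simp only [Rs]
      refine Real.exp_le_exp.2 ?_
      have h1 := cs_lt hK n
      have h2 := cs_500 hK n
      nlinarith
  b0 := fun n => by linarith [bs_ge hK n]
  dec := by
    have key : ∀ n, bs K (n + 1) / Rs K (n + 1) ^ 5 = Real.exp (cs K n - 5 / 2 * cs K n ^ 2) := by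
      intro n
      rw [bs_succ]
      simp only [Rs]
      rw [← Real.exp_nat_mul, ← Real.exp_sub]
      congr 1
      push_cast
      ring
    intro n
    rw [key]
    rcases n with _ | n
    · simp only [bs, cs, Rs, one_pow, div_one]
      have h1 : Real.exp (K - 5 / 2 * K ^ 2) < 1 := by
        have := Real.exp_lt_exp.2 (show K - 5 / 2 * K ^ 2 < 0 by nlinarith)
        rwa [Real.exp_zero] at this
      have h2 : (1 : ℝ) ≤ K ^ 4 := one_le_pow₀ (by linarith)
      linarith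
    · rw [key]
      refine Real.exp_lt_exp.2 ?_
      have h1 := cs_lt hK n
      have h2 := cs_500 hK n
      nlinarith
  big := by
    refine tendsto_atTop_mono (f := fun n : ℕ => (n : ℝ)) ?_ tendsto_natCast_atTop_atTop
    intro n
    calc (n : ℝ) = ∑ m ∈ Finset.range n, (1 : ℝ) := by simp
      _ ≤ _ := Finset.sum_le_sum fun m _ => bs_ge hK m
  rap := by
    intro j
    refine ⟨Real.exp ((j : ℝ) ^ 3 / 2), fun n => ?_⟩
    have h2 := cs_500 hK n
    have h0 : (0 : ℝ) ≤ j := Nat.cast_nonneg j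
    have hs := sum_le hK n
    have hs0 : 0 < 1 + ∑ m ∈ Finset.range n, bs K m := by
      have : 0 ≤ ∑ m ∈ Finset.range n, bs K m :=
        Finset.sum_nonneg fun m _ => by linarith [bs_ge hK m]
      linarith
    simp only [Rs]
    rw [← Real.exp_nat_mul, ← Real.exp_add]
    refine Real.exp_le_exp.2 ?_
    have h3 : cs K n ^ 3 / 2 ≤ bs K n / (2 * (1 + ∑ m ∈ Finset.range n, bs K m)) := by
      rw [le_div_iff₀ (by linarith)]
      simp only [bs] at hs ⊢
      have : 0 < cs K n ^ 3 := by positivity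
      nlinarith
    have h4 : (j : ℝ) * (cs K n ^ 2 / 2) - cs K n ^ 3 / 2 ≤ (j : ℝ) ^ 3 / 2 := by
      have : (j : ℝ) * cs K n ^ 2 ≤ (j : ℝ) ^ 3 + cs K n ^ 3 := by
        rcases le_total (j : ℝ) (cs K n) with h | h
        · have h5 : (j : ℝ) * cs K n ^ 2 ≤ cs K n * cs K n ^ 2 :=
            mul_le_mul_of_nonneg_right h (by positivity)
          have h6 : (0 : ℝ) ≤ (j : ℝ) ^ 3 := by positivity
          nlinarith
        · have h5 : cs K n ^ 2 ≤ (j : ℝ) ^ 2 := pow_le_pow_left₀ (by linarith) h 2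
          have h6 : (0 : ℝ) ≤ cs K n ^ 3 := by positivity
          nlinarith
      linarith
    linarith

theorem tower (n : ℕ) : Real.exp (2 * Rs K n ^ 2) ≤ Rs K (n + 2) ^ 2 := by
  have e : Rs K (n + 2) ^ 2 = Real.exp (cs K (n + 1) ^ 2) := by
    simp only [Rs]
    rw [← Real.exp_nat_mul]
    congr 1
    push_cast
    ring
  rw [e]
  refine Real.exp_le_exp.2 ?_
  rcases n with _ | n
  · simp only [Rs]
    have := cs_500 hK (0 + 1)
    nlinarith
  · have e1 : cs K (n + 1 + 1) ^ 2 = Real.exp (cs K (n + 1) / 2) := by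
      simp only [cs]
      rw [← Real.exp_nat_mul]
      congr 1
      push_cast
      ring
    have e2 : Rs K (n + 1) ^ 2 = Real.exp (cs K n ^ 2) := by
      simp only [Rs]
      rw [← Real.exp_nat_mul]
      congr 1
      push_cast
      ring
    rw [e1, e2]
    have h1 := cs_succ hK n
    have h2 := cs_500 hK n
    have h3 : (2 : ℝ) ≤ Real.exp 1 := by linarith [Real.add_one_le_exp 1]
    calc 2 * Real.exp (cs K n ^ 2) ≤ Real.exp 1 * Real.exp (cs K n ^ 2) :=
          mul_le_mul_of_nonneg_right h3 (Real.exp_pos _).le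
      _ = Real.exp (1 + cs K n ^ 2) := by rw [Real.exp_add]
      _ ≤ Real.exp (cs K (n + 1) / 2) := by
          refine Real.exp_le_exp.2 ?_
          have h4 : cs K n ^ 2 ≤ cs K n ^ 4 := pow_le_pow_right₀ (by linarith) (by norm_num)
          have h5 : (1 : ℝ) ≤ cs K n ^ 4 := one_le_pow₀ (by linarith)
          linarith

theorem sub {ε : ℝ} (hε : 0 < ε) :
    ∃ C, ∀ n, ∑ m ∈ Finset.range (n + 1), bs K m ≤ C * Rs K n ^ ε := by
  refine ⟨max (K ^ 4) (2 * Real.exp (1 / (2 * ε))), fun n => ?_⟩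
  rcases n with _ | n
  · simp only [zero_add, Finset.sum_range_one, bs, cs, Rs, Real.one_rpow, mul_one]
    exact le_max_left _ _
  · have h1 : ∑ m ∈ Finset.range (n + 1 + 1), bs K m ≤ 2 * bs K (n + 1) := by
      rw [Finset.sum_range_succ]
      have h2 := sum_le hK (n + 1)
      have h3 := cs_500 hK (n + 1)
      have h4 : cs K (n + 1) ≤ cs K (n + 1) ^ 4 := le_self_pow₀ (by linarith) (by norm_num)
      simp only [bs] at h2 ⊢
      linarith
    refine h1.trans ?_
    rw [bs_succ]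
    simp only [Rs]
    rw [← Real.exp_mul]
    refine le_trans ?_ (mul_le_mul_of_nonneg_right (le_max_right _ _) (Real.exp_pos _).le)
    rw [mul_assoc, ← Real.exp_add]
    refine mul_le_mul_of_nonneg_left (Real.exp_le_exp.2 ?_) (by norm_num)
    have h5 : 0 ≤ (ε * cs K n - 1) ^ 2 := sq_nonneg _
    have h6 : cs K n ≤ 1 / (2 * ε) + cs K n ^ 2 / 2 * ε := by
      have e : 1 / (2 * ε) + cs K n ^ 2 / 2 * ε = (1 + (ε * cs K n) ^ 2) / (2 * ε) := by
        field_simp
      rw [e, le_div_iff₀ (by positivity)]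
      nlinarith
    exact h6

end

theorem scale {K ρ : ℝ} (hK : 500 ≤ K) (hρ : 0 < ρ) (h : 1 ≤ 2 * ρ * Real.exp K) (n : ℕ) :
    Rs K n ^ 2 ≤ 2 * ρ * Rs K (n + 1) ^ 2 := by
  have e2 : ∀ n, Rs K (n + 1) ^ 2 = Real.exp (cs K n ^ 2) := by
    intro n
    simp only [Rs]
    rw [← Real.exp_nat_mul]
    congr 1
    push_cast
    ring
  have key : ∀ a b : ℝ, a + K ≤ b → Real.exp a ≤ 2 * ρ * Real.exp b := by
    intro a b hab
    have h1 : Real.exp (a + K) ≤ Real.exp b := Real.exp_le_exp.2 hab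
    rw [Real.exp_add] at h1
    have h2 : Real.exp a * 1 ≤ Real.exp a * (2 * ρ * Real.exp K) :=
      mul_le_mul_of_nonneg_left h (Real.exp_pos _).le
    calc Real.exp a = Real.exp a * 1 := (mul_one _).symm
      _ ≤ Real.exp a * (2 * ρ * Real.exp K) := h2
      _ = 2 * ρ * (Real.exp a * Real.exp K) := by ring
      _ ≤ _ := mul_le_mul_of_nonneg_left h1 (by positivity)
  rcases n with _ | n
  · rw [e2]
    have := key 0 (cs K 0 ^ 2) (by simp only [cs]; nlinarith)
    simpa [Rs] using this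
  · rw [e2, e2]
    refine key _ _ ?_
    have h1 := cs_lt hK n
    have h2 := cs_500 hK n
    nlinarith

theorem half {K : ℝ} (hK : 500 ≤ K) (n : ℕ) :
    bs K (n + 1) / Rs K (n + 1) ^ 5 ≤ 1 / 2 * (bs K n / Rs K n ^ 5) := by
  have key : ∀ n, bs K (n + 1) / Rs K (n + 1) ^ 5 = Real.exp (cs K n - 5 / 2 * cs K n ^ 2) := by
    intro n
    rw [bs_succ]
    simp only [Rs]
    rw [← Real.exp_nat_mul, ← Real.exp_sub]
    congr 1
    push_cast
    ring
  rw [key]
  rcases n with _ | n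
  · simp only [bs, cs, Rs, one_pow, div_one]
    have h1 : Real.exp (K - 5 / 2 * K ^ 2) < 1 := by
      have := Real.exp_lt_exp.2 (show K - 5 / 2 * K ^ 2 < 0 by nlinarith)
      rwa [Real.exp_zero] at this
    have h2 : (500 : ℝ) ≤ K ^ 4 := hK.trans (le_self_pow₀ (by linarith) (by norm_num))
    linarith
  · rw [key]
    have h1 := cs_lt hK n
    have h2 := cs_500 hK n
    have h3 : Real.exp (cs K (n + 1) - 5 / 2 * cs K (n + 1) ^ 2) ≤
        Real.exp (-1 + (cs K n - 5 / 2 * cs K n ^ 2)) := Real.exp_le_exp.2 (by nlinarith)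
    rw [Real.exp_add] at h3
    have h4 : Real.exp (-1) ≤ 1 / 2 := by
      rw [Real.exp_neg, one_div]
      exact inv_anti₀ (by norm_num) (by linarith [Real.add_one_le_exp 1])
    exact h3.trans (mul_le_mul_of_nonneg_right h4 (Real.exp_pos _).le)

theorem bs_nat {K : ℝ} (hK : 500 ≤ K) (n : ℕ) : (n : ℝ) ≤ bs K n := by
  have h1 := cs_ge hK n
  have h2 : cs K n ≤ cs K n ^ 4 := le_self_pow₀ (by linarith [cs_500 hK n]) (by norm_num)
  simp only [bs]
  linarith

/-- The parameters. -/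
theorem seq {ρ : ℝ} (hρ : 0 < ρ) : ∃ R b : ℕ → ℝ, Par R b ∧
    (∀ n, R n ^ 2 ≤ 2 * ρ * R (n + 1) ^ 2) ∧ Real.exp 2 ≤ 2 * R 1 ^ 2 ∧
    (∀ n, Real.exp (2 * R n ^ 2) ≤ R (n + 2) ^ 2) ∧
    (∀ ε > (0 : ℝ), ∃ C, ∀ n, ∑ m ∈ Finset.range (n + 1), b m ≤ C * R n ^ ε) ∧
    (∀ n, b (n + 1) / R (n + 1) ^ 5 ≤ 1 / 2 * (b n / R n ^ 5)) ∧ ∀ n : ℕ, (n : ℝ) ≤ b n := by
  obtain ⟨K, hK⟩ : ∃ K : ℝ, K = max 500 (-Real.log (2 * ρ)) := ⟨_, rfl⟩
  have hK5 : 500 ≤ K := by rw [hK]; exact le_max_left _ _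
  have hKl : -Real.log (2 * ρ) ≤ K := by rw [hK]; exact le_max_right _ _
  have h : 1 ≤ 2 * ρ * Real.exp K := by
    have h1 : Real.exp (-Real.log (2 * ρ)) ≤ Real.exp K := Real.exp_le_exp.2 hKl
    rw [Real.exp_neg, Real.exp_log (by positivity)] at h1
    have h2 : 2 * ρ * (2 * ρ)⁻¹ ≤ 2 * ρ * Real.exp K := mul_le_mul_of_nonneg_left h1 (by positivity)
    rwa [mul_inv_cancel₀ (by positivity)] at h2
  refine ⟨Rs K, bs K, par hK5, scale hK5 hρ h, ?_, tower hK5, fun ε hε => sub hK5 hε, half hK5,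
    bs_nat hK5⟩
  simp only [Rs, cs]
  rw [← Real.exp_nat_mul]
  have : Real.exp 2 ≤ Real.exp (((2 : ℕ) : ℝ) * (K ^ 2 / 2)) :=
    Real.exp_le_exp.2 (by push_cast; nlinarith)
  linarith [Real.exp_pos (((2 : ℕ) : ℝ) * (K ^ 2 / 2))]

end G

theorem t_SEQ : S_SEQ := fun _ hρ => by
  obtain ⟨R, b, h1, h2, h3, h4, h5, -, -⟩ := G.seq hρ
  exact ⟨R, b, h1, h2, h3, h4, h5⟩

end Pool.Agent.N264.EC
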