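import Pool.Agent.N264.EC.Def

/-! # Assembly, part 1: packets, the pointwise identity -/

set_option autoImplicit false

open Set Filter Topology MeasureTheory
open scoped ContDiff

namespace Pool.Agent.N264.EC

namespace M

variable {φ : V → V} {ρ : ℝ}

theorem pk_out (h : ∀ y, 1 / 2 ≤ ‖y‖ → φ y = 0) {R : ℝ} {y : V} (hy : 1 / 2 ≤ R ^ 2 * ‖y‖) :
    pk R φ y = 0 := by
  unfold pk
  rw [h _ (by rwa [norm_smul, Real.norm_of_nonneg (sq_nonneg R)]), smul_zero]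

theorem pk_sm (h : ContDiff ℝ ∞ φ) (R : ℝ) : ContDiff ℝ ∞ (pk R φ) := by
  unfold pk
  fun_prop

theorem fd_pk (h : ContDiff ℝ ∞ φ) (R : ℝ) (y : V) :
    fderiv ℝ (pk R φ) y = R ^ 5 • fderiv ℝ φ (R ^ 2 • y) := by
  have h1 : HasFDerivAt φ (fderiv ℝ φ (R ^ 2 • y)) (R ^ 2 • y) :=
    (h.differentiable (by simp) _).hasFDerivAt
  have h2 : HasFDerivAt (fun z : V => R ^ 2 • z) (R ^ 2 • ContinuousLinearMap.id ℝ V) y :=
    (hasFDerivAt_id y).const_smul (R ^ 2)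
  have h3 := (HasFDerivAt.comp (g := φ) y h1 h2).const_smul (R ^ 3)
  have h4 : HasFDerivAt (pk R φ) (R ^ 3 • (fderiv ℝ φ (R ^ 2 • y)).comp
      (R ^ 2 • ContinuousLinearMap.id ℝ V)) y := h3
  rw [h4.fderiv]
  ext1 z
  simp only [smul_apply, ContinuousLinearMap.comp_apply, ContinuousLinearMap.id_apply, map_smul,
    smul_smul]
  congr 1
  ring

theorem fd_out (h : ContDiff ℝ ∞ φ) (h0 : ∀ y, 1 / 2 ≤ ‖y‖ → φ y = 0) {y : V}
    (hy : 1 / 2 ≤ ‖y‖) : fderiv ℝ φ y = 0 := by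
  have hc : Continuous (fderiv ℝ φ) := h.continuous_fderiv (by simp)
  have h1 : Tendsto (fun s : ℝ => fderiv ℝ φ (s • y)) (𝓝[>] 1) (𝓝 (fderiv ℝ φ ((1 : ℝ) • y))) :=
    ((hc.comp (continuous_id.smul continuous_const)).tendsto 1).mono_left nhdsWithin_le_nhds
  rw [one_smul] at h1
  have h2 : Tendsto (fun s : ℝ => fderiv ℝ φ (s • y)) (𝓝[>] 1) (𝓝 0) := by
    refine tendsto_const_nhds.congr' ?_
    filter_upwards [self_mem_nhdsWithin] with s hs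
    have h3 : φ =ᶠ[𝓝 (s • y)] fun _ => 0 := by
      have h4 : {z : V | 1 / 2 < ‖z‖} ∈ 𝓝 (s • y) := by
        refine (isOpen_lt continuous_const continuous_norm).mem_nhds ?_
        simp only [mem_ofPred_eq, norm_smul, Real.norm_eq_abs]
        have : 1 < s := hs
        rw [abs_of_pos (by linarith)]
        nlinarith
      filter_upwards [h4] with z hz
      exact h0 z (le_of_lt hz)
    rw [h3.fderiv_eq]
    simp
  exact tendsto_nhds_unique h1 h2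

theorem fdp_out (h : ContDiff ℝ ∞ φ) (h0 : ∀ y, 1 / 2 ≤ ‖y‖ → φ y = 0) {R : ℝ} {y : V}
    (hy : 1 / 2 ≤ R ^ 2 * ‖y‖) : fderiv ℝ (pk R φ) y = 0 := by
  rw [fd_pk h, fd_out h h0 (by rwa [norm_smul, Real.norm_of_nonneg (sq_nonneg R)]), smul_zero]

theorem Am_zero : Am 0 = 0 := by
  ext i
  fin_cases i <;> simp [Am]

theorem Am_sm : ContDiff ℝ ∞ Am := by
  rw [contDiff_pi]
  intro i
  fin_cases i
  · simpa [Am] using contDiff_apply ℝ ℝ (0 : Fin 3)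
  · simpa [Am] using (contDiff_apply ℝ ℝ (1 : Fin 3)).neg
  · simpa [Am] using contDiff_const

theorem LL_out (h : ContDiff ℝ ∞ φ) (h0 : ∀ y, 1 / 2 ≤ ‖y‖ → φ y = 0) {R : ℝ} {y : V}
    (hy : 1 / 2 ≤ R ^ 2 * ‖y‖) : LL (pk R φ) y = 0 := by
  unfold LL
  rw [fdp_out h h0 hy, pk_out h0 hy, Am_zero]
  simp

theorem E_out (h0 : ∀ y, 1 / 2 ≤ ‖y‖ → φ y = 0) {R : ℝ} {y : V}
    (hy : 1 / 2 ≤ R ^ 2 * ‖y‖) (v : V → V) : adv (pk R φ) v y = 0 := by
  unfold adv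
  rw [pk_out h0 hy]
  simp

theorem fd_clm_sm {v a : V → V} (hv : ContDiff ℝ ∞ v) (ha : ContDiff ℝ ∞ a) :
    ContDiff ℝ ∞ (fun y => fderiv ℝ v y (a y)) :=
  (hv.fderiv_right (m := ∞) (by simp)).clm_apply ha

theorem r1_sm (h : ContDiff ℝ ∞ φ) (β : ℝ) (R : ℕ → ℝ) (n : ℕ) : ContDiff ℝ ∞ (r1 β R φ n) := by
  rcases n with _ | n
  · exact fd_clm_sm (pk_sm h _) (pk_sm h _)
  · simp only [r1]
    exact ((fd_clm_sm (pk_sm h _) (pk_sm h _)).sub (fd_clm_sm (pk_sm h _) (pk_sm h _))).sub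
      ((pk_sm h _).const_smul _)

theorem r2_sm (h : ContDiff ℝ ∞ φ) (β : ℝ) (R : ℕ → ℝ) (n : ℕ) : ContDiff ℝ ∞ (r2 β R φ n) := by
  unfold r2 LL
  exact ((fd_clm_sm (pk_sm h _) Am_sm).add (Am_sm.comp (pk_sm h _))).add ((pk_sm h _).const_smul _)

section mono

variable {R : ℕ → ℝ} (hR1 : ∀ n, 1 ≤ R n) (hRm : ∀ n, R n ≤ R (n + 1))
include hR1 hRm

omit hR1 in
theorem R_mono : Monotone R := monotone_nat_of_le_succ hRm

theorem sq_mono {m n : ℕ} (h : m ≤ n) : R m ^ 2 ≤ R n ^ 2 :=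
  pow_le_pow_left₀ (by linarith [hR1 m]) (R_mono hRm h) 2

theorem out_le {m n : ℕ} (h : m ≤ n) {y : V} (hy : 1 / 2 ≤ R m ^ 2 * ‖y‖) :
    1 / 2 ≤ R n ^ 2 * ‖y‖ :=
  hy.trans (mul_le_mul_of_nonneg_right (sq_mono hR1 hRm h) (norm_nonneg _))

theorem r1_out (h0 : ∀ y, 1 / 2 ≤ ‖y‖ → φ y = 0) (β : ℝ) (n : ℕ)
    {y : V} (hy : 1 / 2 ≤ R (n - 1) ^ 2 * ‖y‖) : r1 β R φ n y = 0 := by
  rcases n with _ | n
  · exact E_out h0 (by simpa using hy) _
  · simp only [Nat.add_sub_cancel] at hy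
    simp only [r1]
    rw [E_out h0 (out_le hR1 hRm (Nat.le_succ n) hy), E_out h0 hy, pk_out h0 hy]
    simp

theorem r2_out (h : ContDiff ℝ ∞ φ) (h0 : ∀ y, 1 / 2 ≤ ‖y‖ → φ y = 0) (β : ℝ) (n : ℕ)
    {y : V} (hy : 1 / 2 ≤ R (n - 1) ^ 2 * ‖y‖) : r2 β R φ n y = 0 := by
  have hy' := out_le hR1 hRm (Nat.sub_le n 1) hy
  unfold r2
  rw [LL_out h h0 hy', pk_out h0 hy']
  simp

end mono

/-- The finite algebraic identity. -/
theorem alg (β : ℝ) (R x g x' : ℕ → ℝ)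
    (hx : ∀ n, x' n = β * (x n * ∑ m ∈ Finset.range n, R m ^ 5 * x m - R n ^ 5 * g (n + 1) ^ 2))
    (ht : ∀ n, x n ^ 2 = g n ^ 2 - g (n + 1) ^ 2) (p E L q1 q2 : ℕ → V)
    (h0 : q1 0 = E 0) (h1 : ∀ n, q1 (n + 1) = E (n + 1) - E n - (β * R n ^ 5) • p n)
    (h2 : ∀ n, q2 n = L n + β • p n) (N : ℕ) :
    ∑ n ∈ Finset.range (N + 1), (x' n • p n + x n ^ 2 • E n
        + (x n * ∑ m ∈ Finset.range n, R m ^ 5 * x m) • L n) =
      ∑ n ∈ Finset.range (N + 1), (g n ^ 2 • q1 n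
        + (x n * ∑ m ∈ Finset.range n, R m ^ 5 * x m) • q2 n)
      - g (N + 1) ^ 2 • (E N + (β * R N ^ 5) • p N) := by
  induction N with
  | zero =>
    simp only [zero_add, Finset.sum_range_one, Finset.range_zero, Finset.sum_empty, hx, ht, h0]
    module
  | succ N ih =>
    rw [Finset.sum_range_succ, ih, Finset.sum_range_succ _ (N + 1), h1, h2, hx, ht (N + 1)]
    module

/-- Symmetrization of a double sum. -/
theorem dsum {E : Type*} [AddCommGroup E] (F : ℕ → ℕ → E) (N : ℕ) :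
    ∑ n ∈ Finset.range N, ∑ m ∈ Finset.range N, F n m =
      ∑ n ∈ Finset.range N, (F n n + ∑ m ∈ Finset.range n, (F n m + F m n)) := by
  induction N with
  | zero => simp
  | succ N ih =>
    have e : ∀ n, ∑ m ∈ Finset.range (N + 1), F n m = ∑ m ∈ Finset.range N, F n m + F n N :=
      fun n => Finset.sum_range_succ _ _
    rw [Finset.sum_range_succ (fun n => F n n + ∑ m ∈ Finset.range n, (F n m + F m n)) N, ← ih,
      Finset.sum_range_succ]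
    simp only [e, Finset.sum_add_distrib]
    abel

end M

end Pool.Agent.N264.EC
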