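import Pool.Agent.N264.EC.M1

/-! # Assembly, part 2: the constraint force; exchange of sums and integrals -/

set_option autoImplicit false

open Set Filter Topology MeasureTheory
open scoped ContDiff

namespace Pool.Agent.N264.EC

namespace M

/-- `∑_{m<n} R_m⁵ x_m(t)` -/
noncomputable def S (R : ℕ → ℝ) (x : ℕ → ℝ → ℝ) (n : ℕ) (t : ℝ) : ℝ :=
  ∑ m ∈ Finset.range n, R m ^ 5 * x m t

/-- the velocity field -/
noncomputable def U (φ : V → V) (R : ℕ → ℝ) (x : ℕ → ℝ → ℝ) (t : ℝ) : V → V :=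
  ser R φ (fun n => x n t)

/-- the coefficients of the constraint forces -/
noncomputable def lam (R : ℕ → ℝ) (x g : ℕ → ℝ → ℝ) (p : ℕ × Fin 2) (t : ℝ) : ℝ :=
  if p.2 = 0 then g p.1 t ^ 2 else x p.1 t * S R x p.1 t

/-- the constraint fields -/
noncomputable def fam (β : ℝ) (R : ℕ → ℝ) (φ : V → V) (p : ℕ × Fin 2) : V → V :=
  if p.2 = 0 then r1 β R φ p.1 else r2 β R φ p.1

/-- the residual -/
noncomputable def G (φ : V → V) (R : ℕ → ℝ) (x : ℕ → ℝ → ℝ) (t : ℝ) (y : V) : V :=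
  deriv (fun s => U φ R x s y) t + adv (U φ R x t) (U φ R x t) y

/-- Everything that is known about the solution. -/
structure Ctx (φ : V → V) (ρ β N : ℝ) (R b : ℕ → ℝ) (x g : ℕ → ℝ → ℝ) : Prop where
  pk : Pk φ ρ
  β0 : 0 < β
  N0 : 0 < N
  tbl : Tbl φ β N R
  par : Par R b
  sc : ∀ n, R n ^ 2 ≤ 2 * ρ * R (n + 1) ^ 2
  dyn : Dyn β R b x g
  loc : ContDiffOn ℝ ∞ (fun z : ℝ × V => U φ R x z.1 z.2) (univ ×ˢ {y | y ≠ 0})
  smo : ContDiffOn ℝ ∞ (fun z : ℝ × V => U φ R x z.1 z.2) (Iio 0 ×ˢ univ)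
  hs : ∀ t < 0, ∀ y, HasSum (fun n => x n t • EC.pk (R n) φ y) (U φ R x t y)
  ht : ∀ t < 0, ∀ y, HasSum (fun n => deriv (x n) t • EC.pk (R n) φ y)
        (deriv (fun s => U φ R x s y) t)
  hd : ∀ t < 0, ∀ y, HasSum (fun n => x n t • fderiv ℝ (EC.pk (R n) φ) y)
        (fderiv ℝ (U φ R x t) y)
  bd : ∀ k : ℕ, ∃ (j : ℕ) (C : ℝ), ∀ a : ℕ → ℝ, (∀ i : ℕ, Summable (fun n => R n ^ i * |a n|)) →
    ∀ y, ‖iteratedFDeriv ℝ k (ser R φ a) y‖ ≤ C * ∑' n, R n ^ j * |a n|

section

variable {φ : V → V} {ρ β N : ℝ} {R b : ℕ → ℝ} {x g : ℕ → ℝ → ℝ} (h : Ctx φ ρ β N R b x g)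
include h

theorem Ctx.R1 (n : ℕ) : 1 ≤ R n := (one_le_pow₀ (by norm_num)).trans (h.par.R1 n)

theorem Ctx.U_out (t : ℝ) {y : V} (hy : 1 / 2 ≤ ‖y‖) : U φ R x t y = 0 := by
  unfold U ser
  have : ∀ n, x n t • EC.pk (R n) φ y = 0 := fun n => by
    rw [pk_out h.pk.out, smul_zero]
    have h1 : (1 : ℝ) ≤ R n ^ 2 := one_le_pow₀ (h.R1 n)
    nlinarith
  simp [this]

theorem Ctx.phi0 : φ 0 = 0 := by
  rw [h.pk.lin 0 (by simpa using h.pk.ρ0), Am_zero]

theorem Ctx.pk0 (n : ℕ) : EC.pk (R n) φ 0 = 0 := by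
  unfold EC.pk
  rw [smul_zero, h.phi0, smul_zero]

theorem Ctx.fam_zero (n : ℕ) : r1 β R φ n 0 = 0 ∧ r2 β R φ n 0 = 0 := by
  constructor
  · rcases n with _ | n <;> simp [r1, adv, h.pk0]
  · simp [r2, LL, h.pk0, Am_zero]

/-- The number of packets at a point. -/
theorem Ctx.fin {y : V} (hy : y ≠ 0) : ∃ K : ℕ, ∀ n, K ≤ n → 1 / 2 ≤ R n ^ 2 * ‖y‖ := by
  have hy0 : 0 < ‖y‖ := norm_pos_iff.2 hy
  obtain ⟨K, hK⟩ := pow_unbounded_of_one_lt (1 / ‖y‖) (show (1 : ℝ) < 2 by norm_num)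
  refine ⟨K, fun n hn => ?_⟩
  have h1 : (2 : ℝ) ^ K ≤ 2 ^ n := pow_le_pow_right₀ (by norm_num) hn
  have h2 : (2 : ℝ) ^ n ≤ R n := h.par.R1 n
  have h3 : R n ≤ R n ^ 2 := le_self_pow₀ (h.R1 n) (by norm_num)
  have h4 : 1 / ‖y‖ ≤ R n ^ 2 := by linarith
  rw [div_le_iff₀ hy0] at h4
  linarith

/-- The pointwise identity: the residual is the sum of the constraint forces. -/
theorem Ctx.force {t : ℝ} (ht : t < 0) (y : V) :
    HasSum (fun n => g n t ^ 2 • r1 β R φ n y + (x n t * S R x n t) • r2 β R φ n y)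
      (G φ R x t y) := by
  by_cases hy : y = 0
  · subst hy
    have h1 : G φ R x t 0 = 0 := by
      have h2 : ∀ s, U φ R x s 0 = 0 := fun s => by
        unfold U ser
        simp [h.pk0]
      unfold G adv
      simp [h2]
    rw [h1]
    have h2 : (fun n => g n t ^ 2 • r1 β R φ n 0 + (x n t * S R x n t) • r2 β R φ n 0) =
        fun _ => (0 : V) := by
      ext1 n
      rw [(h.fam_zero n).1, (h.fam_zero n).2]
      simp
    rw [h2]
    exact hasSum_zero
  obtain ⟨K, hK⟩ := h.fin hy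
  have hφ := h.pk.sm
  have hR1 := h.R1
  have hRm := h.par.Rm
  have p0 : ∀ n, K ≤ n → EC.pk (R n) φ y = 0 := fun n hn => pk_out h.pk.out (hK n hn)
  have d0 : ∀ n, K ≤ n → fderiv ℝ (EC.pk (R n) φ) y = 0 := fun n hn =>
    fdp_out hφ h.pk.out (hK n hn)
  have eU : U φ R x t y = ∑ n ∈ Finset.range (K + 1), x n t • EC.pk (R n) φ y := by
    refine (h.hs t ht y).unique (hasSum_sum_of_ne_finset_zero fun n hn => ?_)
    rw [p0 n (by simp only [Finset.mem_range] at hn; omega), smul_zero]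
  have eT : deriv (fun s => U φ R x s y) t =
      ∑ n ∈ Finset.range (K + 1), deriv (x n) t • EC.pk (R n) φ y := by
    refine (h.ht t ht y).unique (hasSum_sum_of_ne_finset_zero fun n hn => ?_)
    rw [p0 n (by simp only [Finset.mem_range] at hn; omega), smul_zero]
  have eD : fderiv ℝ (U φ R x t) y =
      ∑ n ∈ Finset.range (K + 1), x n t • fderiv ℝ (EC.pk (R n) φ) y := by
    refine (h.hd t ht y).unique (hasSum_sum_of_ne_finset_zero fun n hn => ?_)
    rw [d0 n (by simp only [Finset.mem_range] at hn; omega), smul_zero]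
  have eG : G φ R x t y = ∑ n ∈ Finset.range (K + 1), (deriv (x n) t • EC.pk (R n) φ y
      + x n t ^ 2 • adv (EC.pk (R n) φ) (EC.pk (R n) φ) y
      + (x n t * S R x n t) • LL (EC.pk (R n) φ) y) := by
    unfold G
    rw [eT]
    unfold adv
    rw [eD, eU, sum_apply]
    have e1 : ∀ n, (x n t • fderiv ℝ (EC.pk (R n) φ) y)
        (∑ m ∈ Finset.range (K + 1), x m t • EC.pk (R m) φ y) =
        ∑ m ∈ Finset.range (K + 1), (x n t * x m t) •
          (fderiv ℝ (EC.pk (R n) φ) y) (EC.pk (R m) φ y) := by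
      intro n
      rw [map_sum]
      refine Finset.sum_congr rfl fun m _ => ?_
      simp only [smul_apply, map_smul, smul_smul]
      rw [mul_comm]
    simp only [e1]
    rw [dsum (fun n m => (x n t * x m t) • (fderiv ℝ (EC.pk (R n) φ) y) (EC.pk (R m) φ y)),
      ← Finset.sum_add_distrib]
    refine Finset.sum_congr rfl fun n _ => ?_
    have e2 : ∑ m ∈ Finset.range n, ((x n t * x m t) •
          (fderiv ℝ (EC.pk (R n) φ) y) (EC.pk (R m) φ y) + (x m t * x n t) •
          (fderiv ℝ (EC.pk (R m) φ) y) (EC.pk (R n) φ y)) =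
        (x n t * S R x n t) • LL (EC.pk (R n) φ) y := by
      unfold S
      rw [Finset.mul_sum, Finset.sum_smul]
      refine Finset.sum_congr rfl fun m hm => ?_
      have h3 := h.tbl.cross m n (Finset.mem_range.1 hm) y
      unfold adv at h3
      have e3 : (x n t * (R m ^ 5 * x m t)) • LL (EC.pk (R n) φ) y =
          (x n t * x m t) • (R m ^ 5 • LL (EC.pk (R n) φ) y) := by
        rw [smul_smul]
        congr 1
        ring
      rw [e3, ← h3, smul_add, mul_comm (x m t) (x n t)]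
    rw [e2]
    module
  have ha := alg β R (fun n => x n t) (fun n => g n t) (fun n => deriv (x n) t)
    (fun n => (h.dyn.eq n t).deriv) (fun n => h.dyn.tel n t) (fun n => EC.pk (R n) φ y)
    (fun n => adv (EC.pk (R n) φ) (EC.pk (R n) φ) y) (fun n => LL (EC.pk (R n) φ) y)
    (fun n => r1 β R φ n y) (fun n => r2 β R φ n y) rfl (fun n => rfl) (fun n => rfl) K
  have hz : adv (EC.pk (R K) φ) (EC.pk (R K) φ) y = 0 := E_out h.pk.out (hK K le_rfl) _
  simp only [hz, p0 K le_rfl, smul_zero, add_zero, sub_zero] at ha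
  rw [eG]
  have hS : ∀ n, ∑ m ∈ Finset.range n, R m ^ 5 * x m t = S R x n t := fun n => rfl
  simp only [hS] at ha
  rw [ha]
  refine hasSum_sum_of_ne_finset_zero fun n hn => ?_
  have hn' : K ≤ n - 1 := by simp only [Finset.mem_range] at hn; omega
  rw [r1_out hR1 hRm h.pk.out β n (hK _ hn'), r2_out hR1 hRm hφ h.pk.out β n (hK _ hn')]
  simp

end

/-- Exchange of sum and integral. -/
theorem exch {f : ℕ → V → V} {B : ℕ → ℝ} (hf : ∀ n, Continuous (f n))
    (ho : ∀ n y, 1 / 2 ≤ ‖y‖ → f n y = 0) (hB : ∀ n y, ‖f n y‖ ≤ B n) (hs : Summable B)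
    {F : V → V} (hF : ∀ y, HasSum (fun n => f n y) (F y)) {w : V → V} (hw : Continuous w) :
    HasSum (fun n => ip (f n) w) (ip F w) := by
  have hc : IsCompact (Metric.closedBall (0 : V) 1) := isCompact_closedBall 0 1
  obtain ⟨C, hC⟩ := hc.exists_bound_of_continuousOn hw.continuousOn
  have hC' : ∀ y, ‖y‖ ≤ 1 → ‖w y‖ ≤ C := fun y hy => hC y (by simpa using hy)
  have hC0 : 0 ≤ C := (norm_nonneg _).trans (hC' 0 (by simp))
  have hB0 : ∀ n, 0 ≤ B n := fun n => (norm_nonneg _).trans (hB n 0)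
  have hpt : ∀ n y, ‖∑ i, f n y i * w y i‖ ≤
      (Metric.closedBall (0 : V) 1).indicator (fun _ => 3 * (B n * C)) y := by
    intro n y
    by_cases hy : ‖y‖ ≤ 1
    · rw [indicator_of_mem (by simpa using hy)]
      refine (norm_sum_le _ _).trans ?_
      calc ∑ i : Fin 3, ‖f n y i * w y i‖ ≤ ∑ i : Fin 3, B n * C := by
            refine Finset.sum_le_sum fun i _ => ?_
            rw [norm_mul]
            exact mul_le_mul ((norm_le_pi_norm _ i).trans (hB n y))
              ((norm_le_pi_norm _ i).trans (hC' y hy)) (norm_nonneg _) (hB0 n)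
        _ = 3 * (B n * C) := by simp
    · rw [indicator_of_notMem (by simpa using hy), ho n y (by linarith)]
      simp
  have hcont : ∀ n, Continuous (fun y => ∑ i, f n y i * w y i) := fun n =>
    continuous_finsetSum _ fun i _ => ((continuous_apply i).comp (hf n)).mul
      ((continuous_apply i).comp hw)
  have hind : ∀ c : ℝ, Integrable ((Metric.closedBall (0 : V) 1).indicator (fun _ => c)) :=
    fun c => (integrable_indicator_iff measurableSet_closedBall).2
      (integrableOn_const hc.measure_lt_top.ne)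
  have hint : ∀ n, Integrable (fun y => ∑ i, f n y i * w y i) := fun n =>
    (hind (3 * (B n * C))).mono' (hcont n).aestronglyMeasurable
      (Filter.Eventually.of_forall (hpt n))
  have hsum : Summable fun n => ∫ y, ‖∑ i, f n y i * w y i‖ := by
    refine Summable.of_nonneg_of_le (fun n => integral_nonneg fun _ => norm_nonneg _)
      (fun n => ?_) (((hs.mul_right C).mul_left 3).mul_left
        (∫ y : V, (Metric.closedBall (0 : V) 1).indicator (fun _ => (1 : ℝ)) y))
    rw [← integral_mul_const]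
    refine integral_mono (hint n).norm ((hind 1).mul_const _) fun y => ?_
    refine (hpt n y).trans (le_of_eq ?_)
    by_cases hy : y ∈ Metric.closedBall (0 : V) 1
    · simp only [indicator_of_mem hy, one_mul]
    · simp only [indicator_of_notMem hy, zero_mul]
  have hmain := hasSum_integral_of_summable_integral_norm hint hsum
  have e : ∫ y, ∑' n, ∑ i, f n y i * w y i = ip F w := by
    unfold ip
    refine integral_congr_ae (Filter.Eventually.of_forall fun y => ?_)
    simp only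
    have h1 : ∀ i, HasSum (fun n => f n y i * w y i) (F y i * w y i) := fun i =>
      (Pi.hasSum.1 (hF y) i).mul_right _
    exact (hasSum_sum fun i _ => h1 i).tsum_eq
  rw [e] at hmain
  exact hmain

end M

end Pool.Agent.N264.EC
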