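import Pool.Agent.N264.EC.M2

/-! # Assembly, part 3: integrals -/

set_option autoImplicit false

open Set Filter Topology MeasureTheory
open scoped ContDiff

namespace Pool.Agent.N264.EC

namespace M

theorem rap_summable {R : ℕ → ℝ} (hR : ∀ n, 2 ^ n ≤ R n) {x : ℕ → ℝ → ℝ} (hx : RapI R x)
    {t : ℝ} (ht : t < 0) (i : ℕ) : Summable (fun n => R n ^ i * |x n t|) := by
  obtain ⟨M, hM⟩ := hx 0 (i + 1) t ht
  have h1 : Summable fun n : ℕ => M * (1 / 2 : ℝ) ^ n :=
    (summable_geometric_of_lt_one (by norm_num) (by norm_num)).mul_left M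
  have hRp : ∀ n, 0 < R n := fun n => lt_of_lt_of_le (by positivity) (hR n)
  refine Summable.of_nonneg_of_le (fun n => mul_nonneg (pow_nonneg (hRp n).le _) (abs_nonneg _))
    (fun n => ?_) h1
  have h2 := hM t le_rfl n
  rw [iteratedDeriv_zero, pow_succ] at h2
  have h3 : R n ^ i * |x n t| * R n ≤ M := by linarith
  have h4 : 0 ≤ R n ^ i * |x n t| := mul_nonneg (pow_nonneg (hRp n).le _) (abs_nonneg _)
  have h5 : (R n ^ i * |x n t|) * 2 ^ n ≤ M :=
    (mul_le_mul_of_nonneg_left (hR n) h4).trans h3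
  rw [one_div, inv_pow, ← div_eq_mul_inv, le_div_iff₀ (by positivity)]
  exact h5

theorem bdd_of_out {E : Type*} [NormedAddCommGroup E] {f : V → E} (hf : Continuous f)
    (ho : ∀ y, 1 / 2 ≤ ‖y‖ → f y = 0) : ∃ C, 0 ≤ C ∧ ∀ y, ‖f y‖ ≤ C := by
  have hc : IsCompact (Metric.closedBall (0 : V) 1) := isCompact_closedBall 0 1
  obtain ⟨C, hC⟩ := hc.exists_bound_of_continuousOn hf.continuousOn
  have hC0 : 0 ≤ C := (norm_nonneg _).trans (hC 0 (by simp))
  refine ⟨C, hC0, fun y => ?_⟩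
  by_cases hy : ‖y‖ ≤ 1
  · exact hC y (by simpa using hy)
  · rw [ho y (by linarith), norm_zero]
    exact hC0

theorem Am_le (y : V) : ‖Am y‖ ≤ ‖y‖ := by
  refine (pi_norm_le_iff_of_nonneg (norm_nonneg _)).2 fun i => ?_
  fin_cases i
  · simpa [Am] using norm_le_pi_norm y 0
  · simpa [Am] using norm_le_pi_norm y 1
  · simp [Am]

section

variable {φ : V → V} {ρ β N : ℝ} {R b : ℕ → ℝ} {x g : ℕ → ℝ → ℝ} (h : Ctx φ ρ β N R b x g)
include h

/-- Bounds for the packets and the constraint fields. -/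
theorem Ctx.bounds : ∃ C0 C1 C2 : ℝ, 0 ≤ C0 ∧ 0 ≤ C1 ∧ 0 ≤ C2 ∧
    (∀ n y, ‖EC.pk (R n) φ y‖ ≤ C0 * R n ^ 3) ∧
    (∀ n y, ‖fderiv ℝ (EC.pk (R n) φ) y‖ ≤ C1 * R n ^ 5) ∧
    (∀ n y, ‖r1 β R φ n y‖ ≤ C2 * R n ^ 8) ∧ (∀ n y, ‖r2 β R φ n y‖ ≤ C2 * R n ^ 8) := by
  have hφ := h.pk.sm
  have hβ := h.β0
  obtain ⟨C0, hC0, hb0⟩ := bdd_of_out hφ.continuous h.pk.out
  obtain ⟨C1, hC1, hb1⟩ := bdd_of_out (hφ.continuous_fderiv (by simp))
    (fun y hy => fd_out hφ h.pk.out hy)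
  have hR0 : ∀ n, 0 < R n := fun n => by linarith [h.R1 n]
  have p0 : ∀ n y, ‖EC.pk (R n) φ y‖ ≤ C0 * R n ^ 3 := fun n y => by
    unfold EC.pk
    rw [norm_smul, Real.norm_of_nonneg (pow_nonneg (hR0 n).le _), mul_comm]
    exact mul_le_mul_of_nonneg_right (hb0 _) (pow_nonneg (hR0 n).le _)
  have p1 : ∀ n y, ‖fderiv ℝ (EC.pk (R n) φ) y‖ ≤ C1 * R n ^ 5 := fun n y => by
    rw [fd_pk hφ, norm_smul, Real.norm_of_nonneg (pow_nonneg (hR0 n).le _), mul_comm]
    exact mul_le_mul_of_nonneg_right (hb1 _) (pow_nonneg (hR0 n).le _)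
  have pE : ∀ n y, ‖adv (EC.pk (R n) φ) (EC.pk (R n) φ) y‖ ≤ C1 * C0 * R n ^ 8 := fun n y => by
    unfold adv
    refine (ContinuousLinearMap.le_opNorm _ _).trans ?_
    refine (mul_le_mul (p1 n y) (p0 n y) (norm_nonneg _)
      (mul_nonneg hC1 (pow_nonneg (hR0 n).le _))).trans (le_of_eq ?_)
    ring
  refine ⟨C0, C1, 2 * (C1 * C0) + C1 + C0 + β * C0, hC0, hC1, by positivity, p0, p1, ?_, ?_⟩
  · intro n y
    have hn : 0 ≤ R n ^ 8 := pow_nonneg (hR0 n).le _
    rcases n with _ | n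
    · refine (pE 0 y).trans ?_
      refine mul_le_mul_of_nonneg_right ?_ hn
      have : 0 ≤ C1 * C0 := by positivity
      have : 0 ≤ β * C0 := by positivity
      linarith
    · simp only [r1]
      have h8 : R n ^ 8 ≤ R (n + 1) ^ 8 := pow_le_pow_left₀ (hR0 n).le (h.par.Rm n) 8
      have e1 : ‖(β * R n ^ 5) • EC.pk (R n) φ y‖ ≤ β * C0 * R n ^ 8 := by
        rw [norm_smul, Real.norm_of_nonneg (mul_nonneg hβ.le (pow_nonneg (hR0 n).le _))]
        refine (mul_le_mul_of_nonneg_left (p0 n y)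
          (mul_nonneg hβ.le (pow_nonneg (hR0 n).le _))).trans (le_of_eq ?_)
        ring
      have e2 := norm_sub_le (adv (EC.pk (R (n + 1)) φ) (EC.pk (R (n + 1)) φ) y
        - adv (EC.pk (R n) φ) (EC.pk (R n) φ) y) ((β * R n ^ 5) • EC.pk (R n) φ y)
      have e3 := norm_sub_le (adv (EC.pk (R (n + 1)) φ) (EC.pk (R (n + 1)) φ) y)
        (adv (EC.pk (R n) φ) (EC.pk (R n) φ) y)
      have e4 := pE (n + 1) y
      have e5 := pE n y
      have e6 : C1 * C0 * R n ^ 8 ≤ C1 * C0 * R (n + 1) ^ 8 :=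
        mul_le_mul_of_nonneg_left h8 (by positivity)
      have e7 : β * C0 * R n ^ 8 ≤ β * C0 * R (n + 1) ^ 8 :=
        mul_le_mul_of_nonneg_left h8 (by positivity)
      have e8 : 0 ≤ C1 * R (n + 1) ^ 8 := mul_nonneg hC1 hn
      have e9 : 0 ≤ C0 * R (n + 1) ^ 8 := mul_nonneg hC0 hn
      nlinarith
  · intro n y
    have h1 := h.R1 n
    have h38 : R n ^ 3 ≤ R n ^ 8 := pow_le_pow_right₀ h1 (by norm_num)
    have h58 : R n ^ 5 ≤ R n ^ 8 := pow_le_pow_right₀ h1 (by norm_num)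
    have hn : 0 ≤ R n ^ 8 := pow_nonneg (hR0 n).le _
    by_cases hy : ‖y‖ ≤ 1
    · have e1 : ‖LL (EC.pk (R n) φ) y‖ ≤ C1 * R n ^ 5 + C0 * R n ^ 3 := by
        unfold LL
        refine (norm_add_le _ _).trans (add_le_add ?_ ((Am_le _).trans (p0 n y)))
        refine (ContinuousLinearMap.le_opNorm _ _).trans ?_
        refine (mul_le_mul (p1 n y) ((Am_le y).trans hy) (norm_nonneg _)
          (mul_nonneg hC1 (pow_nonneg (hR0 n).le _))).trans (le_of_eq (mul_one _))
      have e2 : ‖β • EC.pk (R n) φ y‖ ≤ β * (C0 * R n ^ 3) := by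
        rw [norm_smul, Real.norm_of_nonneg hβ.le]
        exact mul_le_mul_of_nonneg_left (p0 n y) hβ.le
      have e3 := norm_add_le (LL (EC.pk (R n) φ) y) (β • EC.pk (R n) φ y)
      have e4 : C1 * R n ^ 5 ≤ C1 * R n ^ 8 := mul_le_mul_of_nonneg_left h58 hC1
      have e5 : C0 * R n ^ 3 ≤ C0 * R n ^ 8 := mul_le_mul_of_nonneg_left h38 hC0
      have e6 : β * (C0 * R n ^ 3) ≤ β * (C0 * R n ^ 8) := mul_le_mul_of_nonneg_left e5 hβ.le
      have e7 : 0 ≤ C1 * C0 * R n ^ 8 := by positivity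
      unfold r2
      nlinarith
    · have : r2 β R φ n y = 0 := by
        refine r2_out h.R1 h.par.Rm hφ h.pk.out β n ?_
        have : (1 : ℝ) ≤ R (n - 1) ^ 2 := one_le_pow₀ (h.R1 _)
        nlinarith
      rw [this, norm_zero]
      positivity

theorem Ctx.g_bd {t : ℝ} (ht : t ≤ 0) (n : ℕ) : 0 < g n t ∧ g n t ≤ b n / R n ^ 5 := by
  obtain ⟨h1, h2, h3⟩ := h.dyn.pos n t ht
  exact ⟨h1.trans h2, h3⟩

theorem Ctx.al_le (n : ℕ) : b n / R n ^ 5 ≤ b 0 := by
  induction n with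
  | zero => rw [h.par.R0]; simp
  | succ n ih => exact (h.par.dec n).le.trans ih

theorem Ctx.S_bd {t : ℝ} (ht : t < 0) : ∃ C, 0 ≤ C ∧ ∀ n, |S R x n t| ≤ C := by
  have hs := rap_summable h.par.R1 h.dyn.rapx ht 5
  have hR0 : ∀ n, 0 < R n := fun n => by linarith [h.R1 n]
  refine ⟨∑' n, R n ^ 5 * |x n t|, tsum_nonneg fun n =>
    mul_nonneg (pow_nonneg (hR0 n).le _) (abs_nonneg _), fun n => ?_⟩
  unfold S
  refine (Finset.abs_sum_le_sum_abs _ _).trans ?_
  have e : ∀ m, |R m ^ 5 * x m t| = R m ^ 5 * |x m t| := fun m => by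
    rw [abs_mul, abs_of_nonneg (pow_nonneg (hR0 m).le _)]
  simp only [e]
  exact hs.sum_le_tsum _ fun m _ => mul_nonneg (pow_nonneg (hR0 m).le _) (abs_nonneg _)

/-- Testing the velocity. -/
theorem Ctx.ipU {t : ℝ} (ht : t < 0) {w : V → V} (hw : Continuous w) :
    HasSum (fun n => x n t * ip (EC.pk (R n) φ) w) (ip (U φ R x t) w) := by
  obtain ⟨C0, C1, C2, hC0, hC1, hC2, p0, p1, q1, q2⟩ := h.bounds
  have hs := rap_summable h.par.R1 h.dyn.rapx ht 3
  have h1 := exch (f := fun n y => x n t • EC.pk (R n) φ y) (B := fun n => C0 * (R n ^ 3 * |x n t|))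
    (fun n => by
      have h5 := (pk_sm h.pk.sm (R n)).continuous
      fun_prop)
    (fun n y hy => by
      rw [pk_out h.pk.out, smul_zero]
      have : (1 : ℝ) ≤ R n ^ 2 := one_le_pow₀ (h.R1 n)
      nlinarith)
    (fun n y => by
      rw [norm_smul, Real.norm_eq_abs]
      calc |x n t| * ‖EC.pk (R n) φ y‖ ≤ |x n t| * (C0 * R n ^ 3) :=
            mul_le_mul_of_nonneg_left (p0 n y) (abs_nonneg _)
        _ = _ := by ring)
    (hs.mul_left C0) (F := U φ R x t) (fun y => h.hs t ht y) hw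
  refine h1.congr_fun fun n => ?_
  unfold ip
  rw [← integral_const_mul]
  congr 1
  ext1 y
  rw [Finset.mul_sum]
  exact Finset.sum_congr rfl fun i _ => by simp only [Pi.smul_apply, smul_eq_mul]; ring

/-- Testing the residual. -/
theorem Ctx.ipG {t : ℝ} (ht : t < 0) {w : V → V} (hw : Continuous w)
    (h1 : ∀ n, ip (r1 β R φ n) w = 0) (h2 : ∀ n, ip (r2 β R φ n) w = 0) :
    ip (G φ R x t) w = 0 := by
  obtain ⟨C0, C1, C2, hC0, hC1, hC2, p0, p1, q1, q2⟩ := h.bounds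
  obtain ⟨CS, hCS, hS⟩ := h.S_bd ht
  have hR0 : ∀ n, 0 < R n := fun n => by linarith [h.R1 n]
  have hsx := rap_summable h.par.R1 h.dyn.rapx ht 8
  have hsg := rap_summable h.par.R1 h.dyn.rapg ht 8
  have h3 := exch (f := fun n y => g n t ^ 2 • r1 β R φ n y + (x n t * S R x n t) • r2 β R φ n y)
    (B := fun n => b 0 * C2 * (R n ^ 8 * |g n t|) + CS * C2 * (R n ^ 8 * |x n t|))
    (fun n => by
      have h5 := (r1_sm h.pk.sm β R n).continuous
      have h6 := (r2_sm h.pk.sm β R n).continuous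
      fun_prop)
    (fun n y hy => by
      have : (1 : ℝ) ≤ R (n - 1) ^ 2 := one_le_pow₀ (h.R1 _)
      have h4 : 1 / 2 ≤ R (n - 1) ^ 2 * ‖y‖ := by nlinarith
      rw [r1_out h.R1 h.par.Rm h.pk.out β n h4, r2_out h.R1 h.par.Rm h.pk.sm h.pk.out β n h4]
      simp)
    (fun n y => by
      have hg := h.g_bd ht.le n
      have hb := h.al_le n
      refine (norm_add_le _ _).trans (add_le_add ?_ ?_)
      · rw [norm_smul, Real.norm_of_nonneg (sq_nonneg _)]
        have e1 : g n t ^ 2 ≤ b 0 * |g n t| := by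
          rw [abs_of_pos hg.1, sq]
          exact mul_le_mul_of_nonneg_right (hg.2.trans hb) hg.1.le
        calc g n t ^ 2 * ‖r1 β R φ n y‖ ≤ (b 0 * |g n t|) * (C2 * R n ^ 8) :=
              mul_le_mul e1 (q1 n y) (norm_nonneg _)
                (mul_nonneg (h.par.b0 0).le (abs_nonneg _))
          _ = _ := by ring
      · rw [norm_smul, norm_mul, Real.norm_eq_abs, Real.norm_eq_abs]
        calc |x n t| * |S R x n t| * ‖r2 β R φ n y‖ ≤ |x n t| * CS * (C2 * R n ^ 8) :=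
              mul_le_mul (mul_le_mul_of_nonneg_left (hS n) (abs_nonneg _)) (q2 n y)
                (norm_nonneg _) (mul_nonneg (abs_nonneg _) hCS)
          _ = _ := by ring)
    ((hsg.mul_left _).add (hsx.mul_left _)) (F := G φ R x t) (fun y => h.force ht y) hw
  have e : ∀ n, ip (fun y => g n t ^ 2 • r1 β R φ n y + (x n t * S R x n t) • r2 β R φ n y) w
      = 0 := by
    intro n
    have hout1 : ∀ y, 1 / 2 ≤ ‖y‖ → r1 β R φ n y = 0 := fun y hy => by
      refine r1_out h.R1 h.par.Rm h.pk.out β n ?_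
      have : (1 : ℝ) ≤ R (n - 1) ^ 2 := one_le_pow₀ (h.R1 _)
      nlinarith
    have hout2 : ∀ y, 1 / 2 ≤ ‖y‖ → r2 β R φ n y = 0 := fun y hy => by
      refine r2_out h.R1 h.par.Rm h.pk.sm h.pk.out β n ?_
      have : (1 : ℝ) ≤ R (n - 1) ^ 2 := one_le_pow₀ (h.R1 _)
      nlinarith
    have hint : ∀ {q : V → V}, Continuous q → (∀ y, 1 / 2 ≤ ‖y‖ → q y = 0) →
        Integrable (fun y => ∑ i, q y i * w y i) := by
      intro q hq hq0
      refine Continuous.integrable_of_hasCompactSupport ?_ ?_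
      · exact continuous_finsetSum _ fun i _ => ((continuous_apply i).comp hq).mul
          ((continuous_apply i).comp hw)
      · refine HasCompactSupport.of_support_subset_isCompact
          (isCompact_closedBall (0 : V) 1) fun y hy => ?_
        by_contra hc
        simp only [Metric.mem_closedBall, dist_zero_right, not_le] at hc
        exact hy (by simp [hq0 y (by linarith)])
    have i1 := hint (r1_sm h.pk.sm β R n).continuous hout1
    have i2 := hint (r2_sm h.pk.sm β R n).continuous hout2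
    have e2 : ip (fun y => g n t ^ 2 • r1 β R φ n y + (x n t * S R x n t) • r2 β R φ n y) w =
        g n t ^ 2 * ip (r1 β R φ n) w + (x n t * S R x n t) * ip (r2 β R φ n) w := by
      unfold ip
      rw [← integral_const_mul, ← integral_const_mul,
        ← integral_add (i1.const_mul _) (i2.const_mul _)]
      congr 1
      ext1 y
      rw [Finset.mul_sum, Finset.mul_sum, ← Finset.sum_add_distrib]
      exact Finset.sum_congr rfl fun i _ => by
        simp only [Pi.add_apply, Pi.smul_apply, smul_eq_mul]; ring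
    rw [e2, h1, h2]
    ring
  simp only [e] at h3
  exact h3.unique hasSum_zero

end

end M

end Pool.Agent.N264.EC
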