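import Pool.Agent.N264.EC.M3
import Pool.Agent.N264.EC.D

/-! # Assembly, part 4: the solution on the torus -/

set_option autoImplicit false

open Set Filter Topology MeasureTheory
open scoped ContDiff

namespace Pool.Agent.N264.EC

/-- Classical (`C¹`) solutions, for the times in the interval `I`, of the Euler equations on `𝕋³`
under the constraints `∫ u(t) · r i = 0`. -/
structure SolI {ι : Type} (r : ι → V → V) (I : Set ℝ) (u : ℝ → V → V) : Prop where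
  c1 : ContDiffOn ℝ 1 (fun z : ℝ × V => u z.1 z.2) (I ×ˢ univ)
  per : ∀ t ∈ I, Periodic3 (u t)
  div : ∀ t ∈ I, ∀ x, divg (u t) x = 0
  con : ∀ t ∈ I, ∀ i, ipT (u t) (r i) = 0
  eqn : ∀ t ∈ I, ∀ w : V → V, ContDiff ℝ 1 w → Periodic3 w → (∀ x, divg w x = 0) →
    (∀ i, ipT w (r i) = 0) →
    ipT (fun x => derivWithin (fun s => u s x) I t + adv (u t) (u t) x) w = 0

namespace M

theorem ip_comm (v w : V → V) : ip v w = ip w v := by
  unfold ip
  congr 1
  ext1 x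
  exact Finset.sum_congr rfl fun i _ => mul_comm _ _

/-- The lattice vector. -/
noncomputable def lat (k : Fin 3 → ℤ) : V := fun i => 2 * Real.pi * (k i : ℝ)

/-- Local structure of the periodic extension. -/
theorem loc_per (x : V) : ∃ k : Fin 3 → ℤ, ‖x - lat k‖ ≤ Real.pi ∧ ∀ᶠ y in 𝓝 x, ∀ v : V → V,
    (∀ y, 1 / 2 ≤ ‖y‖ → v y = 0) → per v y = v (y - lat k) := by
  obtain ⟨k, hk, he⟩ := t_TOR.2.2 x
  refine ⟨k, hk, ?_⟩
  filter_upwards [he] with y hy v hv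
  rcases hy with h1 | ⟨h1, h2⟩
  · unfold per
    rw [h1]
    rfl
  · unfold per
    rw [hv _ h1]
    exact (hv _ h2).symm

theorem fd_per {v : V → V} (hv : ∀ y, 1 / 2 ≤ ‖y‖ → v y = 0) {x : V} {k : Fin 3 → ℤ}
    (he : ∀ᶠ y in 𝓝 x, ∀ v : V → V, (∀ y, 1 / 2 ≤ ‖y‖ → v y = 0) → per v y = v (y - lat k)) :
    fderiv ℝ (per v) x = fderiv ℝ v (x - lat k) := by
  have h1 : per v =ᶠ[𝓝 x] fun y => v (y - lat k) := by
    filter_upwards [he] with y hy
    exact hy v hv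
  rw [h1.fderiv_eq, fderiv_comp_sub]

theorem ifd_per {v : V → V} (hv : ∀ y, 1 / 2 ≤ ‖y‖ → v y = 0) {x : V} {k : Fin 3 → ℤ}
    (he : ∀ᶠ y in 𝓝 x, ∀ v : V → V, (∀ y, 1 / 2 ≤ ‖y‖ → v y = 0) → per v y = v (y - lat k))
    (n : ℕ) : iteratedFDeriv ℝ n (per v) x = iteratedFDeriv ℝ n v (x - lat k) := by
  have h1 : per v =ᶠ[𝓝 x] fun y => v (y - lat k) := by
    filter_upwards [he] with y hy
    exact hy v hv
  rw [h1.iteratedFDeriv ℝ n |>.eq_of_nhds, iteratedFDeriv_comp_sub]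

/-- Joint smoothness of the periodic extension. -/
theorem sm_per {u : ℝ → V → V} {n : WithTop ℕ∞} (hu : ∀ t y, 1 / 2 ≤ ‖y‖ → u t y = 0) {t : ℝ}
    {x : V} {k : Fin 3 → ℤ}
    (he : ∀ᶠ y in 𝓝 x, ∀ v : V → V, (∀ y, 1 / 2 ≤ ‖y‖ → v y = 0) → per v y = v (y - lat k))
    (h : ContDiffAt ℝ n (fun z : ℝ × V => u z.1 z.2) (t, x - lat k)) :
    ContDiffAt ℝ n (fun z : ℝ × V => per (u z.1) z.2) (t, x) := by
  have h1 : (fun z : ℝ × V => per (u z.1) z.2) =ᶠ[𝓝 (t, x)] fun z => u z.1 (z.2 - lat k) := by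
    have h2 : ∀ᶠ z in 𝓝 (t, x), ∀ v : V → V, (∀ y, 1 / 2 ≤ ‖y‖ → v y = 0) →
        per v z.2 = v (z.2 - lat k) := (continuous_snd.tendsto (t, x)).eventually he
    filter_upwards [h2] with z hz
    exact hz _ (hu z.1)
  refine ContDiffAt.congr_of_eventuallyEq ?_ h1
  have h3 : ContDiffAt ℝ n (fun z : ℝ × V => (z.1, z.2 - lat k)) (t, x) :=
    (contDiff_fst.prodMk (contDiff_snd.sub contDiff_const)).contDiffAt
  exact ContDiffAt.comp (g := fun z : ℝ × V => u z.1 z.2) (t, x) h h3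

theorem per_adv {v w : V → V} (hv : ∀ y, 1 / 2 ≤ ‖y‖ → v y = 0)
    (hw0 : ∀ y, 1 / 2 ≤ ‖y‖ → w y = 0) (x : V) : adv (per v) (per w) x = per (adv v w) x := by
  obtain ⟨k, -, he⟩ := t_TOR.2.2 x
  obtain ⟨k', -, he'⟩ := loc_per x
  unfold adv
  rw [fd_per hw0 he']
  have h1 := he'.self_of_nhds v hv
  have h2 := he'.self_of_nhds (adv v w) (fun y hy => by unfold adv; rw [hv y hy, map_zero])
  rw [h1]
  exact h2.symm

section

variable {φ : V → V} {ρ β N : ℝ} {R b : ℕ → ℝ} {x g : ℕ → ℝ → ℝ} (h : Ctx φ ρ β N R b x g)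
include h

theorem Ctx.slice {t : ℝ} (ht : t < 0) : ContDiff ℝ ∞ (U φ R x t) := by
  rw [← contDiffOn_univ]
  exact h.smo.comp (contDiff_const.prodMk contDiff_id).contDiffOn (fun y _ => ⟨ht, mem_univ _⟩)

theorem Ctx.G_out {t : ℝ} {y : V} (hy : 1 / 2 ≤ ‖y‖) : G φ R x t y = 0 := by
  unfold G adv
  have h1 : (fun s => U φ R x s y) = fun _ => 0 := by
    ext1 s
    exact h.U_out s hy
  rw [h1, h.U_out t hy, map_zero]
  simp

theorem Ctx.divU {t : ℝ} (ht : t < 0) (y : V) : divg (U φ R x t) y = 0 := by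
  have h1 : ∀ i : Fin 3, HasSum (fun n => x n t * fderiv ℝ (EC.pk (R n) φ) y (Pi.single i 1) i)
      (fderiv ℝ (U φ R x t) y (Pi.single i 1) i) := by
    intro i
    have h2 := ((ContinuousLinearMap.proj (R := ℝ) (φ := fun _ : Fin 3 => ℝ) i).comp
      (ContinuousLinearMap.apply ℝ V (Pi.single i (1 : ℝ)))).hasSum (h.hd t ht y)
    refine h2.congr_fun fun n => ?_
    simp
  have h3 := hasSum_sum (s := (Finset.univ : Finset (Fin 3))) fun i _ => h1 i
  have h4 : ∀ n, ∑ i : Fin 3, x n t * fderiv ℝ (EC.pk (R n) φ) y (Pi.single i 1) i = 0 := by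
    intro n
    rw [← Finset.mul_sum]
    have : ∑ i : Fin 3, fderiv ℝ (EC.pk (R n) φ) y (Pi.single i 1) i = 0 := by
      have h5 := h.pk.div (R n ^ 2 • y)
      unfold divg at h5
      simp only [fd_pk h.pk.sm, smul_apply, Pi.smul_apply, smul_eq_mul]
      rw [← Finset.mul_sum, h5, mul_zero]
    rw [this, mul_zero]
  simp only [h4] at h3
  exact h3.unique hasSum_zero

theorem Ctx.uSmooth : ContDiffOn ℝ ∞ (fun z : ℝ × V => per (U φ R x z.1) z.2)
    {z | z.1 < 0 ∨ ∀ k, z.2 ≠ lat k} := by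
  rintro ⟨t, y⟩ hz
  obtain ⟨k, hk, he⟩ := loc_per y
  refine (sm_per (fun s z hz => h.U_out s hz) he ?_).contDiffWithinAt
  rcases hz with ht | hy
  · have ho : IsOpen (Iio (0 : ℝ) ×ˢ (univ : Set V)) := isOpen_Iio.prod isOpen_univ
    exact h.smo.contDiffAt (ho.mem_nhds ⟨ht, mem_univ _⟩)
  · have ho : IsOpen ((univ : Set ℝ) ×ˢ {y : V | y ≠ 0}) := isOpen_univ.prod isOpen_ne
    exact h.loc.contDiffAt (ho.mem_nhds ⟨mem_univ _, sub_ne_zero.2 (hy k)⟩)

theorem Ctx.fam_out (p : ℕ × Fin 2) {y : V} (hy : 1 / 2 ≤ R (p.1 - 1) ^ 2 * ‖y‖) :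
    fam β R φ p y = 0 := by
  unfold fam
  split_ifs
  · exact r1_out h.R1 h.par.Rm h.pk.out β _ hy
  · exact r2_out h.R1 h.par.Rm h.pk.sm h.pk.out β _ hy

theorem Ctx.fam_out' (p : ℕ × Fin 2) {y : V} (hy : 1 / 2 ≤ ‖y‖) : fam β R φ p y = 0 := by
  refine h.fam_out p ?_
  have : (1 : ℝ) ≤ R (p.1 - 1) ^ 2 := one_le_pow₀ (h.R1 _)
  nlinarith

omit h in
theorem fam_sm (hφ : ContDiff ℝ ∞ φ) (p : ℕ × Fin 2) : ContDiff ℝ ∞ (fam β R φ p) := by
  unfold fam
  split_ifs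
  · exact r1_sm hφ β R _
  · exact r2_sm hφ β R _

theorem Ctx.conU {t : ℝ} (ht : t < 0) (p : ℕ × Fin 2) : ip (U φ R x t) (fam β R φ p) = 0 := by
  have h1 := h.ipU ht (fam_sm (β := β) (R := R) h.pk.sm p).continuous
  have h2 : ∀ n, x n t * ip (EC.pk (R n) φ) (fam β R φ p) = 0 := by
    intro n
    unfold fam
    split_ifs
    · rw [h.tbl.orth1, mul_zero]
    · rw [h.tbl.orth2, mul_zero]
  simp only [h2] at h1
  exact h1.unique hasSum_zero

/-- The solution on the torus. -/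
theorem Ctx.sol : SolI (fam β R φ) (Iio 0) (fun t => per (U φ R x t)) := by
  refine ⟨?_, fun t _ => t_TOR.1 _, ?_, ?_, ?_⟩
  · exact (h.uSmooth.mono (fun z hz => Or.inl hz.1)).of_le (by norm_cast)
  · intro t ht y
    obtain ⟨k, hk, he⟩ := loc_per y
    have h1 := h.divU ht (y - lat k)
    unfold divg at h1 ⊢
    rw [fd_per (fun z hz => h.U_out t hz) he]
    exact h1
  · intro t ht p
    rw [(t_TOR.2.1 _ (fam β R φ p) (fun z hz => h.U_out t hz)).1]
    exact h.conU ht p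
  · intro t ht w hw hwp hwd hwc
    have e : (fun y => derivWithin (fun s => per (U φ R x s) y) (Iio 0) t
        + adv (per (U φ R x t)) (per (U φ R x t)) y) = per (G φ R x t) := by
      ext1 y
      rw [per_adv (fun z hz => h.U_out t hz) (fun z hz => h.U_out t hz),
        derivWithin_of_isOpen isOpen_Iio ht]
      rfl
    rw [e, (t_TOR.2.1 _ w (fun z hz => h.G_out hz)).1]
    have hc : ∀ p, ip (fam β R φ p) w = 0 := by
      intro p
      have h2 := hwc p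
      rw [(t_TOR.2.1 (fam β R φ p) w (fun z hz => h.fam_out' p hz)).2] at h2
      rw [ip_comm]
      exact h2
    refine h.ipG ht hw.continuous (fun n => ?_) (fun n => ?_)
    · simpa [fam] using hc (n, 0)
    · simpa [fam] using hc (n, 1)

end

end M

end Pool.Agent.N264.EC
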