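import Pool.Agent.N264.EC.M4

/-! # Assembly, part 5: energy, the steady state, the limit at `-∞` -/

set_option autoImplicit false

open Set Filter Topology MeasureTheory
open scoped ContDiff

namespace Pool.Agent.N264.EC

namespace M

/-- The steady state (as a field on `ℝ³`). -/
noncomputable def A0 (φ : V → V) (R b : ℕ → ℝ) (y : V) : V := b 0 • pk (R 0) φ y

theorem ip_smul (c : ℝ) (v w : V → V) : ip (fun y => c • v y) w = c * ip v w := by
  unfold ip
  rw [← integral_const_mul]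
  congr 1
  ext1 y
  rw [Finset.mul_sum]
  exact Finset.sum_congr rfl fun i _ => by simp only [Pi.smul_apply, smul_eq_mul]; ring

theorem ipT_per {v : V → V} (hv : ∀ y, 1 / 2 ≤ ‖y‖ → v y = 0) : ipT (per v) (per v) = ip v v := by
  rw [(t_TOR.2.1 v (per v) hv).1, ip_comm, ← (t_TOR.2.1 v (per v) hv).2,
    (t_TOR.2.1 v v hv).1]

section

variable {φ : V → V} {ρ β N : ℝ} {R b : ℕ → ℝ} {x g : ℕ → ℝ → ℝ} (h : Ctx φ ρ β N R b x g)
include h

theorem Ctx.A0_out {y : V} (hy : 1 / 2 ≤ ‖y‖) : A0 φ R b y = 0 := by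
  unfold A0
  rw [pk_out h.pk.out, smul_zero]
  rw [h.par.R0]
  simpa using hy

theorem Ctx.A0_sm : ContDiff ℝ ∞ (A0 φ R b) := by
  have := pk_sm h.pk.sm (R 0)
  unfold A0
  fun_prop

theorem Ctx.A0_per_sm : ContDiff ℝ ∞ (per (A0 φ R b)) := by
  rw [contDiff_iff_contDiffAt]
  intro y
  obtain ⟨k, hk, he⟩ := loc_per y
  have h1 : per (A0 φ R b) =ᶠ[𝓝 y] fun z => A0 φ R b (z - lat k) := by
    filter_upwards [he] with z hz
    exact hz _ (fun _ => h.A0_out)
  exact (h.A0_sm.comp (contDiff_id.sub contDiff_const)).contDiffAt.congr_of_eventuallyEq h1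

theorem Ctx.A0_en : ip (A0 φ R b) (A0 φ R b) = b 0 ^ 2 * N := by
  have h1 : A0 φ R b = fun y => b 0 • EC.pk (R 0) φ y := rfl
  rw [h1, ip_smul, ip_comm, ip_smul, h.tbl.norm]
  simp
  ring

theorem Ctx.g_lim {t : ℝ} (ht : t < 0) : Tendsto (fun n => g n t) atTop (𝓝 0) := by
  have h1 := (rap_summable h.par.R1 h.dyn.rapg ht 0).tendsto_atTop_zero
  simp only [pow_zero, one_mul] at h1
  exact (tendsto_zero_iff_abs_tendsto_zero _).2 h1

theorem Ctx.sum_sq {t : ℝ} (ht : t < 0) : HasSum (fun n => x n t ^ 2) (b 0 ^ 2) := by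
  have h1 : ∀ K, ∑ n ∈ Finset.range K, x n t ^ 2 = b 0 ^ 2 - g K t ^ 2 := by
    intro K
    induction K with
    | zero => simp [h.dyn.g0, h.par.R0]
    | succ K ih => rw [Finset.sum_range_succ, ih, h.dyn.tel]; ring
  rw [hasSum_iff_tendsto_nat_of_nonneg (fun n => sq_nonneg _)]
  simp only [h1]
  have h2 := ((h.g_lim ht).pow 2).const_sub (b 0 ^ 2)
  simpa using h2

theorem Ctx.U_en {t : ℝ} (ht : t < 0) : ip (U φ R x t) (U φ R x t) = b 0 ^ 2 * N := by
  have hUc : Continuous (U φ R x t) := (h.slice ht).continuous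
  have h1 := h.ipU ht hUc
  have h2 : ∀ n, ip (EC.pk (R n) φ) (U φ R x t) = x n t * N := by
    intro n
    rw [ip_comm]
    have h3 := h.ipU ht (pk_sm h.pk.sm (R n)).continuous
    refine h3.unique ?_
    have h4 : (fun m => x m t * ip (EC.pk (R m) φ) (EC.pk (R n) φ)) =
        fun m => if m = n then x n t * N else 0 := by
      ext1 m
      rw [h.tbl.norm]
      split_ifs with hm
      · rw [hm]
      · rw [mul_zero]
    rw [h4]
    exact hasSum_ite_eq n _
  simp only [h2] at h1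
  have h5 : (fun n => x n t * (x n t * N)) = fun n => x n t ^ 2 * N := by
    ext1 n
    ring
  rw [h5] at h1
  exact h1.unique ((h.sum_sq ht).mul_right N)

/-- The energy is constant. -/
theorem Ctx.energy {t : ℝ} (ht : t < 0) : ipT (per (U φ R x t)) (per (U φ R x t)) =
    ipT (per (A0 φ R b)) (per (A0 φ R b)) := by
  rw [ipT_per (fun y hy => h.U_out t hy), ipT_per (fun y hy => h.A0_out hy), h.U_en ht, h.A0_en]

/-- The steady state. -/
theorem Ctx.steady : SolI (fam β R φ) univ (fun _ => per (A0 φ R b)) := by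
  refine ⟨?_, fun t _ => t_TOR.1 _, ?_, ?_, ?_⟩
  · exact ((h.A0_per_sm.comp contDiff_snd).of_le (by norm_cast)).contDiffOn
  · intro t _ y
    obtain ⟨k, hk, he⟩ := loc_per y
    unfold divg
    rw [fd_per (fun z hz => h.A0_out hz) he]
    have e : fderiv ℝ (A0 φ R b) (y - lat k) = b 0 • fderiv ℝ (EC.pk (R 0) φ) (y - lat k) :=
      fderiv_fun_const_smul (((pk_sm h.pk.sm (R 0)).differentiable (by simp)) _) _
    have h5 := h.pk.div (R 0 ^ 2 • (y - lat k))
    unfold divg at h5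
    rw [e]
    simp only [fd_pk h.pk.sm, smul_apply, Pi.smul_apply, smul_eq_mul]
    rw [← Finset.mul_sum, ← Finset.mul_sum, h5]
    simp
  · intro t _ p
    rw [(t_TOR.2.1 _ (fam β R φ p) (fun z hz => h.A0_out hz)).1]
    have h1 : A0 φ R b = fun y => b 0 • EC.pk (R 0) φ y := rfl
    rw [h1, ip_smul]
    unfold fam
    split_ifs
    · rw [h.tbl.orth1, mul_zero]
    · rw [h.tbl.orth2, mul_zero]
  · intro t _ w hw hwp hwd hwc
    have e : (fun y => derivWithin (fun _ : ℝ => per (A0 φ R b) y) univ t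
        + adv (per (A0 φ R b)) (per (A0 φ R b)) y) =
        per (fun y => b 0 ^ 2 • r1 β R φ 0 y) := by
      ext1 y
      rw [per_adv (fun z hz => h.A0_out hz) (fun z hz => h.A0_out hz)]
      have e1 : derivWithin (fun _ : ℝ => per (A0 φ R b) y) univ t = 0 := by simp
      rw [e1, zero_add]
      unfold per
      have e2 : fderiv ℝ (A0 φ R b) (red y) = b 0 • fderiv ℝ (EC.pk (R 0) φ) (red y) :=
        fderiv_fun_const_smul (((pk_sm h.pk.sm (R 0)).differentiable (by simp)) _) _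
      unfold adv
      rw [e2]
      simp only [A0, r1, adv, map_smul, smul_apply, smul_smul]
      rw [sq]
    have hout : ∀ z, 1 / 2 ≤ ‖z‖ → b 0 ^ 2 • r1 β R φ 0 z = 0 := by
      intro z hz
      have := h.fam_out' (0, 0) hz
      simp only [fam, if_true] at this
      rw [this, smul_zero]
    rw [e, (t_TOR.2.1 _ w hout).1, ip_smul]
    have h2 := hwc (0, 0)
    rw [(t_TOR.2.1 (fam β R φ (0, 0)) w (fun z hz => h.fam_out' (0, 0) hz)).2, ip_comm] at h2
    simp only [fam, if_true] at h2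
    rw [h2, mul_zero]

/-- The limit at `-∞`. -/
theorem Ctx.limit (k : ℕ) {ε : ℝ} (hε : 0 < ε) : ∃ t₁ < (0 : ℝ), ∀ t ≤ t₁, ∀ y,
    ‖iteratedFDeriv ℝ k (fun z => per (U φ R x t) z - per (A0 φ R b) z) y‖ ≤ ε := by
  obtain ⟨j, C, hC⟩ := h.bd k
  obtain ⟨δ, hδ0, hδ⟩ : ∃ δ > 0, |C| * (δ + δ) ≤ ε := by
    refine ⟨ε / (2 * (|C| + 1)), by positivity, ?_⟩
    have h1 : |C| * (ε / (2 * (|C| + 1)) + ε / (2 * (|C| + 1))) = ε * (|C| / (|C| + 1)) := by
      field_simp
      ring
    rw [h1]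
    have h2 : |C| / (|C| + 1) ≤ 1 := by
      rw [div_le_one (by positivity)]
      linarith [abs_nonneg C]
    nlinarith
  obtain ⟨t₁, ht₁, hg⟩ := h.dyn.lim1 j δ hδ0
  have hx := h.dyn.lim0
  rw [h.par.R0, one_pow, div_one] at hx
  have hx1 : ∀ᶠ t in atBot, |x 0 t - b 0| < δ := by
    have := (Metric.tendsto_nhds.1 hx) δ hδ0
    simpa [Real.dist_eq] using this
  obtain ⟨t₂, ht₂⟩ := eventually_atBot.1 hx1
  refine ⟨min t₁ t₂, (min_le_left _ _).trans_lt ht₁, fun t ht y => ?_⟩
  have htt1 : t ≤ t₁ := ht.trans (min_le_left _ _)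
  have htt2 : t ≤ t₂ := ht.trans (min_le_right _ _)
  have ht0 : t < 0 := htt1.trans_lt ht₁
  obtain ⟨hgs, hgl⟩ := hg t htt1
  have hR0 : ∀ n, 0 < R n := fun n => by linarith [h.R1 n]
  obtain ⟨c, hc⟩ : ∃ c : ℕ → ℝ, c = fun n => if n = 0 then x 0 t - b 0 else x n t := ⟨_, rfl⟩
  have hc0 : c 0 = x 0 t - b 0 := by simp [hc]
  have hc1 : ∀ n, c (n + 1) = x (n + 1) t := fun n => by simp [hc]
  have hcs : ∀ i : ℕ, Summable (fun n => R n ^ i * |c n|) := by
    intro i
    rw [← summable_nat_add_iff 1]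
    simp only [hc1]
    exact (summable_nat_add_iff 1).2 (rap_summable h.par.R1 h.dyn.rapx ht0 i)
  have hser : ∀ z, U φ R x t z - A0 φ R b z = ser R φ c z := by
    intro z
    have h1 := h.hs t ht0 z
    have h2 : HasSum (fun n => if n = 0 then A0 φ R b z else 0) (A0 φ R b z) :=
      hasSum_ite_eq 0 _
    have h3 := h1.sub h2
    unfold ser
    rw [← h3.tsum_eq]
    congr 1
    ext1 n
    by_cases hn : n = 0
    · subst hn
      rw [hc0, if_pos rfl]
      unfold A0
      module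
    · rw [if_neg hn, hc]
      simp [hn]
  have hout : ∀ z, 1 / 2 ≤ ‖z‖ → ser R φ c z = 0 := by
    intro z hz
    rw [← hser, h.U_out t hz, h.A0_out hz, sub_zero]
  have e : (fun z => per (U φ R x t) z - per (A0 φ R b) z) = per (ser R φ c) := by
    ext1 z
    exact hser (red z)
  obtain ⟨k', hk', he⟩ := loc_per y
  rw [e, ifd_per hout he]
  refine (hC c hcs _).trans ?_
  have hsum : ∑' n, R n ^ j * |c n| ≤ δ + δ := by
    rw [(hcs j).tsum_eq_zero_add, hc0]
    refine add_le_add ?_ ?_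
    · rw [h.par.R0, one_pow, one_mul]
      exact (ht₂ t htt2).le
    · refine le_trans (Summable.tsum_le_tsum (fun n => ?_)
        ((summable_nat_add_iff 1).2 (hcs j)) hgs) hgl
      rw [hc1]
      obtain ⟨q1, q2, q3⟩ := h.dyn.pos (n + 1) t ht0.le
      rw [abs_of_pos q1]
      exact mul_le_mul_of_nonneg_left q2.le (pow_nonneg (hR0 _).le _)
  have h0 : 0 ≤ ∑' n, R n ^ j * |c n| := tsum_nonneg fun n =>
    mul_nonneg (pow_nonneg (hR0 n).le _) (abs_nonneg _)
  calc C * ∑' n, R n ^ j * |c n| ≤ |C| * ∑' n, R n ^ j * |c n| :=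
        mul_le_mul_of_nonneg_right (le_abs_self C) h0
    _ ≤ |C| * (δ + δ) := mul_le_mul_of_nonneg_left hsum (abs_nonneg _)
    _ ≤ ε := hδ

/-- The force. -/
theorem Ctx.forceP {t : ℝ} (ht : t < 0) (y : V) :
    HasSum (fun p : ℕ × Fin 2 => lam R x g p t • fam β R φ p y) (G φ R x t y) := by
  have h1 := h.force ht y
  by_cases hy : y = 0
  · subst hy
    have e : (fun n => g n t ^ 2 • r1 β R φ n 0 + (x n t * S R x n t) • r2 β R φ n 0) =
        fun _ => (0 : V) := by
      ext1 n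
      rw [(h.fam_zero n).1, (h.fam_zero n).2]
      simp
    rw [e] at h1
    rw [h1.unique hasSum_zero]
    have e2 : (fun p : ℕ × Fin 2 => lam R x g p t • fam β R φ p 0) = fun _ => (0 : V) := by
      ext1 p
      unfold fam
      split_ifs
      · rw [(h.fam_zero p.1).1, smul_zero]
      · rw [(h.fam_zero p.1).2, smul_zero]
    rw [e2]
    exact hasSum_zero
  · obtain ⟨K, hK⟩ := h.fin hy
    have e1 : G φ R x t y = ∑ n ∈ Finset.range (K + 1),
        (g n t ^ 2 • r1 β R φ n y + (x n t * S R x n t) • r2 β R φ n y) := by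
      refine h1.unique (hasSum_sum_of_ne_finset_zero fun n hn => ?_)
      have hn' : K ≤ n - 1 := by simp only [Finset.mem_range] at hn; omega
      rw [r1_out h.R1 h.par.Rm h.pk.out β n (hK _ hn'),
        r2_out h.R1 h.par.Rm h.pk.sm h.pk.out β n (hK _ hn')]
      simp
    have e2 : G φ R x t y = ∑ p ∈ Finset.range (K + 1) ×ˢ (Finset.univ : Finset (Fin 2)),
        lam R x g p t • fam β R φ p y := by
      rw [e1, Finset.sum_product]
      refine Finset.sum_congr rfl fun n _ => ?_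
      rw [Fin.sum_univ_two]
      simp [lam, fam]
    rw [e2]
    refine hasSum_sum_of_ne_finset_zero fun p hp => ?_
    have hp' : K ≤ p.1 - 1 := by
      simp only [Finset.mem_product, Finset.mem_range, Finset.mem_univ, and_true] at hp
      omega
    rw [h.fam_out p (hK _ hp'), smul_zero]

theorem Ctx.lam_sm (p : ℕ × Fin 2) : ContDiff ℝ ∞ (lam R x g p) := by
  unfold lam S
  split_ifs
  · exact (h.dyn.smg _).pow 2
  · exact (h.dyn.smx _).mul (ContDiff.sum fun m _ => contDiff_const.mul (h.dyn.smx m))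

end

end M

end Pool.Agent.N264.EC
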