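import Pool.Agent.N264.EC.M5
import Pool.Agent.N976.EC.U7

/-! # Assembly, part 6: pointwise bound of the gradient, blow-up, uniqueness -/

set_option autoImplicit false

open Set Filter Topology MeasureTheory
open scoped ContDiff

namespace Pool.Agent.N264.EC

namespace M

/-- The third component of the vorticity. -/
noncomputable def vz (v : V → V) (y : V) : ℝ :=
  fderiv ℝ v y (Pi.single 0 1) 1 - fderiv ℝ v y (Pi.single 1 1) 0

theorem lat_zero {y : V} {k : Fin 3 → ℤ} (hy : ‖y‖ < Real.pi) (hk : ‖y - lat k‖ ≤ Real.pi) :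
    k = 0 := by
  ext i
  have h1 : |y i - 2 * Real.pi * (k i : ℝ)| ≤ Real.pi := (norm_le_pi_norm (y - lat k) i).trans hk
  have h2 : |y i| < Real.pi := (norm_le_pi_norm y i).trans_lt hy
  rw [abs_le] at h1
  rw [abs_lt] at h2
  have hpi := Real.pi_pos
  have h3 : (k i : ℝ) < 1 := by nlinarith
  have h4 : (-1 : ℝ) < k i := by nlinarith
  have h5 : k i < 1 := by exact_mod_cast h3
  have h6 : -1 < k i := by exact_mod_cast h4
  simp only [Pi.zero_apply]
  omega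

section

variable {φ : V → V} {ρ β N : ℝ} {R b : ℕ → ℝ} {x g : ℕ → ℝ → ℝ} (h : Ctx φ ρ β N R b x g)
include h

/-- Pointwise bound of the velocity gradient. -/
theorem Ctx.grad (hsub : ∀ ε > (0 : ℝ), ∃ C, ∀ n, ∑ m ∈ Finset.range (n + 1), b m ≤ C * R n ^ ε)
    {ε : ℝ} (hε : 0 < ε) : ∃ C, 0 ≤ C ∧ ∀ t < 0, ∀ y, y ≠ 0 →
      ‖fderiv ℝ (U φ R x t) y‖ ≤ C * ‖y‖ ^ (-ε) := by
  obtain ⟨C0, C1, C2, hC0, hC1, hC2, p0, p1, q1, q2⟩ := h.bounds
  obtain ⟨C, hC⟩ := hsub (2 * ε) (by positivity)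
  have hR0 : ∀ n, 0 < R n := fun n => by linarith [h.R1 n]
  refine ⟨C1 * |C|, by positivity, fun t ht y hy => ?_⟩
  have hy0 : 0 < ‖y‖ := norm_pos_iff.2 hy
  by_cases hy2 : 1 / 2 ≤ ‖y‖
  · rw [fd_out (h.slice ht) (fun z hz => h.U_out t hz) hy2, norm_zero]
    positivity
  push Not at hy2
  have hex : ∃ K, 1 / 2 ≤ R K ^ 2 * ‖y‖ := by
    obtain ⟨K, hK⟩ := h.fin hy
    exact ⟨K, hK K le_rfl⟩
  classical
  obtain ⟨K, hK, hmin⟩ : ∃ K, 1 / 2 ≤ R K ^ 2 * ‖y‖ ∧ ∀ m < K, ¬ (1 / 2 ≤ R m ^ 2 * ‖y‖) :=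
    ⟨Nat.find hex, Nat.find_spec hex, fun m hm => Nat.find_min hex hm⟩
  rcases K with _ | K
  · rw [h.par.R0, one_pow, one_mul] at hK
    linarith
  have hKm := hmin K (Nat.lt_succ_self K)
  push Not at hKm
  have eD : fderiv ℝ (U φ R x t) y =
      ∑ n ∈ Finset.range (K + 1), x n t • fderiv ℝ (EC.pk (R n) φ) y := by
    refine (h.hd t ht y).unique (hasSum_sum_of_ne_finset_zero fun n hn => ?_)
    have hn' : K + 1 ≤ n := by simp only [Finset.mem_range] at hn; omega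
    rw [fdp_out h.pk.sm h.pk.out (out_le h.R1 h.par.Rm hn' hK), smul_zero]
  have e1 : ‖fderiv ℝ (U φ R x t) y‖ ≤ C1 * ∑ n ∈ Finset.range (K + 1), b n := by
    rw [eD, Finset.mul_sum]
    refine (norm_sum_le _ _).trans (Finset.sum_le_sum fun n _ => ?_)
    obtain ⟨r1, r2, r3⟩ := h.dyn.pos n t ht.le
    rw [norm_smul, Real.norm_eq_abs, abs_of_pos r1]
    calc x n t * ‖fderiv ℝ (EC.pk (R n) φ) y‖ ≤ (b n / R n ^ 5) * (C1 * R n ^ 5) :=
          mul_le_mul (r2.le.trans r3) (p1 n y) (norm_nonneg _) (r1.le.trans (r2.le.trans r3))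
      _ = C1 * b n := by
          have : R n ≠ 0 := (hR0 n).ne'
          field_simp
  refine e1.trans ?_
  rw [mul_assoc]
  refine mul_le_mul_of_nonneg_left ?_ hC1
  have e2 : R K ^ (2 * ε) ≤ ‖y‖ ^ (-ε) := by
    rw [Real.rpow_mul (hR0 K).le, Real.rpow_neg hy0.le, ← Real.inv_rpow hy0.le]
    refine Real.rpow_le_rpow (Real.rpow_nonneg (hR0 K).le _) ?_ hε.le
    rw [show (2 : ℝ) = ((2 : ℕ) : ℝ) by norm_num, Real.rpow_natCast, inv_eq_one_div,
      le_div_iff₀ hy0]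
    linarith
  calc ∑ n ∈ Finset.range (K + 1), b n ≤ C * R K ^ (2 * ε) := hC K
    _ ≤ |C| * R K ^ (2 * ε) :=
        mul_le_mul_of_nonneg_right (le_abs_self C) (Real.rpow_nonneg (hR0 K).le _)
    _ ≤ |C| * ‖y‖ ^ (-ε) := mul_le_mul_of_nonneg_left e2 (abs_nonneg _)

theorem Ctx.gradT (hsub : ∀ ε > (0 : ℝ), ∃ C, ∀ n, ∑ m ∈ Finset.range (n + 1), b m ≤ C * R n ^ ε)
    {ε : ℝ} (hε : 0 < ε) : ∃ C, ∀ t < 0, ∀ y ∈ torus, y ≠ 0 →
      ‖fderiv ℝ (per (U φ R x t)) y‖ ≤ C * ‖y‖ ^ (-ε) := by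
  obtain ⟨C, hC0, hC⟩ := h.grad hsub hε
  refine ⟨C, fun t ht y hyT hy => ?_⟩
  have hy0 : 0 < ‖y‖ := norm_pos_iff.2 hy
  obtain ⟨k, hk, he⟩ := loc_per y
  rw [fd_per (fun z hz => h.U_out t hz) he]
  by_cases hk0 : k = 0
  · subst hk0
    have : lat 0 = 0 := by ext i; simp [lat]
    rw [this, sub_zero]
    exact hC t ht y hy
  · have h1 : 1 / 2 ≤ ‖y - lat k‖ := by
      obtain ⟨i, hi⟩ := Function.ne_iff.1 hk0
      have h2 : |y i| ≤ Real.pi := abs_le.2 ⟨hyT.1 i, hyT.2 i⟩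
      have h3 : (1 : ℝ) ≤ |(k i : ℝ)| := by
        have : 1 ≤ |k i| := Int.one_le_abs hi
        exact_mod_cast this
      have h4 : |y i - 2 * Real.pi * (k i : ℝ)| ≤ ‖y - lat k‖ := norm_le_pi_norm (y - lat k) i
      have h5 : |2 * Real.pi * (k i : ℝ)| - |y i| ≤ |y i - 2 * Real.pi * (k i : ℝ)| := by
        have := abs_sub_abs_le_abs_sub (2 * Real.pi * (k i : ℝ)) (y i)
        rwa [abs_sub_comm (2 * Real.pi * (k i : ℝ)) (y i)] at this
      rw [abs_mul, abs_of_pos Real.two_pi_pos] at h5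
      have hpi := Real.pi_gt_three
      nlinarith
    rw [fd_out (h.slice ht) (fun z hz => h.U_out t hz) h1, norm_zero]
    positivity

/-- Where the vorticity is computed. -/
theorem Ctx.vort : ∃ κ : ℝ, κ ≠ 0 ∧ ∀ n, ∃ y : V, ‖y‖ < 1 / 2 ∧ ∀ t < 0,
    vz (U φ R x t) y = x n t * R n ^ 5 * κ := by
  have hφ := h.pk.sm
  have hρ := h.pk.ρ0
  have hR0 : ∀ n, 0 < R n := fun n => by linarith [h.R1 n]
  obtain ⟨y, hy⟩ := h.pk.vor
  have hlin : ∀ z : V, ‖z‖ < ρ → vz φ z = 0 := by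
    intro z hz
    have h1 : φ =ᶠ[𝓝 z] fun u => Am u := by
      have : {u : V | ‖u‖ < ρ} ∈ 𝓝 z :=
        (isOpen_lt continuous_norm continuous_const).mem_nhds hz
      filter_upwards [this] with u hu
      exact h.pk.lin u hu
    have h2 : ∀ i, HasFDerivAt (fun u : V => Am u i)
        (fderiv ℝ (fun u : V => Am u i) z) z := fun i =>
      ((contDiff_pi.1 Am_sm i).differentiable (by simp) z).hasFDerivAt
    have h3 : fderiv ℝ Am z = ContinuousLinearMap.pi fun i => fderiv ℝ (fun u : V => Am u i) z :=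
      (hasFDerivAt_pi.2 h2).fderiv
    have e1 : fderiv ℝ (fun u : V => Am u 1) z = -(ContinuousLinearMap.proj 1 : V →L[ℝ] ℝ) := by
      have : (fun u : V => Am u 1) = fun u => -(ContinuousLinearMap.proj 1 : V →L[ℝ] ℝ) u := by
        ext1 u
        simp [Am]
      rw [this]
      exact (-(ContinuousLinearMap.proj 1 : V →L[ℝ] ℝ)).fderiv
    have e0 : fderiv ℝ (fun u : V => Am u 0) z = (ContinuousLinearMap.proj 0 : V →L[ℝ] ℝ) := by
      have : (fun u : V => Am u 0) = fun u => (ContinuousLinearMap.proj 0 : V →L[ℝ] ℝ) u := by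
        ext1 u
        simp [Am]
      rw [this]
      exact (ContinuousLinearMap.proj 0 : V →L[ℝ] ℝ).fderiv
    unfold vz
    rw [h1.fderiv_eq]
    have h4 : fderiv ℝ (fun u => Am u) z = fderiv ℝ Am z := rfl
    rw [h4, h3]
    simp [e0, e1]
  have hyρ : ρ ≤ ‖y‖ := by
    by_contra hc
    push Not at hc
    have := hlin y hc
    unfold vz at this
    exact hy (by linarith)
  have hy2 : ‖y‖ < 1 / 2 := by
    by_contra hc
    push Not at hc
    rw [fd_out hφ h.pk.out hc] at hy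
    simp at hy
  refine ⟨vz φ y, fun hc => hy (by unfold vz at hc; linarith), fun n => ?_⟩
  have hRn : 0 < R n ^ 2 := pow_pos (hR0 n) 2
  refine ⟨(R n ^ 2)⁻¹ • y, ?_, fun t ht => ?_⟩
  · rw [norm_smul, norm_inv, Real.norm_of_nonneg hRn.le]
    have h1 : (1 : ℝ) ≤ R n ^ 2 := one_le_pow₀ (h.R1 n)
    have h2 : (R n ^ 2)⁻¹ ≤ 1 := inv_le_one_of_one_le₀ h1
    have := norm_nonneg y
    nlinarith
  · have hvz : ∀ m, fderiv ℝ (EC.pk (R m) φ) ((R n ^ 2)⁻¹ • y) (Pi.single 0 1) 1 -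
        fderiv ℝ (EC.pk (R m) φ) ((R n ^ 2)⁻¹ • y) (Pi.single 1 1) 0 =
        if m = n then R n ^ 5 * vz φ y else 0 := by
      intro m
      have e0 : fderiv ℝ (EC.pk (R m) φ) ((R n ^ 2)⁻¹ • y) (Pi.single 0 1) 1 -
        fderiv ℝ (EC.pk (R m) φ) ((R n ^ 2)⁻¹ • y) (Pi.single 1 1) 0 =
          R m ^ 5 * vz φ (R m ^ 2 • (R n ^ 2)⁻¹ • y) := by
        rw [fd_pk hφ]
        unfold vz
        simp only [smul_apply, Pi.smul_apply, smul_eq_mul]
        ring
      rw [e0]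
      rcases lt_trichotomy m n with hm | hm | hm
      · rw [if_neg hm.ne, hlin, mul_zero]
        rw [smul_smul, norm_smul, Real.norm_of_nonneg (mul_nonneg (sq_nonneg _) (by positivity))]
        obtain ⟨q, rfl⟩ : ∃ q, n = q + 1 := ⟨n - 1, by omega⟩
        have h3 : R m ^ 2 ≤ R q ^ 2 := sq_mono h.R1 h.par.Rm (by omega)
        have h4 := h.sc q
        have h5 : R m ^ 2 * (R (q + 1) ^ 2)⁻¹ ≤ 2 * ρ := by
          rw [← div_eq_mul_inv, div_le_iff₀ hRn]
          linarith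
        nlinarith [norm_nonneg y]
      · subst hm
        rw [if_pos rfl, smul_smul, mul_inv_cancel₀ hRn.ne', one_smul]
      · rw [if_neg hm.ne']
        have h6 : fderiv ℝ φ (R m ^ 2 • (R n ^ 2)⁻¹ • y) = 0 := by
          refine fd_out hφ h.pk.out ?_
          rw [smul_smul, norm_smul, Real.norm_of_nonneg (mul_nonneg (sq_nonneg _) (by positivity))]
          have h3 : R (n + 1) ^ 2 ≤ R m ^ 2 := sq_mono h.R1 h.par.Rm (by omega)
          have h4 := h.sc n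
          have h5 : 1 / (2 * ρ) ≤ R m ^ 2 * (R n ^ 2)⁻¹ := by
            rw [← div_eq_mul_inv, div_le_div_iff₀ (by positivity) hRn]
            nlinarith
          calc (1 : ℝ) / 2 = 1 / (2 * ρ) * ρ := by field_simp
            _ ≤ R m ^ 2 * (R n ^ 2)⁻¹ * ‖y‖ := mul_le_mul h5 hyρ hρ.le (by positivity)
        unfold vz
        rw [h6]
        simp
    have hd := h.hd t ht ((R n ^ 2)⁻¹ • y)
    have h1 : ∀ (j i : Fin 3), HasSum (fun m => x m t *
        fderiv ℝ (EC.pk (R m) φ) ((R n ^ 2)⁻¹ • y) (Pi.single j 1) i)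
        (fderiv ℝ (U φ R x t) ((R n ^ 2)⁻¹ • y) (Pi.single j 1) i) := by
      intro j i
      have h2 := ((ContinuousLinearMap.proj (R := ℝ) (φ := fun _ : Fin 3 => ℝ) i).comp
        (ContinuousLinearMap.apply ℝ V (Pi.single j (1 : ℝ)))).hasSum hd
      refine h2.congr_fun fun n => ?_
      simp
    have h2 := (h1 0 1).sub (h1 1 0)
    have e3 : (fun m => x m t * fderiv ℝ (EC.pk (R m) φ) ((R n ^ 2)⁻¹ • y) (Pi.single 0 1) 1 -
        x m t * fderiv ℝ (EC.pk (R m) φ) ((R n ^ 2)⁻¹ • y) (Pi.single 1 1) 0) =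
        fun m => if m = n then x n t * R n ^ 5 * vz φ y else 0 := by
      ext1 m
      rw [← mul_sub, hvz]
      split_ifs with hm
      · rw [hm]; ring
      · rw [mul_zero]
    rw [e3] at h2
    exact h2.unique (hasSum_ite_eq n _)

/-- The vorticity blows up. -/
theorem Ctx.blow (hhalf : ∀ n, b (n + 1) / R (n + 1) ^ 5 ≤ 1 / 2 * (b n / R n ^ 5))
    (hnat : ∀ n : ℕ, (n : ℝ) ≤ b n) (M : ℝ) : ∃ t₁ < (0 : ℝ), ∀ t ∈ Ioo t₁ 0, ∃ y : V,
      M < |vz (per (U φ R x t)) y| := by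
  have hR0 : ∀ n, 0 < R n := fun n => by linarith [h.R1 n]
  obtain ⟨κ, hκ, hv⟩ := h.vort
  have hκ0 : 0 < |κ| := abs_pos.2 hκ
  obtain ⟨n, hn⟩ := exists_nat_gt (2 * |M| / |κ|)
  obtain ⟨y, hy, hyv⟩ := hv n
  have hx0 : b n / R n ^ 5 / 2 ≤ x n 0 := by
    have h1 := h.dyn.tel n 0
    rw [h.dyn.fin, h.dyn.fin] at h1
    have h2 := hhalf n
    have h3 := (h.dyn.pos n 0 le_rfl).1
    have h4 : 0 < b (n + 1) / R (n + 1) ^ 5 := div_pos (h.par.b0 _) (pow_pos (hR0 _) 5)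
    have h5 : 0 < b n / R n ^ 5 := div_pos (h.par.b0 _) (pow_pos (hR0 _) 5)
    by_contra hc
    push Not at hc
    nlinarith
  have hlim : |M| < x n 0 * R n ^ 5 * |κ| := by
    have h1 : b n / 2 ≤ x n 0 * R n ^ 5 := by
      have h2 : b n / R n ^ 5 / 2 * R n ^ 5 ≤ x n 0 * R n ^ 5 :=
        mul_le_mul_of_nonneg_right hx0 (pow_pos (hR0 n) 5).le
      have h3 : b n / R n ^ 5 / 2 * R n ^ 5 = b n / 2 := by
        have : R n ≠ 0 := (hR0 n).ne'
        field_simp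
      linarith
    rw [div_lt_iff₀ hκ0] at hn
    have h4 := hnat n
    nlinarith
  have hc : Continuous fun t => x n t * R n ^ 5 * |κ| :=
    ((h.dyn.smx n).continuous.mul continuous_const).mul continuous_const
  have hev : ∀ᶠ t in 𝓝 (0 : ℝ), |M| < x n t * R n ^ 5 * |κ| :=
    (hc.tendsto 0).eventually (lt_mem_nhds hlim)
  obtain ⟨δ, hδ, hball⟩ := Metric.eventually_nhds_iff.1 hev
  refine ⟨-δ, by linarith, fun t ht => ⟨y, ?_⟩⟩
  have h1 := hball (y := t) (by rw [Real.dist_eq, sub_zero, abs_of_neg ht.2]; linarith [ht.1])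
  obtain ⟨k, hk, he⟩ := loc_per y
  have hk0 : k = 0 := lat_zero (hy.trans (by linarith [Real.pi_gt_three])) hk
  subst hk0
  have hl0 : lat 0 = 0 := by ext i; simp [lat]
  have e : vz (per (U φ R x t)) y = vz (U φ R x t) y := by
    unfold vz
    rw [fd_per (fun z hz => h.U_out t hz) he, hl0, sub_zero]
  rw [e, hyv t ht.2, abs_mul, abs_of_pos (mul_pos (h.dyn.pos n t ht.2.le).1 (pow_pos (hR0 n) 5))]
  exact (le_abs_self M).trans_lt h1

end

/-! ### Uniqueness -/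

theorem SolI.mono {ι : Type} {r : ι → V → V} {I J : Set ℝ} {u : ℝ → V → V} (h : SolI r I u)
    (hJ : J ⊆ I) (hu : UniqueDiffOn ℝ J) : SolI r J u := by
  have hd : ∀ t ∈ J, ∀ y, derivWithin (fun s => u s y) J t = derivWithin (fun s => u s y) I t := by
    intro t ht y
    have h1 : DifferentiableOn ℝ (fun s => u s y) I := by
      have h2 : ContDiffOn ℝ 1 (fun s => u s y) I :=
        h.c1.comp (contDiff_id.prodMk contDiff_const).contDiffOn (fun s hs => ⟨hs, mem_univ _⟩)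
      exact h2.differentiableOn one_ne_zero
    exact ((h1 t (hJ ht)).hasDerivWithinAt.mono hJ).derivWithin (hu t ht)
  refine ⟨h.c1.mono (prod_mono hJ subset_rfl), fun t ht => h.per t (hJ ht),
    fun t ht => h.div t (hJ ht), fun t ht => h.con t (hJ ht), fun t ht w h1 h2 h3 h4 => ?_⟩
  have := h.eqn t (hJ ht) w h1 h2 h3 h4
  simp only [hd t ht]
  exact this

theorem shift {ι : Type} {r : ι → V → V} {t₀ T : ℝ} {u : ℝ → V → V} (h : SolI r (Ico t₀ T) u) :
    N976.EC.SolT r (T - t₀) (fun s => u (t₀ + s)) := by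
  have hmem : ∀ s ∈ Ico 0 (T - t₀), t₀ + s ∈ Ico t₀ T := fun s hs =>
    ⟨by linarith [hs.1], by linarith [hs.2]⟩
  have hpre : (fun s => t₀ + s) ⁻¹' (Ico t₀ T) = Ico 0 (T - t₀) := by
    ext s
    simp only [mem_preimage, mem_Ico]
    constructor
    · rintro ⟨h1, h2⟩
      exact ⟨by linarith, by linarith⟩
    · rintro ⟨h1, h2⟩
      exact ⟨by linarith, by linarith⟩
  refine ⟨?_, fun s hs => h.per _ (hmem s hs), fun s hs => h.div _ (hmem s hs),
    fun s hs => h.con _ (hmem s hs), fun s hs w hw hc => ?_⟩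
  · exact h.c1.comp (f := fun z : ℝ × V => ((t₀ + z.1, z.2) : ℝ × V))
      ((contDiff_const.add contDiff_fst).prodMk contDiff_snd).contDiffOn
      (fun z hz => ⟨hmem z.1 hz.1, mem_univ _⟩)
  · have h1 := h.eqn _ (hmem s hs) w hw.c1 hw.per hw.div hc
    have e : ∀ y, N976.EC.dtT (T - t₀) (fun s => u (t₀ + s)) s y =
        derivWithin (fun τ => u τ y) (Ico t₀ T) (t₀ + s) := by
      intro y
      unfold N976.EC.dtT
      have hd : HasDerivWithinAt (fun τ => u τ y)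
          (derivWithin (fun τ => u τ y) (Ico t₀ T) (t₀ + s)) (Ico t₀ T) (t₀ + s) := by
        have h2 : ContDiffOn ℝ 1 (fun s => u s y) (Ico t₀ T) :=
          h.c1.comp (contDiff_id.prodMk contDiff_const).contDiffOn
            (fun s hs => ⟨hs, mem_univ _⟩)
        exact (h2.differentiableOn one_ne_zero _ (hmem s hs)).hasDerivWithinAt
      have hi : HasDerivWithinAt (fun s : ℝ => t₀ + s) 1 (Ico 0 (T - t₀)) s :=
        ((hasDerivAt_id s).const_add t₀).hasDerivWithinAt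
      have h3 := hd.scomp s hi (fun τ hτ => hmem τ hτ)
      rw [one_smul] at h3
      exact h3.derivWithin (uniqueDiffOn_Ico 0 (T - t₀) s hs)
    have e2 : (fun y => N976.EC.dtT (T - t₀) (fun s => u (t₀ + s)) s y +
        N976.EC.advT (u (t₀ + s)) (u (t₀ + s)) y) = fun y =>
        derivWithin (fun τ => u τ y) (Ico t₀ T) (t₀ + s) + adv (u (t₀ + s)) (u (t₀ + s)) y := by
      ext1 y
      rw [e y]
      rfl
    show N976.EC.ipT (fun y => N976.EC.dtT (T - t₀) (fun s => u (t₀ + s)) s y +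
        N976.EC.advT (u (t₀ + s)) (u (t₀ + s)) y) w = 0
    rw [e2]
    exact h1

theorem uniq {ι : Type} {r : ι → V → V} (hr : ∀ i, Continuous (r i)) {t₀ T : ℝ}
    {u v : ℝ → V → V} (hu : SolI r (Ico t₀ T) u) (hv : SolI r (Ico t₀ T) v) (h0 : u t₀ = v t₀) :
    ∀ t ∈ Ico t₀ T, u t = v t := by
  intro t ht
  have h1 := N976.EC.t_UNT ι (T - t₀) r _ _ hr (shift hu) (shift hv) (by simpa using h0) (t - t₀)
    ⟨by linarith [ht.1], by linarith [ht.2]⟩
  simpa using h1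

/-- Every solution conserves the energy. -/
theorem energyI {ι : Type} {r : ι → V → V} {t₀ T : ℝ} {u : ℝ → V → V}
    (hu : SolI r (Ico t₀ T) u) : ∀ t ∈ Ico t₀ T, ipT (u t) (u t) = ipT (u t₀) (u t₀) := by
  intro t ht
  have h1 := N976.EC.t_ENT ι (T - t₀) r _ (shift hu) (t - t₀)
    ⟨by linarith [ht.1], by linarith [ht.2]⟩
  simp only [add_sub_cancel, add_zero] at h1
  exact h1

theorem maxi {ι : Type} {r : ι → V → V} (hr : ∀ i, Continuous (r i)) {u : ℝ → V → V}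
    (hu : SolI r (Iio 0) u) (hb : ∀ M : ℝ, ∃ t₁ < (0 : ℝ), ∀ t ∈ Ioo t₁ 0, ∃ y, M < |vz (u t) y|)
    {t₀ T : ℝ} (ht₀ : t₀ < 0) {v : ℝ → V → V} (hv : SolI r (Ico t₀ T) v)
    (h0 : v t₀ = u t₀) : T ≤ 0 ∧ ∀ t ∈ Ico t₀ T, v t = u t := by
  have hu' : SolI r (Ico t₀ 0) u := SolI.mono hu Ico_subset_Iio_self (uniqueDiffOn_Ico _ _)
  have hTT : T ≤ 0 := by
    by_contra hc
    push Not at hc
    have hv' : SolI r (Ico t₀ 0) v :=
      SolI.mono hv (Ico_subset_Ico_right hc.le) (uniqueDiffOn_Ico _ _)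
    have he := uniq hr hv' hu' h0
    obtain ⟨M, hM⟩ := N976.EC.t_CPT ι (0 - t₀) (T - t₀) r _ (shift hv) (by linarith)
    obtain ⟨t₁, ht₁, hb'⟩ := hb M
    obtain ⟨t, hta, htb⟩ := exists_between (max_lt ht₁ ht₀)
    obtain ⟨y, hy⟩ := hb' t ⟨(le_max_left _ _).trans_lt hta, htb⟩
    have htm : t ∈ Ico t₀ 0 := ⟨((le_max_right _ _).trans_lt hta).le, htb⟩
    have h1 := hM (t - t₀) ⟨by linarith [htm.1], by linarith [htm.2]⟩ y 2
    simp only [add_sub_cancel] at h1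
    rw [he t htm] at h1
    have h2 : N976.EC.curlT (u t) y 2 = vz (u t) y := by
      simp [N976.EC.curlT, N976.EC.pdT, vz]
    rw [h2] at h1
    linarith
  refine ⟨hTT, ?_⟩
  exact uniq hr hv (SolI.mono hu' (Ico_subset_Ico_right hTT) (uniqueDiffOn_Ico _ _)) h0

end M

end Pool.Agent.N264.EC
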