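import Pool.Agent.N264.EC.M6
import Pool.Agent.N264.EC.A
import Pool.Agent.N264.EC.B
import Pool.Agent.N264.EC.F
import Pool.Agent.N264.EC.G

/-! # Assembly, part 7 -/

set_option autoImplicit false

open Set Filter Topology MeasureTheory
open scoped ContDiff

namespace Pool.Agent.N264.EC

namespace M

theorem per_torus {v : V → V} (hv : ∀ y, 1 / 2 ≤ ‖y‖ → v y = 0) {y : V} (hy : y ∈ torus) :
    per v y = v y := by
  obtain ⟨k, hk, he⟩ := loc_per y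
  rw [he.self_of_nhds v hv]
  by_cases hk0 : k = 0
  · subst hk0
    have : lat 0 = 0 := by ext i; simp [lat]
    rw [this, sub_zero]
  · obtain ⟨i, hi⟩ := Function.ne_iff.1 hk0
    have h2 : |y i| ≤ Real.pi := abs_le.2 ⟨hy.1 i, hy.2 i⟩
    have h3 : (1 : ℝ) ≤ |(k i : ℝ)| := by
      have : 1 ≤ |k i| := Int.one_le_abs hi
      exact_mod_cast this
    have h4 : |y i - 2 * Real.pi * (k i : ℝ)| ≤ ‖y - lat k‖ := norm_le_pi_norm (y - lat k) i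
    have h5 : |2 * Real.pi * (k i : ℝ)| - |y i| ≤ |y i - 2 * Real.pi * (k i : ℝ)| := by
      have := abs_sub_abs_le_abs_sub (2 * Real.pi * (k i : ℝ)) (y i)
      rwa [abs_sub_comm (2 * Real.pi * (k i : ℝ)) (y i)] at this
    rw [abs_mul, abs_of_pos Real.two_pi_pos] at h5
    have hpi := Real.pi_gt_three
    have h6 : |y i| ≤ ‖y‖ := norm_le_pi_norm y i
    have h7 : 2 * Real.pi * 1 ≤ 2 * Real.pi * |(k i : ℝ)| :=
      mul_le_mul_of_nonneg_left h3 (by positivity)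
    have h8 : 1 / 2 ≤ ‖y - lat k‖ := by linarith
    have h9 : 1 / 2 ≤ ‖y‖ := by linarith
    rw [hv _ h8, hv _ h9]

/-- Assembly. -/
theorem main (hSER : S_SER) : ∃ (rad : ℕ → ℝ) (r : ℕ × Fin 2 → V → V) (a : V → V)
    (u : ℝ → V → V),
    (rad 0 = 1 / 2 ∧ ∀ n, 0 < rad n ∧ rad (n + 1) ≤ rad n ∧
      rad (n + 2) ≤ Real.exp (-(1 / rad n))) ∧
    (∀ p, ContDiff ℝ ∞ (r p) ∧ ∀ x, rad p.1 ≤ ‖x‖ → r p x = 0) ∧
    (ContDiff ℝ ∞ a ∧ a ≠ 0 ∧ SolI r univ (fun _ => a)) ∧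
    SolI r (Iio 0) u ∧
    ContDiffOn ℝ ∞ (fun z : ℝ × V => u z.1 z.2) {z | z.1 < 0 ∨ ∀ k, z.2 ≠ lat k} ∧
    (∃ c : ℕ × Fin 2 → ℝ → ℝ, (∀ p, ContDiff ℝ ∞ (c p)) ∧ ∀ t < 0, ∀ x ∈ torus,
      HasSum (fun p => c p t • r p x) (deriv (fun s => u s x) t + adv (u t) (u t) x)) ∧
    (∀ (k : ℕ) (ε : ℝ), 0 < ε → ∃ t₁ < (0 : ℝ), ∀ t ≤ t₁, ∀ x,
      ‖iteratedFDeriv ℝ k (fun y => u t y - a y) x‖ ≤ ε) ∧
    (∀ t < 0, ipT (u t) (u t) = ipT a a) ∧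
    (∀ ε : ℝ, 0 < ε → ∃ C, ∀ t < 0, ∀ x ∈ torus, x ≠ 0 →
      ‖fderiv ℝ (u t) x‖ ≤ C * ‖x‖ ^ (-ε)) ∧
    (∀ M : ℝ, ∃ t₁ < (0 : ℝ), ∀ t ∈ Ioo t₁ 0, ∃ x, M < |vz (u t) x|) ∧
    (∀ t₀ < 0, ∀ (T : ℝ) (v : ℝ → V → V), SolI r (Ico t₀ T) v → v t₀ = u t₀ →
      T ≤ 0 ∧ ∀ t ∈ Ico t₀ T, v t = u t) := by
  obtain ⟨φ, ρ, hpk⟩ := t_PK
  obtain ⟨β, N, hβ, hN, htbl⟩ := t_TBL φ ρ hpk
  obtain ⟨R, b, hpar, hsc, h1, htow, hsub, hhalf, hnat⟩ := G.seq hpk.ρ0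
  have hR1 : ∀ n, 1 ≤ R n := fun n => (one_le_pow₀ (by norm_num)).trans (hpar.R1 n)
  obtain ⟨x, g, hdyn⟩ := t_ODE β R b hβ hpar
  obtain ⟨hS1, hS2⟩ := hSER R φ hpar.R1 hpk.sm hpk.out
  obtain ⟨hloc, hrest⟩ := hS1 x hdyn.smx
  obtain ⟨hsmo, hhs, hht, hhd⟩ := hrest hdyn.rapx
  have h : Ctx φ ρ β N R b x g :=
    { pk := hpk, β0 := hβ, N0 := hN, tbl := htbl R hR1 hsc, par := hpar, sc := hsc, dyn := hdyn,
      loc := hloc, smo := hsmo, hs := hhs, ht := hht, hd := hhd, bd := hS2 }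
  have hR0 : ∀ n, 0 < R n := fun n => by linarith [hR1 n]
  have hout : ∀ t y, 1 / 2 ≤ ‖y‖ → U φ R x t y = 0 := fun t y hy => h.U_out t hy
  refine ⟨fun n => 1 / (2 * R (n - 1) ^ 2), fam β R φ, per (A0 φ R b), fun t => per (U φ R x t),
    ⟨?_, fun n => ⟨?_, ?_, ?_⟩⟩, fun p => ⟨fam_sm hpk.sm p, fun y hy => ?_⟩,
    ⟨h.A0_per_sm, ?_, h.steady⟩, h.sol, h.uSmooth, ⟨lam R x g, h.lam_sm, fun t ht y hy => ?_⟩,
    fun k ε hε => h.limit k hε, fun t ht => h.energy ht, fun ε hε => h.gradT hsub hε,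
    h.blow hhalf hnat, fun t₀ ht₀ T v hv hv0 => ?_⟩
  · simp [hpar.R0]
  · have := hR0 (n - 1)
    positivity
  · simp only [Nat.add_sub_cancel]
    refine one_div_le_one_div_of_le (by have := hR0 (n - 1); positivity) ?_
    have := sq_mono hR1 hpar.Rm (Nat.sub_le n 1)
    linarith
  · have e0 : n + 2 - 1 = n + 1 := by omega
    simp only [e0, one_div_one_div]
    rw [Real.exp_neg, ← one_div]
    refine one_div_le_one_div_of_le (Real.exp_pos _) ?_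
    rcases n with _ | n
    · simp only [zero_add, Nat.zero_sub, hpar.R0, one_pow, mul_one]
      exact h1
    · simp only [Nat.add_sub_cancel]
      have h2 := htow n
      have h3 : 0 < R (n + 1 + 1) ^ 2 := pow_pos (hR0 _) 2
      linarith
  · refine h.fam_out p ?_
    have h2 : 0 < R (p.1 - 1) ^ 2 := pow_pos (hR0 _) 2
    have h3 : 1 / (2 * R (p.1 - 1) ^ 2) ≤ ‖y‖ := hy
    rw [div_le_iff₀ (by positivity)] at h3
    linarith
  · intro h2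
    have h3 := ipT_per (v := A0 φ R b) (fun y hy => h.A0_out hy)
    rw [h.A0_en, h2] at h3
    have h4 : ipT 0 0 = 0 := by simp [ipT]
    rw [h4] at h3
    have : 0 < b 0 ^ 2 * N := mul_pos (pow_pos (hpar.b0 0) 2) hN
    linarith
  · have e1 : deriv (fun s => per (U φ R x s) y) t + adv (per (U φ R x t)) (per (U φ R x t)) y =
        G φ R x t y := by
      rw [per_adv (hout t) (hout t), ← per_torus (fun z hz => h.G_out hz) hy]
      rfl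
    simp only [e1]
    exact h.forceP ht y
  · exact maxi (fun p => (fam_sm hpk.sm p).continuous) h.sol (h.blow hhalf hnat) ht₀ hv hv0

end M

end Pool.Agent.N264.EC
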